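import Pool.Agent.H11.TH.Defs
import Pool.Agent.H92.SR.FinalS

/-!
# Module IfaceK: the Lehmer inequality for radicals of bounded degree (from THEOREM SR of helper92, `s = 1`)

`K`, `Λ` finitely generated, `S` a finite set of primes, `N₀ = K(μ_∞, all S-radicals of Λ)`.
* `rad_lehmer`: `dg (K(E)) γ * h(γ) ≥ c` for all groups `Λ ≤ E ≤ Λ_sat` and all `γ ∉ Λ_sat` having a power `γ^k`
  with at most `C` conjugates over `N₀`.
* `bdd_lehmer`: `h(γ) ≥ c` for all `γ ∉ Λ_sat` with at most `C` conjugates over `N₀`.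
-/

set_option autoImplicit false
set_option linter.unusedSectionVars false

open NumberField

namespace Pool.Agent.H11.TH

open Pool.Agent.H72.PB Pool.Agent.H92.SR

variable {K Ω : Type} [Field K] [NumberField K] [Field Ω] [CharZero Ω] [IsAlgClosed Ω]
  [Algebra K Ω] [IsGalois K Ω]

private theorem poldeg_of_dg (L : IntermediateField K Ω) (F : Set Ω) (hLF : (L : Set Ω) ⊆ F)
    (y : Ω) (C : ℕ) (hC : dg L y ≤ C) : PolDeg F C y := by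
  classical
  have hfin := orb_finite L y
  obtain ⟨V, hV⟩ : ∃ V : Finset Ω, (V : Set Ω) = Orb L y := ⟨hfin.toFinset, hfin.coe_toFinset⟩
  have hdg : dg L y = V.card := by
    unfold dg
    rw [← hV, Set.ncard_coe_finset]
  refine ⟨∏ x ∈ V, (Polynomial.X - Polynomial.C x), ?_, ?_, fun i => hLF (orb_poly_mem V hV i), ?_⟩
  · exact Finset.prod_ne_zero_iff.2 fun x _ => Polynomial.X_sub_C_ne_zero x
  · rw [Polynomial.natDegree_prod _ _ fun x _ => Polynomial.X_sub_C_ne_zero x]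
    simp only [Polynomial.natDegree_X_sub_C, Finset.sum_const, smul_eq_mul, mul_one]
    rw [← hdg]
    exact hC
  · rw [Polynomial.eval_prod]
    have hy : y ∈ V := by
      rw [← Finset.mem_coe, hV]
      exact orb_self L y
    exact Finset.prod_eq_zero hy (by rw [Polynomial.eval_sub, Polynomial.eval_X,
      Polynomial.eval_C, sub_self])

private theorem srad_sg (Λ : Subgroup Ωˣ) (S : Finset ℕ) (x : Ωˣ) (hx : x ∈ SRad Λ S) :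
    (x : Ω) ∈ SG {y : Ω | ∃ u ∈ Λ, y = ((u : Ωˣ) : Ω)} S := by
  obtain ⟨N, hN, hNS, t, ⟨k, hk, hkt⟩, h⟩ := hx
  refine ⟨N, hN, hNS, (t : Ω), ⟨k, hk, ?_⟩, ⟨_, h, ?_⟩⟩
  · rw [← Units.val_pow_eq_pow_val, hkt, Units.val_one]
  · rw [Units.val_mul, Units.val_pow_eq_pow_val]

private theorem srad_dg (Λ : Subgroup Ωˣ) (S : Finset ℕ) (x : Ωˣ) (hx : x ∈ SRad Λ S) :
    (x : Ω) ∈ DG {y : Ω | ∃ u ∈ Λ, y = ((u : Ωˣ) : Ω)} := by
  obtain ⟨N, hN, hNS, t, ⟨k, hk, hkt⟩, h⟩ := hx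
  refine ⟨N * k, Nat.mul_pos hN hk, (x ^ N * t) ^ k, pow_mem h k, ?_⟩
  rw [mul_pow, hkt, mul_one, ← pow_mul, Units.val_pow_eq_pow_val]

private theorem not_dg (Λ : Subgroup Ωˣ) (γ : Ωˣ) (h : ∀ m : ℕ, 1 ≤ m → γ ^ m ∉ Λ) :
    (γ : Ω) ∉ DG {y : Ω | ∃ u ∈ Λ, y = ((u : Ωˣ) : Ω)} := by
  rintro ⟨n, hn, u, hu, hun⟩
  apply h n hn
  have h1 : γ ^ n = u := by
    apply Units.ext
    rw [Units.val_pow_eq_pow_val, hun]
  rw [h1]
  exact hu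

theorem rad_lehmer (Λ : Subgroup Ωˣ) (hΛ : Λ.FG) (S : Finset ℕ) (hS : ∀ p ∈ S, p.Prime) (C : ℕ) :
    ∃ c : ℝ, 0 < c ∧ ∀ E : Subgroup Ωˣ, Λ ≤ E → (∀ x ∈ E, ∃ m : ℕ, 1 ≤ m ∧ x ^ m ∈ Λ) →
      ∀ γ : Ωˣ, (∀ m : ℕ, 1 ≤ m → γ ^ m ∉ Λ) → ∀ k : ℕ, 1 ≤ k →
      dg (N₀ K Λ S) ((γ : Ω) ^ k) ≤ C →
      c ≤ (dg (fld K (E : Set Ωˣ)) (γ : Ω) : ℝ) * absLogHeight₁ (γ : Ω) := by
  classical
  obtain ⟨T, hT⟩ : ∃ T : Set Ω, T = {x : Ω | ∃ u ∈ Λ, x = ((u : Ωˣ) : Ω)} := ⟨_, rfl⟩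
  obtain ⟨c, hc, h⟩ := final_S K Ω Λ hΛ S hS 1 C T hT
  refine ⟨c, hc, ?_⟩
  intro E _ hE γ hγ k hk hC
  have hsum : ∑ _i : Fin 1, (γ : Ω) = (γ : Ω) := by simp
  have h1 := h (fun _ => (γ : Ω)) (fun _ => ⟨k, hk, poldeg_of_dg (N₀ K Λ S) _ ?_ _ C hC⟩)
    (by rw [hsum]; exact γ.ne_zero) (by rw [hsum, hT]; exact not_dg Λ γ hγ)
    (dg (fld K (E : Set Ωˣ)) (γ : Ω)) (by
      rw [hsum]
      refine poldeg_of_dg (fld K (E : Set Ωˣ)) _ ?_ _ _ le_rfl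
      have h2 : fld K (E : Set Ωˣ) ≤ IntermediateField.adjoin K (DG T) := by
        unfold fld
        rw [IntermediateField.adjoin_le_iff]
        rintro y ⟨x, hx, rfl⟩
        obtain ⟨m, hm, hxm⟩ := hE x hx
        refine IntermediateField.subset_adjoin K _ ⟨m, hm, ?_⟩
        rw [hT]
        exact ⟨x ^ m, hxm, by rw [Units.val_pow_eq_pow_val]⟩
      exact h2)
  · rw [hsum] at h1
    exact h1
  · have h2 : N₀ K Λ S ≤ IntermediateField.adjoin K (SG T S) := by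
      unfold N₀ fld
      rw [IntermediateField.adjoin_le_iff]
      rintro y ⟨x, hx, rfl⟩
      refine IntermediateField.subset_adjoin K _ ?_
      rw [hT]
      exact srad_sg Λ S x hx
    exact h2

theorem bdd_lehmer (Λ : Subgroup Ωˣ) (hΛ : Λ.FG) (S : Finset ℕ) (hS : ∀ p ∈ S, p.Prime) (C : ℕ) :
    ∃ c : ℝ, 0 < c ∧ ∀ γ : Ωˣ, (∀ m : ℕ, 1 ≤ m → γ ^ m ∉ Λ) →
      dg (N₀ K Λ S) (γ : Ω) ≤ C → c ≤ absLogHeight₁ (γ : Ω) := by
  classical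
  obtain ⟨T, hT⟩ : ∃ T : Set Ω, T = {x : Ω | ∃ u ∈ Λ, x = ((u : Ωˣ) : Ω)} := ⟨_, rfl⟩
  obtain ⟨c, hc, h⟩ := final_S K Ω Λ hΛ S hS 1 C T hT
  refine ⟨c / (C + 1), by positivity, ?_⟩
  intro γ hγ hC
  have hsum : ∑ _i : Fin 1, (γ : Ω) = (γ : Ω) := by simp
  have h3 : N₀ K Λ S ≤ IntermediateField.adjoin K (SG T S) := by
    unfold N₀ fld
    rw [IntermediateField.adjoin_le_iff]
    rintro y ⟨x, hx, rfl⟩
    refine IntermediateField.subset_adjoin K _ ?_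
    rw [hT]
    exact srad_sg Λ S x hx
  have h4 : N₀ K Λ S ≤ IntermediateField.adjoin K (DG T) := by
    unfold N₀ fld
    rw [IntermediateField.adjoin_le_iff]
    rintro y ⟨x, hx, rfl⟩
    refine IntermediateField.subset_adjoin K _ ?_
    rw [hT]
    exact srad_dg Λ S x hx
  have h1 := h (fun _ => (γ : Ω)) (fun _ => ⟨1, le_rfl, poldeg_of_dg (N₀ K Λ S) _ h3 _ C (by
      rw [pow_one]; exact hC)⟩)
    (by rw [hsum]; exact γ.ne_zero) (by rw [hsum, hT]; exact not_dg Λ γ hγ) C (by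
      rw [hsum]
      exact poldeg_of_dg (N₀ K Λ S) _ h4 _ _ hC)
  rw [hsum] at h1
  have h5 : 0 ≤ absLogHeight₁ (γ : Ω) := ht_nonneg _
  rw [div_le_iff₀ (by positivity)]
  calc c ≤ (C : ℝ) * absLogHeight₁ (γ : Ω) := h1
    _ ≤ absLogHeight₁ (γ : Ω) * (C + 1) := by nlinarith

end Pool.Agent.H11.TH
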