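import Pool.Agent.H11.TH.Irr

/-!
# Module Sec: lower bound of the Hilbert function by disjoint conjugates

If `D = 0` or `k = 0` the claim is trivial (`c = 0`). Otherwise let `E` be the maximum of the `|e l|`, `c = k E + D`
and `M = m - c` for `m ≥ c`. `f_i = ∏_(j ≠ i) bin e (γ_j)` (file `Irr.lean`) has degree at most `k E` in every variable; by
`bin_zero_iff` it vanishes on `V_j`, `j ≠ i`, and at no point of `V_i` (there `ch e x = γ_i ≠ γ_j`). Let
`B = {b : Fin n → ℕ | b l < D, b l' ≤ M for l' ≠ l}`, `D * (M+1)^(n-1)` elements (`Fintype.piFinset`). The polynomials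
`f_i x^b`, `(i, b) ∈ Fin k × B`, lie in `restrictDegree (Fin n) Ω m` (degrees `≤ k E + max (D-1) M ≤ m`). Their
restrictions to `Z` are linearly independent: if `∑ a_(i,b) f_i x^b` vanishes on `Z`, then for every `i` it vanishes
on `V_i ⊆ Z`, so `p_i = ∑_b a_(i,b) x^b` vanishes on `V_i`: `p_i ∈ idl (V i) = span {G i}`, `G i ∣ p_i`, but
`degreeOf l p_i < D = degreeOf l (G i)`, so `p_i = 0` (`degreeOf_mul_eq`-like lemma for a domain, or
`finSuccEquiv`; `G i ≠ 0` as its degree is `D ≥ 1`), hence all `a_(i,b) = 0`.
So `k * #B ≤ finrank (secs Z m)` (`LinearIndependent.fintype_card_le_finrank`; `secs Z m` is finite-dimensional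
as the image of `restrictDegree`, which is spanned by finitely many monomials).
-/

set_option autoImplicit false
set_option linter.unusedSectionVars false

open MvPolynomial

namespace Pool.Agent.H11.TH

variable {Ω : Type} [Field Ω] {n : ℕ}

private theorem restr_finite (m : ℕ) : Module.Finite Ω (restrictDegree (Fin n) Ω m) := by
  classical
  rw [Module.Finite.iff_fg]
  refine ⟨(Fintype.piFinset (fun _ : Fin n => Finset.range (m + 1))).image
    (fun b : Fin n → ℕ => (monomial (Finsupp.equivFunOnFinite.symm b) (1 : Ω) : MvPolynomial (Fin n) Ω)), ?_⟩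
  apply le_antisymm
  · rw [Submodule.span_le]
    intro p hp
    simp only [Finset.coe_image, Set.mem_image, Finset.mem_coe, Fintype.mem_piFinset,
      Finset.mem_range] at hp
    obtain ⟨b, hb, rfl⟩ := hp
    rw [SetLike.mem_coe, mem_restrictDegree]
    intro s hs i
    have hs' := support_monomial_subset hs
    rw [Finset.mem_singleton] at hs'
    subst hs'
    have := hb i
    simp only [Finsupp.equivFunOnFinite_symm_apply_apply]
    omega
  · intro p hp
    rw [mem_restrictDegree] at hp
    rw [p.as_sum]
    refine Submodule.sum_mem _ fun s hs => ?_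
    have : (monomial s (coeff s p) : MvPolynomial (Fin n) Ω) =
        coeff s p • monomial s (1 : Ω) := by
      rw [smul_monomial, smul_eq_mul, mul_one]
    rw [this]
    refine Submodule.smul_mem _ _ (Submodule.subset_span ?_)
    simp only [Finset.coe_image, Set.mem_image, Finset.mem_coe, Fintype.mem_piFinset,
      Finset.mem_range]
    refine ⟨s, fun i => Nat.lt_succ_of_le (hp s hs i), ?_⟩
    congr 1
    ext i
    simp

theorem secs_finite (Z : Set (Tor Ω n)) (m : ℕ) : Module.Finite Ω (secs Z m) := by
  haveI := restr_finite (Ω := Ω) (n := n) m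
  unfold secs
  exact Module.Finite.map _ _

/-- the polynomial with zeros on the other cosets -/
private noncomputable def ff (k : ℕ) (e : Fin n → ℤ) (γ : Fin k → Ωˣ) (i : Fin k) :
    MvPolynomial (Fin n) Ω := ∏ j ∈ Finset.univ.erase i, bin e (γ j : Ω)

private theorem bin_deg (e : Fin n → ℤ) (c : Ω) (l : Fin n) :
    (bin e c).degreeOf l ≤ (e l).natAbs := by
  classical
  unfold bin
  refine (degreeOf_sub_le _ _ _).trans (max_le ?_ ?_)
  · refine (degreeOf_prod_le _ _ _).trans ?_
    rw [Finset.sum_eq_single l]
    · refine (degreeOf_pow_le _ _ _).trans ?_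
      rw [degreeOf_X_self]
      omega
    · intro b _ hb
      refine Nat.le_zero.mp ((degreeOf_pow_le _ _ _).trans ?_)
      rw [degreeOf_X_of_ne hb.symm]
      simp
    · intro h
      exact absurd (Finset.mem_univ l) h
  · refine (degreeOf_C_mul_le _ _ _).trans ?_
    refine (degreeOf_prod_le _ _ _).trans ?_
    rw [Finset.sum_eq_single l]
    · refine (degreeOf_pow_le _ _ _).trans ?_
      rw [degreeOf_X_self]
      omega
    · intro b _ hb
      refine Nat.le_zero.mp ((degreeOf_pow_le _ _ _).trans ?_)
      rw [degreeOf_X_of_ne hb.symm]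
      simp
    · intro h
      exact absurd (Finset.mem_univ l) h

private theorem ff_deg (k : ℕ) (e : Fin n → ℤ) (γ : Fin k → Ωˣ) (i : Fin k) (l : Fin n) (E : ℕ)
    (hE : (e l).natAbs ≤ E) : (ff k e γ i).degreeOf l ≤ k * E := by
  classical
  unfold ff
  refine (degreeOf_prod_le _ _ _).trans ?_
  refine (Finset.sum_le_sum (g := fun _ => E) fun j _ => (bin_deg e _ l).trans hE).trans ?_
  rw [Finset.sum_const, smul_eq_mul]
  refine Nat.mul_le_mul_right _ ?_
  refine (Finset.card_le_univ _).trans ?_
  rw [Fintype.card_fin]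

private theorem ff_eval_ne (k : ℕ) (e : Fin n → ℤ) (γ : Fin k → Ωˣ) (i i' : Fin k) (h : i' ≠ i)
    (x : Tor Ω n) (hx : ch e x = γ i) : aeval (crd x) (ff k e γ i') = 0 := by
  classical
  unfold ff
  rw [map_prod]
  refine Finset.prod_eq_zero (Finset.mem_erase.mpr ⟨h.symm, Finset.mem_univ i⟩) ?_
  exact (bin_zero_iff e (γ i) x).mpr hx

private theorem ff_eval_self (k : ℕ) (e : Fin n → ℤ) (γ : Fin k → Ωˣ)
    (hγ : Function.Injective γ) (i : Fin k)
    (x : Tor Ω n) (hx : ch e x = γ i) : aeval (crd x) (ff k e γ i) ≠ 0 := by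
  classical
  unfold ff
  rw [map_prod]
  refine Finset.prod_ne_zero_iff.mpr fun j hj => ?_
  intro h0
  have := (bin_zero_iff e (γ j) x).mp h0
  rw [hx] at this
  exact (Finset.mem_erase.mp hj).1 (hγ this).symm

theorem secs_lower (Z : Set (Tor Ω n)) (k : ℕ) (V : Fin k → Set (Tor Ω n))
    (hVZ : ∀ i, V i ⊆ Z) (G : Fin k → MvPolynomial (Fin n) Ω)
    (hG : ∀ i, idl (V i) = Ideal.span {G i}) (e : Fin n → ℤ) (γ : Fin k → Ωˣ)
    (hγ : Function.Injective γ) (hV : ∀ i, ∀ x ∈ V i, ch e x = γ i) (l : Fin n) (D : ℕ)
    (hD : ∀ i, (G i).degreeOf l = D) :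
    ∃ c : ℕ, ∀ m : ℕ, c ≤ m →
      k * (D * (m - c + 1) ^ (n - 1)) ≤ Module.finrank Ω (secs Z m) := by
  classical
  rcases Nat.eq_zero_or_pos D with hD0 | hDpos
  · refine ⟨0, fun m _ => ?_⟩
    rw [hD0]
    simp
  set E : ℕ := ∑ l', (e l').natAbs with hEdef
  have hE : ∀ l', (e l').natAbs ≤ E := fun l' =>
    Finset.single_le_sum (f := fun l' => (e l').natAbs) (fun _ _ => Nat.zero_le _)
      (Finset.mem_univ l')
  refine ⟨k * E + D, fun m hm => ?_⟩
  set M : ℕ := m - (k * E + D) with hM
  have hMm : M + (k * E + D) = m := Nat.sub_add_cancel hm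
  -- the box
  set B : Finset (Fin n → ℕ) :=
    Fintype.piFinset (fun l' : Fin n => if l' = l then Finset.range D else Finset.range (M + 1))
    with hB
  have hBcard : B.card = D * (M + 1) ^ (n - 1) := by
    rw [hB, Fintype.card_piFinset]
    rw [← Finset.mul_prod_erase Finset.univ _ (Finset.mem_univ l)]
    rw [if_pos rfl, Finset.card_range]
    congr 1
    rw [Finset.prod_congr rfl (g := fun _ => M + 1)]
    · rw [Finset.prod_const, Finset.card_erase_of_mem (Finset.mem_univ l), Finset.card_univ,
        Fintype.card_fin]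
    · intro x hx
      rw [if_neg (Finset.mem_erase.mp hx).1, Finset.card_range]
  have hBl : ∀ b ∈ B, b l < D := by
    intro b hb
    have := Fintype.mem_piFinset.mp hb l
    rw [if_pos rfl] at this
    exact Finset.mem_range.mp this
  have hBm : ∀ b ∈ B, ∀ l', b l' ≤ M + D := by
    intro b hb l'
    have := Fintype.mem_piFinset.mp hb l'
    by_cases h : l' = l
    · rw [if_pos h] at this
      have := Finset.mem_range.mp this
      omega
    · rw [if_neg h] at this
      have := Finset.mem_range.mp this
      omega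
  -- the polynomials
  let P : Fin k × B → MvPolynomial (Fin n) Ω := fun ib =>
    ff k e γ ib.1 * monomial (Finsupp.equivFunOnFinite.symm (ib.2 : Fin n → ℕ)) (1 : Ω)
  have hP : ∀ ib, P ib ∈ restrictDegree (Fin n) Ω m := by
    intro ib
    rw [mem_restrictDegree]
    intro s hs l'
    have h1 : (P ib).degreeOf l' ≤ m := by
      refine (degreeOf_mul_le _ _ _).trans ?_
      have h2 := ff_deg k e γ ib.1 l' E (hE l')
      have h3 : (monomial (Finsupp.equivFunOnFinite.symm (ib.2 : Fin n → ℕ)) (1 : Ω)).degreeOf l'
          ≤ M + D := by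
        rw [degreeOf_le_iff]
        intro t ht
        have ht' := support_monomial_subset ht
        rw [Finset.mem_singleton] at ht'
        subst ht'
        simpa using hBm _ ib.2.2 l'
      omega
    exact (degreeOf_le_iff.mp h1) s hs
  let R : MvPolynomial (Fin n) Ω →ₗ[Ω] (Z → Ω) :=
    LinearMap.pi fun z : Z => (aeval (crd (z : Tor Ω n))).toLinearMap
  have hR : ∀ p z, R p z = aeval (crd (z : Tor Ω n)) p := fun p z => rfl
  let v : Fin k × B → secs Z m := fun ib => ⟨R (P ib), Submodule.mem_map_of_mem (hP ib)⟩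
  have hlin : LinearIndependent Ω v := by
    rw [Fintype.linearIndependent_iff]
    intro a ha
    have ha' : ∑ ib, a ib • R (P ib) = 0 := by
      have := congrArg (fun w : secs Z m => (w : Z → Ω)) ha
      simpa [v] using this
    -- for each i
    have hz : ∀ i, ∀ z ∈ V i, aeval (crd z)
        (∑ b : B, monomial (Finsupp.equivFunOnFinite.symm (b : Fin n → ℕ)) (a (i, b))) = (0 : Ω) := by
      intro i z hz
      have h1 := congrFun ha' ⟨z, hVZ i hz⟩
      simp only [Finset.sum_apply, Pi.smul_apply, hR, Pi.zero_apply, smul_eq_mul] at h1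
      rw [Fintype.sum_prod_type] at h1
      rw [Finset.sum_eq_single i] at h1
      · have h2 : aeval (crd z) (ff k e γ i) * aeval (crd z)
            (∑ b : B, monomial (Finsupp.equivFunOnFinite.symm (b : Fin n → ℕ)) (a (i, b)))
            = (0 : Ω) := by
          rw [← h1, map_sum, Finset.mul_sum]
          refine Finset.sum_congr rfl fun b _ => ?_
          have : (monomial (Finsupp.equivFunOnFinite.symm (b : Fin n → ℕ)) (a (i, b)) :
              MvPolynomial (Fin n) Ω) =
              C (a (i, b)) * monomial (Finsupp.equivFunOnFinite.symm (b : Fin n → ℕ)) (1 : Ω) := by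
            rw [C_mul_monomial, mul_one]
          rw [this]
          simp only [P, map_mul, aeval_C, Algebra.algebraMap_self, RingHom.id_apply]
          ring
        rcases mul_eq_zero.mp h2 with h3 | h3
        · exact absurd h3 (ff_eval_self k e γ hγ i z (hV i z hz))
        · exact h3
      · intro i' _ hi'
        refine Finset.sum_eq_zero fun b _ => ?_
        have : aeval (crd z) (ff k e γ i') = 0 := ff_eval_ne k e γ i i' hi' z (hV i z hz)
        simp only [P, map_mul, this, zero_mul, mul_zero]
      · intro h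
        exact absurd (Finset.mem_univ i) h
    have hp0 : ∀ i, (∑ b : B, monomial (Finsupp.equivFunOnFinite.symm (b : Fin n → ℕ)) (a (i, b)) :
        MvPolynomial (Fin n) Ω) = 0 := by
      intro i
      by_contra hne
      have hmem : (∑ b : B, monomial (Finsupp.equivFunOnFinite.symm (b : Fin n → ℕ)) (a (i, b)) :
          MvPolynomial (Fin n) Ω) ∈ idl (V i) := by
        unfold idl
        rw [mem_vanishingIdeal_iff]
        rintro _ ⟨z, hzV, rfl⟩
        exact hz i z hzV
      rw [hG i, Ideal.mem_span_singleton] at hmem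
      obtain ⟨q, hq⟩ := hmem
      have hG0 : G i ≠ 0 := by
        intro h0
        rw [h0, zero_mul] at hq
        exact hne hq
      have hq0 : q ≠ 0 := by
        intro h0
        rw [h0, mul_zero] at hq
        exact hne hq
      have hdeg := degreeOf_mul_eq (n := l) hG0 hq0
      rw [← hq, hD i] at hdeg
      have hlt : (∑ b : B, monomial (Finsupp.equivFunOnFinite.symm (b : Fin n → ℕ)) (a (i, b)) :
        MvPolynomial (Fin n) Ω).degreeOf l < D := by
        rw [degreeOf_lt_iff hDpos]
        intro s hs
        have hs1 := support_sum hs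
        rw [Finset.mem_biUnion] at hs1
        obtain ⟨b, _, hb⟩ := hs1
        have hb' := support_monomial_subset hb
        rw [Finset.mem_singleton] at hb'
        subst hb'
        simpa using hBl _ b.2
      omega
    rintro ⟨i, b⟩
    have h1 := congrArg (coeff (Finsupp.equivFunOnFinite.symm (b : Fin n → ℕ))) (hp0 i)
    rw [coeff_sum, coeff_zero] at h1
    rw [Finset.sum_eq_single b] at h1
    · rwa [coeff_monomial, if_pos rfl] at h1
    · intro b' _ hb'
      rw [coeff_monomial, if_neg]
      intro h
      exact hb' (Subtype.ext (Finsupp.equivFunOnFinite.symm.injective h))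
    · intro h
      exact absurd (Finset.mem_univ b) h
  haveI := secs_finite Z m
  have hcard := hlin.fintype_card_le_finrank
  rw [Fintype.card_prod, Fintype.card_fin, Fintype.card_coe, hBcard] at hcard
  exact hcard

end Pool.Agent.H11.TH
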