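import Mathlib

/-!
# Module Asy: dimension and degree from the Hilbert function (Mathlib only)

`q = k * D ≥ 1`. For `m ≥ c`: `a m ≥ q (m - c + 1)^(n-1)`. If `d < n - 1` then
`d! a(m) / m^d ≥ q (m - c + 1)^(n-1) / m^d ≥ (m - c + 1) ((m-c+1)/m)^d → ∞` (`n - 1 ≥ d + 1`), a contradiction to the
convergence. So `d = n - 1` (`d + 1 ≤ n`), and `d! a(m)/m^d ≥ q ((m-c+1)/m)^d → q`
(`ge_of_tendsto`/`le_of_tendsto_of_tendsto`, `d! ≥ 1`, `(m - c + 1)/m → 1`), so `q ≤ δ`.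
-/

set_option autoImplicit false

open Filter Topology

namespace Pool.Agent.H11.TH

theorem asy (n d k D c : ℕ) (hd : d + 1 ≤ n) (hD : 1 ≤ k * D) (a : ℕ → ℕ)
    (ha : ∀ m, c ≤ m → k * (D * (m - c + 1) ^ (n - 1)) ≤ a m) (δ : ℝ)
    (h : Tendsto (fun m : ℕ => (d.factorial : ℝ) * (a m : ℝ) / (m : ℝ) ^ d) atTop (𝓝 δ)) :
    d = n - 1 ∧ ((k * D : ℕ) : ℝ) ≤ δ := by
  have hw : Tendsto (fun m : ℕ => ((m - c + 1 : ℕ) : ℝ) / (m : ℝ)) atTop (𝓝 1) := by
    have h1 : Tendsto (fun m : ℕ => (1 : ℝ) + (1 - (c : ℝ)) / (m : ℝ)) atTop (𝓝 (1 + 0)) :=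
      tendsto_const_nhds.add (tendsto_const_div_atTop_nhds_zero_nat _)
    rw [add_zero] at h1
    refine h1.congr' ?_
    filter_upwards [eventually_ge_atTop (max c 1)] with m hm
    have hmc : c ≤ m := (le_max_left _ _).trans hm
    have hm1 : 1 ≤ m := (le_max_right _ _).trans hm
    have hm0 : (m : ℝ) ≠ 0 := by
      have : (0 : ℝ) < m := by exact_mod_cast hm1
      exact this.ne'
    rw [Nat.cast_add, Nat.cast_sub hmc, Nat.cast_one]
    field_simp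
    ring
  have hfac : (1 : ℝ) ≤ (d.factorial : ℝ) := by
    exact_mod_cast Nat.factorial_pos d
  have hb : ∀ m, max c 1 ≤ m → ((k * D : ℕ) : ℝ) * ((m - c + 1 : ℕ) : ℝ) ^ (n - 1) / (m : ℝ) ^ d ≤
      (d.factorial : ℝ) * (a m : ℝ) / (m : ℝ) ^ d := by
    intro m hm
    have hmc : c ≤ m := (le_max_left _ _).trans hm
    have h1 : ((k * D : ℕ) : ℝ) * ((m - c + 1 : ℕ) : ℝ) ^ (n - 1) ≤ (a m : ℝ) := by
      have h2 := ha m hmc
      rw [← mul_assoc] at h2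
      exact_mod_cast h2
    have h3 : (a m : ℝ) ≤ (d.factorial : ℝ) * (a m : ℝ) :=
      le_mul_of_one_le_left (Nat.cast_nonneg _) hfac
    exact div_le_div_of_nonneg_right (h1.trans h3) (by positivity)
  have hdn : d = n - 1 := by
    by_contra hne
    have hlt : d + 1 ≤ n - 1 := by omega
    have hf : Tendsto (fun m : ℕ => ((m - c + 1 : ℕ) : ℝ)) atTop atTop := by
      apply tendsto_natCast_atTop_atTop.comp
      apply tendsto_atTop_mono (fun m => Nat.le_succ (m - c))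
      exact tendsto_sub_atTop_nat c
    have hprod : Tendsto (fun m : ℕ => ((m - c + 1 : ℕ) : ℝ) *
        (((m - c + 1 : ℕ) : ℝ) / (m : ℝ)) ^ d) atTop atTop :=
      hf.atTop_mul_pos one_pos (by simpa using hw.pow d)
    have hup : Tendsto (fun m : ℕ => (d.factorial : ℝ) * (a m : ℝ) / (m : ℝ) ^ d) atTop atTop := by
      refine tendsto_atTop_mono' atTop ?_ hprod
      filter_upwards [eventually_ge_atTop (max c 1)] with m hm
      refine le_trans ?_ (hb m hm)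
      have hx : (1 : ℝ) ≤ ((m - c + 1 : ℕ) : ℝ) := by
        exact_mod_cast Nat.succ_le_succ (Nat.zero_le _)
      have hq : (1 : ℝ) ≤ ((k * D : ℕ) : ℝ) := by exact_mod_cast hD
      have h4 : ((m - c + 1 : ℕ) : ℝ) ^ (d + 1) ≤ ((k * D : ℕ) : ℝ) *
          ((m - c + 1 : ℕ) : ℝ) ^ (n - 1) := by
        calc ((m - c + 1 : ℕ) : ℝ) ^ (d + 1) ≤ ((m - c + 1 : ℕ) : ℝ) ^ (n - 1) :=
              pow_le_pow_right₀ hx hlt
          _ ≤ ((k * D : ℕ) : ℝ) * ((m - c + 1 : ℕ) : ℝ) ^ (n - 1) :=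
              le_mul_of_one_le_left (by positivity) hq
      calc ((m - c + 1 : ℕ) : ℝ) * (((m - c + 1 : ℕ) : ℝ) / (m : ℝ)) ^ d
          = ((m - c + 1 : ℕ) : ℝ) ^ (d + 1) / (m : ℝ) ^ d := by
            rw [div_pow, pow_succ]
            ring
        _ ≤ _ := div_le_div_of_nonneg_right h4 (by positivity)
    exact not_tendsto_nhds_of_tendsto_atTop hup δ h
  refine ⟨hdn, ?_⟩
  have hlow : Tendsto (fun m : ℕ => ((k * D : ℕ) : ℝ) *
      (((m - c + 1 : ℕ) : ℝ) / (m : ℝ)) ^ d) atTop (𝓝 ((k * D : ℕ) : ℝ)) := by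
    have h1 := (hw.pow d).const_mul ((k * D : ℕ) : ℝ)
    rw [one_pow, mul_one] at h1
    exact h1
  refine le_of_tendsto_of_tendsto hlow h ?_
  filter_upwards [eventually_ge_atTop (max c 1)] with m hm
  have h2 := hb m hm
  rw [← hdn] at h2
  refine le_trans (le_of_eq ?_) h2
  rw [div_pow]
  ring

end Pool.Agent.H11.TH
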