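import Pool.Agent.H11.TH.DegDefs

/-!
# Module Dim: proper closed subsets have smaller dimension

`idl Z ≠ ⊤` since `Z` is nonempty (`1` does not vanish). `idl Z ≠ ⊥`: `Z = {x | crd x ∈ zeroLocus Ω J}` is not everything, so
some `f ∈ J` has `aeval (crd y) f ≠ 0`; its image in `MvPolynomial (Fin n) Ω` (`map (algebraMap L Ω)`) is in `idl Z` and not
zero (`exists_monomials` in the hand-in file `Results/MP_187c26_nt/RankOneNotLehmer.lean` has this computation).
A minimal prime `P ≥ idl Z` exists (`Ideal.nonempty_minimalPrimes`), `P ≠ ⊥`, so it contains a nonzero `f`, a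
non-zero-divisor: `ringKrullDim (R ⧸ P) + 1 ≤ ringKrullDim R`
(`ringKrullDim_quotient_succ_le_of_nonZeroDivisor`) and `ringKrullDim (MvPolynomial (Fin n) Ω) = n`
(`MvPolynomial.ringKrullDim_of_isNoetherianRing`, `ringKrullDim_eq_zero_of_field`). So `d + 1 ≤ n`.
-/

set_option autoImplicit false
set_option linter.unusedSectionVars false

open MvPolynomial

namespace Pool.Agent.H11.TH

private theorem idl_ne_bot {K Ω : Type} [Field K] [Field Ω] [Algebra K Ω] {n : ℕ}
    (L : IntermediateField K Ω) (Z : Set (Tor Ω n)) (hZ : ClosedOver L Z)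
    (hne : Z ≠ Set.univ) : ∃ g ∈ idl Z, g ≠ 0 := by
  obtain ⟨J, hJ⟩ := hZ
  obtain ⟨y, hy⟩ := (Set.ne_univ_iff_exists_notMem _).1 hne
  rw [hJ] at hy
  simp only [Set.mem_ofPred_eq, mem_zeroLocus_iff, not_forall] at hy
  obtain ⟨f, hf, hfy⟩ := hy
  have hgx : ∀ x : Tor Ω n, aeval (crd x) (map (algebraMap L Ω) f) = aeval (crd x) f := fun x =>
    aeval_map_algebraMap _ _ _
  refine ⟨map (algebraMap L Ω) f, ?_, ?_⟩
  · rw [idl, mem_vanishingIdeal_iff]
    rintro _ ⟨x, hx, rfl⟩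
    rw [hJ] at hx
    rw [hgx]
    exact hx f hf
  · intro h0
    apply hfy
    rw [← hgx, h0, map_zero]

theorem dim_lt {K Ω : Type} [Field K] [Field Ω] [Algebra K Ω] {n : ℕ}
    (L : IntermediateField K Ω) (Z : Set (Tor Ω n)) (hZ : ClosedOver L Z)
    (hne : Z ≠ Set.univ) (d : ℕ) (hd : Equidim Z d) : d + 1 ≤ n := by
  obtain ⟨g, hg, hg0⟩ := idl_ne_bot L Z hZ hne
  obtain ⟨⟨z, hz⟩, hmin⟩ := hd
  have htop : idl Z ≠ ⊤ := by
    intro h
    have h1 : (1 : MvPolynomial (Fin n) Ω) ∈ idl Z := by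
      rw [h]
      trivial
    rw [idl, mem_vanishingIdeal_iff] at h1
    have h2 := h1 (crd z) ⟨z, hz, rfl⟩
    rw [map_one] at h2
    exact one_ne_zero h2
  obtain ⟨P, hP⟩ := Ideal.nonempty_minimalPrimes htop
  have hle : idl Z ≤ P := hP.1.2
  have hsp : Ideal.span {g} ≤ P := by
    rw [Ideal.span_singleton_le_iff_mem]
    exact hle hg
  have h1 : ringKrullDim (MvPolynomial (Fin n) Ω ⧸ P) ≤
      ringKrullDim (MvPolynomial (Fin n) Ω ⧸ Ideal.span {g}) :=
    ringKrullDim_le_of_surjective (Ideal.Quotient.factor hsp) (Ideal.Quotient.factor_surjective hsp)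
  have h2 : ringKrullDim (MvPolynomial (Fin n) Ω ⧸ Ideal.span {g}) + 1 ≤
      ringKrullDim (MvPolynomial (Fin n) Ω) :=
    ringKrullDim_quotient_succ_le_of_nonZeroDivisor (mem_nonZeroDivisors_of_ne_zero hg0)
  rw [hmin P hP] at h1
  have h3 : ringKrullDim (MvPolynomial (Fin n) Ω) = n := by
    rw [MvPolynomial.ringKrullDim_of_isNoetherianRing, ringKrullDim_eq_zero_of_field, zero_add,
      Nat.card_eq_fintype_card, Fintype.card_fin]
  rw [h3] at h2
  have h4 : ((d : ℕ) : WithBot ℕ∞) + 1 ≤ ((n : ℕ) : WithBot ℕ∞) := by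
    refine le_trans ?_ h2
    gcongr
  exact_mod_cast h4

end Pool.Agent.H11.TH
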