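import Pool.Agent.H11.TH.Defs

/-!
# Module Cnj: conjugates of subvarieties

`σ* = MvPolynomial.map (σ : Ω →+* Ω)`, a ring automorphism of `MvPolynomial (Fin n) Ω` (`mapEquiv`).
`aeval (crd (mv σ x)) (σ* p) = σ (aeval (crd x) p)` (`cnj_eval`; e.g. `eval₂`/`aeval` computations,
`MvPolynomial.eval₂_comp_left`, or induction on `p`).
* `idl_mv`: `p ∈ idl (mv σ '' V)` iff `(σ⁻¹)* p ∈ idl V = span {G}` iff `G ∣ (σ⁻¹)* p` iff `σ* G ∣ p`.
* `deg_cnj`: `σ` is injective: `degreeOf_map_of_injective`, or supports are equal (`support_map_of_injective`,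
  `degreeOf_eq_sup`).
* `closed_mv`: the polynomials of `J` have coefficients in `L`, fixed by `σ`: for `f : MvPolynomial (Fin n) L`:
  `aeval (crd (mv σ x)) f = σ (aeval (crd x) f)`.
-/

set_option autoImplicit false
set_option linter.unusedSectionVars false

open MvPolynomial

namespace Pool.Agent.H11.TH

variable {K Ω : Type} [Field K] [Field Ω] [Algebra K Ω] {n : ℕ}

private theorem cnj_eval (σ : Ω ≃ₐ[K] Ω) (x : Tor Ω n) (p : MvPolynomial (Fin n) Ω) :
    aeval (crd (mv σ x)) (MvPolynomial.map (σ : Ω →+* Ω) p) = σ (aeval (crd x) p) := by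
  induction p using MvPolynomial.induction_on with
  | C a =>
    rw [MvPolynomial.map_C, aeval_C, aeval_C]
    rfl
  | add p q hp hq => rw [map_add, map_add, hp, hq, map_add, map_add]
  | mul_X p i hp =>
    rw [map_mul, map_mul, hp, MvPolynomial.map_X, aeval_X, map_mul, map_mul, aeval_X]
    rfl

private theorem map_symm (σ : Ω ≃ₐ[K] Ω) (p : MvPolynomial (Fin n) Ω) :
    MvPolynomial.map (σ : Ω →+* Ω) (MvPolynomial.map (σ.symm : Ω →+* Ω) p) = p := by
  rw [MvPolynomial.map_map]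
  have h : (σ : Ω →+* Ω).comp (σ.symm : Ω →+* Ω) = RingHom.id Ω := by
    ext a
    exact σ.apply_symm_apply a
  rw [h, MvPolynomial.map_id]

private theorem symm_map (σ : Ω ≃ₐ[K] Ω) (p : MvPolynomial (Fin n) Ω) :
    MvPolynomial.map (σ.symm : Ω →+* Ω) (MvPolynomial.map (σ : Ω →+* Ω) p) = p := by
  rw [MvPolynomial.map_map]
  have h : (σ.symm : Ω →+* Ω).comp (σ : Ω →+* Ω) = RingHom.id Ω := by
    ext a
    exact σ.symm_apply_apply a
  rw [h, MvPolynomial.map_id]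

theorem idl_mv (σ : Ω ≃ₐ[K] Ω) (V : Set (Tor Ω n)) (G : MvPolynomial (Fin n) Ω)
    (hG : idl V = Ideal.span {G}) :
    idl (mv σ '' V) = Ideal.span {MvPolynomial.map (σ : Ω →+* Ω) G} := by
  ext p
  have h1 : p ∈ idl (mv σ '' V) ↔ MvPolynomial.map (σ.symm : Ω →+* Ω) p ∈ idl V := by
    unfold idl
    rw [mem_vanishingIdeal_iff, mem_vanishingIdeal_iff]
    constructor
    · rintro h _ ⟨x, hx, rfl⟩
      have h2 := h (crd (mv σ x)) ⟨mv σ x, ⟨x, hx, rfl⟩, rfl⟩
      rw [← map_symm σ p, cnj_eval] at h2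
      exact (map_eq_zero_iff σ σ.injective).1 h2
    · rintro h _ ⟨_, ⟨x, hx, rfl⟩, rfl⟩
      rw [← map_symm σ p, cnj_eval, h (crd x) ⟨x, hx, rfl⟩, map_zero]
  rw [h1, hG, Ideal.mem_span_singleton, Ideal.mem_span_singleton]
  constructor
  · rintro ⟨h, hh⟩
    refine ⟨MvPolynomial.map (σ : Ω →+* Ω) h, ?_⟩
    rw [← map_mul, ← hh, map_symm]
  · rintro ⟨h, rfl⟩
    refine ⟨MvPolynomial.map (σ.symm : Ω →+* Ω) h, ?_⟩
    rw [map_mul, symm_map]

theorem deg_cnj (σ : Ω ≃ₐ[K] Ω) (G : MvPolynomial (Fin n) Ω) (l : Fin n) :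
    (MvPolynomial.map (σ : Ω →+* Ω) G).degreeOf l = G.degreeOf l := by
  rw [degreeOf_eq_sup, degreeOf_eq_sup, support_map_of_injective G σ.injective]

theorem closed_mv (L : IntermediateField K Ω) (Z : Set (Tor Ω n)) (hZ : ClosedOver L Z)
    (σ : Ω ≃ₐ[K] Ω) (hσ : ∀ z ∈ L, σ z = z) : mv σ '' Z ⊆ Z := by
  obtain ⟨J, hJ⟩ := hZ
  have key : ∀ (x : Tor Ω n) (f : MvPolynomial (Fin n) L),
      aeval (crd (mv σ x)) f = σ (aeval (crd x) f) := by
    intro x f
    induction f using MvPolynomial.induction_on with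
    | C a =>
      rw [aeval_C, aeval_C]
      exact (hσ (a : Ω) a.2).symm
    | add p q hp hq => rw [map_add, hp, hq, map_add, map_add]
    | mul_X p i hp =>
      rw [map_mul, hp, aeval_X, map_mul, map_mul, aeval_X]
      rfl
  rintro _ ⟨x, hx, rfl⟩
  rw [hJ] at hx ⊢
  intro f hf
  rw [key, hx f hf, map_zero]

end Pool.Agent.H11.TH
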