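import Pool.Agent.H72.PB.OrbA
import Pool.Agent.H72.PB.HTwist

/-!
# Definitions (MP_187c26_nt, Lehmer inequality for sparse hypersurfaces of tori, modules H11 TH)

`Tor Ω n` is the group of points of `G_m^n` over `Ω` (an algebraic closure of the number field `K`);
`ch e x = ∏ x_l^(e_l)` the value of a character, `mon m x` the value of a monomial, `ht` the height,
`idl V` the ideal of the polynomials vanishing on `V`, `secs Z m` the space of the restrictions to
`Z` of the polynomials of degree at most `m` in each variable. `dg N₀ y` (file `H72/PB/Defs.lean`) is the number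
of conjugates of `y` over `N₀`; `sgm σ` is `σ` on units, `mv σ` is `σ` on points, `term m g` the polynomial
`g x^m`.
-/

set_option autoImplicit false
set_option linter.unusedSectionVars false

open NumberField MvPolynomial

namespace Pool.Agent.H11.TH

/-- points of the torus `G_m^n` -/
abbrev Tor (Ω : Type) [Field Ω] (n : ℕ) : Type := Fin n → Ωˣ

section

variable {Ω : Type} [Field Ω] {n : ℕ}

/-- the coordinate vector -/
def crd (x : Tor Ω n) : Fin n → Ω := fun l => (x l : Ω)

/-- the value of the character with exponents `e` -/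
def ch (e : Fin n → ℤ) (x : Tor Ω n) : Ωˣ := ∏ l, x l ^ e l

/-- the value of the monomial with exponents `m` -/
def mon (m : Fin n → ℕ) (x : Tor Ω n) : Ωˣ := ∏ l, x l ^ m l

/-- the height `∑ h(x_l)` -/
noncomputable def ht [CharZero Ω] (x : Tor Ω n) : ℝ := ∑ l, absLogHeight₁ (crd x l)

/-- the ideal of the polynomials vanishing on `V` -/
noncomputable def idl (V : Set (Tor Ω n)) : Ideal (MvPolynomial (Fin n) Ω) :=
  vanishingIdeal Ω (crd '' V)

/-- restrictions to `Z` of the polynomials of degree at most `m` in each variable -/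
noncomputable def secs (Z : Set (Tor Ω n)) (m : ℕ) : Submodule Ω (Z → Ω) :=
  (restrictDegree (Fin n) Ω m).map
    (LinearMap.pi fun z : Z => (aeval (crd (z : Tor Ω n))).toLinearMap)

/-- the polynomial `g x^m` -/
noncomputable def term (m : Fin n → ℕ) (g : Ω) : MvPolynomial (Fin n) Ω :=
  monomial (Finsupp.equivFunOnFinite.symm m) g

/-- the polynomial `∑ g_j x^(m_j)` -/
noncomputable def pol {I : Type} [Fintype I] (m : I → Fin n → ℕ) (g : I → Ωˣ) :
    MvPolynomial (Fin n) Ω := ∑ j, term (m j) (g j : Ω)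

end

section

variable {K Ω : Type} [Field K] [Field Ω] [Algebra K Ω] {n : ℕ}

/-- an automorphism on units -/
def sgm (σ : Ω ≃ₐ[K] Ω) : Ωˣ →* Ωˣ := Units.map ((σ : Ω →+* Ω) : Ω →* Ω)

/-- an automorphism on points -/
def mv (σ : Ω ≃ₐ[K] Ω) (x : Tor Ω n) : Tor Ω n := fun l => sgm σ (x l)

theorem sgm_val (σ : Ω ≃ₐ[K] Ω) (x : Ωˣ) : ((sgm σ x : Ωˣ) : Ω) = σ (x : Ω) := rfl

theorem ch_mv (σ : Ω ≃ₐ[K] Ω) (e : Fin n → ℤ) (x : Tor Ω n) : ch e (mv σ x) = sgm σ (ch e x) := by
  unfold ch mv
  rw [map_prod]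
  exact Finset.prod_congr rfl fun l _ => (map_zpow _ _ _).symm

theorem mon_mv (σ : Ω ≃ₐ[K] Ω) (m : Fin n → ℕ) (x : Tor Ω n) :
    mon m (mv σ x) = sgm σ (mon m x) := by
  unfold mon mv
  rw [map_prod]
  exact Finset.prod_congr rfl fun l _ => (map_pow _ _ _).symm

/-- the numbers having a power `x^N`, `N` composed of primes of `S`, which is an element of `Λ` times a
root of unity -/
def SRad (Λ : Subgroup Ωˣ) (S : Finset ℕ) : Set Ωˣ :=
  {x | ∃ N : ℕ, 1 ≤ N ∧ (∀ q : ℕ, q.Prime → q ∣ N → q ∈ S) ∧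
    ∃ t : Ωˣ, (∃ k : ℕ, 1 ≤ k ∧ t ^ k = 1) ∧ x ^ N * t ∈ Λ}

/-- the field generated over `K` by a set of units -/
noncomputable def fld (K : Type) [Field K] [Algebra K Ω] (T : Set Ωˣ) : IntermediateField K Ω :=
  IntermediateField.adjoin K {y | ∃ x ∈ T, y = (x : Ω)}

/-- `K(μ_∞, all S-radicals of Λ)` -/
noncomputable def N₀ (K : Type) [Field K] [Algebra K Ω] (Λ : Subgroup Ωˣ) (S : Finset ℕ) :
    IntermediateField K Ω := fld K (SRad Λ S)

/-- `Z` is the set of zeros in the torus of an ideal of polynomials with coefficients in `L` -/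
def ClosedOver (L : IntermediateField K Ω) (Z : Set (Tor Ω n)) : Prop :=
  ∃ J : Ideal (MvPolynomial (Fin n) L), Z = {x | crd x ∈ zeroLocus Ω J}

end

end Pool.Agent.H11.TH
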