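import Mathlib

/-!
# Module NoeB: independent coordinates modulo a prime ideal (Mathlib only)

`R = MvPolynomial (Fin n) k`, `A = R ⧸ P`, a domain. Step 1: Noether normalization
(`exists_integral_inj_algHom_of_quotient` or `exists_integral_inj_algHom_of_fg`, file
`Mathlib/RingTheory/NoetherNormalization.lean`): an injective integral `g : MvPolynomial (Fin s) k →ₐ[k] A`. Primes
of `A` pull back strictly monotonically (`Ideal.comap_lt_comap_of_integral_mem_sdiff`, `Ideal.IsIntegral.comap_lt_comap`, file
`Mathlib/RingTheory/Ideal/GoingUp.lean`), so `ringKrullDim A ≤ ringKrullDim (MvPolynomial (Fin s) k) = s`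
(`Order.krullDim_le_of_strictMono` with `PrimeSpectrum.comap`), hence `d ≤ s`.
Step 2: `X_j ↦ g X_j` is a transcendence basis of `A / k` (algebraically independent as `g` is injective, `A` is
algebraic over the image), so every transcendence basis has `s` elements (`IsTranscendenceBasis.cardinalMk_eq`).
Step 3: the classes of the coordinates generate `A`, so some subset of them is a transcendence basis
(`exists_isTranscendenceBasis_subset`, or a maximal independent subset `I` of `Fin n`: `Finset` of maximal
cardinality such that no nonzero polynomial in the variables `I` is in `P`). So `I.card = s ≥ d` for this `I`.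
Alternatively: let `I` be a finset of maximal cardinality with property `h1` below (`∅` has it, `P ≠ ⊤`); all other
coordinates are algebraic over `k(x_I)` modulo `P`, so the `x_i`, `i ∈ I`, are a transcendence basis, `I.card = s`.
`I ≠ univ` because `P ≠ ⊥`; take any `i ∉ I`: by maximality there is a nonzero `p ∈ P` in the variables
`insert i I`.
-/

set_option autoImplicit false

open MvPolynomial

namespace Pool.Agent.H11.TH

private theorem ic_trdeg {k D R : Type} [Field k] [CommRing D] [IsDomain D] [CommRing R]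
    [IsDomain R] [Algebra k D] [Algebra k R] (j : D →ₐ[k] R) (hj : Function.Injective j)
    (hint : j.toRingHom.IsIntegral) : Algebra.trdeg k D = Algebra.trdeg k R := by
  let _ : Algebra D R := j.toRingHom.toAlgebra
  have htow : IsScalarTower k D R := IsScalarTower.of_algebraMap_eq fun c => (j.commutes c).symm
  have hfs : FaithfulSMul D R := (faithfulSMul_iff_algebraMap_injective _ _).2 hj
  have halg : Algebra.IsAlgebraic D R := ⟨fun z => IsIntegral.isAlgebraic (hint z)⟩
  have h1 := trdeg_add_eq k D (A := R)
  rwa [trdeg_eq_zero (R := D) (A := R), add_zero] at h1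

private theorem ic_dim {k A : Type} [Field k] [CommRing A] [Algebra k A] {s : ℕ}
    (g : MvPolynomial (Fin s) k →ₐ[k] A) (hgi : g.toRingHom.IsIntegral) :
    ringKrullDim A ≤ s := by
  let _ : Algebra (MvPolynomial (Fin s) k) A := g.toRingHom.toAlgebra
  have h5 : Algebra.IsIntegral (MvPolynomial (Fin s) k) A := ⟨fun x => hgi x⟩
  have h1 : ringKrullDim A ≤ ringKrullDim (MvPolynomial (Fin s) k) := by
    refine Order.krullDim_le_of_strictMono
      (PrimeSpectrum.comap (algebraMap (MvPolynomial (Fin s) k) A)) ?_
    intro I J hIJ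
    exact Ideal.IsIntegral.comap_lt_comap hIJ
  rw [MvPolynomial.ringKrullDim_of_isNoetherianRing, ringKrullDim_eq_zero_of_field, Nat.card_fin,
    zero_add] at h1
  exact h1

/-- the value at the classes of the coordinates `j ∈ J` -/
private theorem ic_aeval {k : Type} [Field k] {n : ℕ} (P : Ideal (MvPolynomial (Fin n) k))
    (J : Finset (Fin n)) (q : MvPolynomial J k) :
    aeval (fun j : J => Ideal.Quotient.mk P (X (j : Fin n))) q =
      Ideal.Quotient.mk P (rename (fun j : J => (j : Fin n)) q) := by
  have h2 : (aeval (fun j : J => Ideal.Quotient.mk P (X (j : Fin n)))) =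
      (Ideal.Quotient.mkₐ k P).comp
        (rename (fun j : J => (j : Fin n)) : MvPolynomial J k →ₐ[k] _) := by
    apply MvPolynomial.algHom_ext
    intro j
    rw [aeval_X, AlgHom.comp_apply, rename_X]
    rfl
  rw [h2]
  rfl

private theorem ic_indep {k : Type} [Field k] {n : ℕ} (P : Ideal (MvPolynomial (Fin n) k))
    (J : Finset (Fin n)) :
    AlgebraicIndependent k (fun j : J => Ideal.Quotient.mk P (X (j : Fin n))) ↔
      ∀ p ∈ P, p.vars ⊆ J → p = 0 := by
  classical
  rw [algebraicIndependent_iff]
  constructor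
  · intro h p hp hv
    obtain ⟨q, rfl⟩ := exists_rename_eq_of_vars_subset_range p (fun j : J => (j : Fin n))
      Subtype.val_injective (by
        intro i hi
        exact ⟨⟨i, hv hi⟩, rfl⟩)
    have h1 : q = 0 := by
      apply h
      rw [ic_aeval, Ideal.Quotient.eq_zero_iff_mem]
      exact hp
    rw [h1, map_zero]
  · intro h q hq
    rw [ic_aeval, Ideal.Quotient.eq_zero_iff_mem] at hq
    have h1 : (rename (fun j : J => (j : Fin n)) q).vars ⊆ J := by
      refine (vars_rename _ _).trans ?_
      intro i hi
      obtain ⟨j, -, rfl⟩ := Finset.mem_image.1 hi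
      exact j.2
    have h2 := h _ hq h1
    exact rename_injective _ Subtype.val_injective (h2.trans (map_zero _).symm)

theorem indep_coords {k : Type} [Field k] {n : ℕ} (P : Ideal (MvPolynomial (Fin n) k))
    (hP : P.IsPrime) (hP0 : P ≠ ⊥) (d : ℕ)
    (hd : ringKrullDim (MvPolynomial (Fin n) k ⧸ P) = d) :
    ∃ (I : Finset (Fin n)) (i : Fin n), i ∉ I ∧ d ≤ I.card ∧
      (∀ p ∈ P, p.vars ⊆ I → p = 0) ∧ ∃ p ∈ P, p ≠ 0 ∧ p.vars ⊆ insert i I := by
  classical
  have hdom : IsDomain (MvPolynomial (Fin n) k ⧸ P) := Ideal.Quotient.isDomain P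
  obtain ⟨s, -, g, hginj, hgint⟩ := exists_integral_inj_algHom_of_quotient P hP.ne_top
  have hds : d ≤ s := by
    have h1 := ic_dim g hgint
    rw [hd] at h1
    exact_mod_cast h1
  have htr : Algebra.trdeg k (MvPolynomial (Fin n) k ⧸ P) = (s : Cardinal) := by
    rw [← ic_trdeg g hginj hgint, MvPolynomial.trdeg_of_isDomain]
    simp
  -- a transcendence basis among the coordinates
  obtain ⟨x, hx⟩ : ∃ x : Fin n → MvPolynomial (Fin n) k ⧸ P,
      x = fun i => Ideal.Quotient.mk P (X i) := ⟨_, rfl⟩
  have hadj : Algebra.adjoin k (Set.range x) = ⊤ := by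
    have h1 : Set.range x = (Ideal.Quotient.mkₐ k P) '' (Set.range (X : Fin n → MvPolynomial (Fin n) k)) := by
      rw [← Set.range_comp, hx]
      rfl
    rw [h1, ← AlgHom.map_adjoin, MvPolynomial.adjoin_range_X, Algebra.map_top,
      AlgHom.range_eq_top]
    exact Ideal.Quotient.mkₐ_surjective k P
  have halg : Algebra.IsAlgebraic (Algebra.adjoin k (Set.range x)) (MvPolynomial (Fin n) k ⧸ P) := by
    constructor
    intro z
    have hz : z ∈ Algebra.adjoin k (Set.range x) := by
      rw [hadj]
      exact Algebra.mem_top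
    exact isAlgebraic_algebraMap (⟨z, hz⟩ : Algebra.adjoin k (Set.range x))
  have hfs : FaithfulSMul k (MvPolynomial (Fin n) k ⧸ P) := inferInstance
  obtain ⟨t, hts, ht⟩ := exists_isTranscendenceBasis_subset (R := k) (Set.range x)
  have hsurj : Set.SurjOn x Set.univ t := by
    intro y hy
    obtain ⟨i, rfl⟩ := hts hy
    exact ⟨i, Set.mem_univ _, rfl⟩
  obtain ⟨I', -, hbij⟩ := hsurj.exists_bijOn_subset
  obtain ⟨I, hI⟩ : ∃ I : Finset (Fin n), (I : Set (Fin n)) = I' :=
    ⟨I'.toFinite.toFinset, Set.Finite.coe_toFinset _⟩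
  subst hI
  have hind : AlgebraicIndependent k (fun j : I => Ideal.Quotient.mk P (X (j : Fin n))) := by
    have h1 := ht.1.comp (hbij.equiv x) (hbij.equiv x).injective
    have h2 : ((fun y : t => (y : MvPolynomial (Fin n) k ⧸ P)) ∘ (hbij.equiv x)) =
        fun j : I => Ideal.Quotient.mk P (X (j : Fin n)) := by
      funext j
      have h3 : (((hbij.equiv x) j : t) : MvPolynomial (Fin n) k ⧸ P) = x j := rfl
      rw [Function.comp_apply, h3, hx]
    rw [← h2]
    exact h1
  have hcard : I.card = s := by
    have h1 := ht.cardinalMk_eq_trdeg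
    rw [htr, ← Cardinal.mk_congr (hbij.equiv x)] at h1
    have h2 : Cardinal.mk (I : Set (Fin n)) = (I.card : Cardinal) := Cardinal.mk_coe_finset
    rw [h2] at h1
    exact_mod_cast h1
  have hIP := (ic_indep P I).1 hind
  obtain ⟨i, hi⟩ : ∃ i, i ∉ I := by
    by_contra hcon
    push Not at hcon
    obtain ⟨p, hp, hp0⟩ := Submodule.exists_mem_ne_zero_of_ne_bot hP0
    exact hp0 (hIP p hp fun i _ => hcon i)
  refine ⟨I, i, hi, by omega, hIP, ?_⟩
  by_contra hcon
  push Not at hcon
  have h1 : ∀ p ∈ P, p.vars ⊆ (insert i I : Finset (Fin n)) → p = 0 := by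
    intro p hp hv
    by_contra h0
    exact hcon p hp h0 hv
  have h2 := ((ic_indep P (insert i I)).2 h1).cardinalMk_le_trdeg
  rw [htr] at h2
  have h3 : Cardinal.mk (insert i I : Finset (Fin n)) = ((insert i I : Finset (Fin n)).card : Cardinal) :=
    Cardinal.mk_coe_finset
  rw [h3, Finset.card_insert_of_notMem hi, hcard] at h2
  have h4 : s + 1 ≤ s := by exact_mod_cast h2
  omega

end Pool.Agent.H11.TH
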