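import Mathlib

/-!
# Module PrB: the relation between `d + 1` coordinates (Mathlib only)

`A₀ = MvPolynomial {l // l ∈ I} k` (a unique factorization domain), `φ : A₀[X] → R = MvPolynomial (Fin n) k`, `X ↦ X i`,
`C q ↦ rename Subtype.val q`: injective, its image is the set of the `p` with `p.vars ⊆ insert i I`
(`exists_rename_eq_of_vars_subset_range` and `optionEquivLeft`, or `MvPolynomial.finSuccEquiv`-like equivalences for
the type `{l // l ∈ insert i I}`). `𝔮 = comap φ P` is a prime ideal, `𝔮 ≠ 0` (`h2`), `𝔮 ∩ A₀ = 0` (`h1`).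
Take `0 ≠ q ∈ 𝔮`; some irreducible factor `F'` of `q` is in `𝔮` (`WfDvdMonoid`, prime ideal); its degree in `X` is
positive (otherwise `F' ∈ 𝔮 ∩ A₀`), so it is primitive (irreducible of positive degree:
`Irreducible.isPrimitive`) and irreducible over the fraction field `K₀`
(`Polynomial.IsPrimitive.irreducible_iff_irreducible_map_fraction_map`). Let `p ∈ 𝔮`. If `F'` does not divide `p`
over `K₀`, then `u F' + v p = 1` over `K₀`; clearing denominators gives `0 ≠ c ∈ A₀ ∩ 𝔮`, a contradiction. So `F'`
divides `p` over `K₀`, and by Gauss over `A₀` (`Polynomial.IsPrimitive.dvd_of_fraction_map_dvd_fraction_map` applied to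
`p.primPart`, or: `c p = F' w` with `0 ≠ c ∈ A₀`, and `F'` is prime (`A₀[X]` is a UFD) and does not divide `c`
(degree), so `F' ∣ p`... precisely: `F' ∣ c p`, `F'` prime, `F' ∤ c` by degree, so `F' ∣ p`: no Gauss lemma
for divisibility is needed). `F = φ F'`.
-/

set_option autoImplicit false

open MvPolynomial

namespace Pool.Agent.H11.TH

private theorem exists_prime_factor {B : Type} [CommRing B] [IsDomain B]
    [UniqueFactorizationMonoid B] (q : Ideal B) (hq : q.IsPrime) (p : B) :
    p ∈ q → p ≠ 0 → ∃ f ∈ q, Prime f ∧ f ∣ p := by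
  refine UniqueFactorizationMonoid.induction_on_prime p ?_ ?_ ?_
  · intro _ h
    exact absurd rfl h
  · intro x hx hxq _
    exact absurd (Ideal.eq_top_of_isUnit_mem q hxq hx) hq.ne_top
  · intro a f ha hf ih h _
    rcases hq.mem_or_mem h with h1 | h1
    · exact ⟨f, h1, hf, dvd_mul_right _ _⟩
    · obtain ⟨g, hg, hgp, hga⟩ := ih h1 ha
      exact ⟨g, hg, hgp, hga.mul_left _⟩

private theorem dvd_all {A : Type} [CommRing A] [IsDomain A] [UniqueFactorizationMonoid A]
    (q : Ideal (Polynomial A)) (hq : q.IsPrime) (h0 : ∀ c : A, Polynomial.C c ∈ q → c = 0)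
    (h1 : q ≠ ⊥) : ∃ f ∈ q, f ≠ 0 ∧ ∀ p ∈ q, f ∣ p := by
  classical
  have hex : ∃ d, ∃ g ∈ q, g ≠ 0 ∧ g.natDegree = d := by
    obtain ⟨g, hg, hg0⟩ := Submodule.exists_mem_ne_zero_of_ne_bot h1
    exact ⟨_, g, hg, hg0, rfl⟩
  obtain ⟨g, hg, hg0, hgd⟩ := Nat.find_spec hex
  obtain ⟨f, hf, hfp, hfg⟩ := exists_prime_factor q hq g hg hg0
  have hmin : ∀ p ∈ q, p ≠ 0 → f.natDegree ≤ p.natDegree := by
    intro p hp hp0
    have h2 := Nat.find_min' hex ⟨p, hp, hp0, rfl⟩
    exact ((Polynomial.natDegree_le_of_dvd hfg hg0).trans hgd.le).trans h2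
  have hfd : 0 < f.natDegree := by
    refine Nat.pos_of_ne_zero fun h => ?_
    rw [Polynomial.natDegree_eq_zero] at h
    obtain ⟨c, hc⟩ := h
    have h2 : c = 0 := h0 c (by rw [hc]; exact hf)
    rw [h2, map_zero] at hc
    exact hfp.ne_zero hc.symm
  have hlf : f.leadingCoeff ≠ 0 := Polynomial.leadingCoeff_ne_zero.2 hfp.ne_zero
  have key : ∀ d, ∀ p ∈ q, p.natDegree < d → ∃ c : A, c ≠ 0 ∧ f ∣ Polynomial.C c * p := by
    intro d
    induction d with
    | zero =>
      intro p _ h
      exact absurd h (Nat.not_lt_zero _)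
    | succ d ih =>
      intro p hp hd
      by_cases hp0 : p = 0
      · exact ⟨1, one_ne_zero, by rw [hp0, mul_zero]; exact dvd_zero _⟩
      have hle := hmin p hp hp0
      have hlp : p.leadingCoeff ≠ 0 := Polynomial.leadingCoeff_ne_zero.2 hp0
      have hm : Polynomial.C f.leadingCoeff * p -
          Polynomial.C p.leadingCoeff * Polynomial.X ^ (p.natDegree - f.natDegree) * f ∈ q :=
        Ideal.sub_mem _ (Ideal.mul_mem_left _ _ hp) (Ideal.mul_mem_left _ _ hf)
      have hdiv : ∀ c : A, f ∣ Polynomial.C c * (Polynomial.C f.leadingCoeff * p -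
          Polynomial.C p.leadingCoeff * Polynomial.X ^ (p.natDegree - f.natDegree) * f) →
          f ∣ Polynomial.C (c * f.leadingCoeff) * p := by
        intro c hc
        have h2 : Polynomial.C (c * f.leadingCoeff) * p =
            Polynomial.C c * (Polynomial.C f.leadingCoeff * p -
              Polynomial.C p.leadingCoeff * Polynomial.X ^ (p.natDegree - f.natDegree) * f) +
            f * (Polynomial.C c * (Polynomial.C p.leadingCoeff *
              Polynomial.X ^ (p.natDegree - f.natDegree))) := by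
          rw [map_mul]
          ring
        rw [h2]
        exact dvd_add hc (dvd_mul_right _ _)
      have h3 : (Polynomial.C f.leadingCoeff * p).degree = (Polynomial.C p.leadingCoeff *
          Polynomial.X ^ (p.natDegree - f.natDegree) * f).degree := by
        rw [Polynomial.degree_C_mul hlf, Polynomial.degree_mul, Polynomial.degree_C_mul_X_pow _ hlp,
          Polynomial.degree_eq_natDegree hp0, Polynomial.degree_eq_natDegree hfp.ne_zero]
        norm_cast
        omega
      have h4 : (Polynomial.C f.leadingCoeff * p).leadingCoeff = (Polynomial.C p.leadingCoeff *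
          Polynomial.X ^ (p.natDegree - f.natDegree) * f).leadingCoeff := by
        rw [Polynomial.leadingCoeff_mul, Polynomial.leadingCoeff_mul, Polynomial.leadingCoeff_mul,
          Polynomial.leadingCoeff_C, Polynomial.leadingCoeff_C, Polynomial.leadingCoeff_X_pow,
          mul_one, mul_comm]
      have h5 : Polynomial.C f.leadingCoeff * p ≠ 0 :=
        mul_ne_zero (Polynomial.C_ne_zero.2 hlf) hp0
      have h6 := Polynomial.degree_sub_lt_left h3 h5 h4
      rw [Polynomial.degree_C_mul hlf] at h6
      by_cases hp'0 : Polynomial.C f.leadingCoeff * p -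
          Polynomial.C p.leadingCoeff * Polynomial.X ^ (p.natDegree - f.natDegree) * f = 0
      · refine ⟨1 * f.leadingCoeff, mul_ne_zero one_ne_zero hlf, hdiv 1 ?_⟩
        rw [hp'0, mul_zero]
        exact dvd_zero _
      · have h7 := Polynomial.natDegree_lt_natDegree hp'0 h6
        obtain ⟨c, hc, hcd⟩ := ih _ hm (by omega)
        exact ⟨c * f.leadingCoeff, mul_ne_zero hc hlf, hdiv c hcd⟩
  refine ⟨f, hf, hfp.ne_zero, fun p hp => ?_⟩
  obtain ⟨c, hc, hcd⟩ := key _ p hp (Nat.lt_succ_self _)
  rcases hfp.dvd_or_dvd hcd with h | h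
  · have h2 := Polynomial.natDegree_le_of_dvd h (Polynomial.C_ne_zero.2 hc)
    rw [Polynomial.natDegree_C] at h2
    omega
  · exact h

theorem relation_principal {k : Type} [Field k] {n : ℕ} (P : Ideal (MvPolynomial (Fin n) k))
    (hP : P.IsPrime) (I : Finset (Fin n)) (i : Fin n) (hi : i ∉ I)
    (h1 : ∀ p ∈ P, p.vars ⊆ I → p = 0) (h2 : ∃ p ∈ P, p ≠ 0 ∧ p.vars ⊆ insert i I) :
    ∃ F ∈ P, F ≠ 0 ∧ F.vars ⊆ insert i I ∧ ∀ p ∈ P, p.vars ⊆ insert i I → F ∣ p := by
  classical
  let g : Option {l // l ∈ I} → Fin n := fun o => o.elim i Subtype.val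
  have hg : Function.Injective g := by
    intro a b hab
    cases a with
    | none =>
      cases b with
      | none => rfl
      | some b =>
        have h3 : i = b.1 := hab
        exact absurd (h3 ▸ b.2) hi
    | some a =>
      cases b with
      | none =>
        have h3 : a.1 = i := hab
        exact absurd (h3 ▸ a.2) hi
      | some b => exact congrArg some (Subtype.ext hab)
  have hgr : ∀ o, g o ∈ insert i I := by
    intro o
    cases o with
    | none => exact Finset.mem_insert_self _ _
    | some a => exact Finset.mem_insert_of_mem a.2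
  have hrange : Set.range g = ((insert i I : Finset (Fin n)) : Set (Fin n)) := by
    ext l
    rw [Finset.mem_coe, Set.mem_range]
    constructor
    · rintro ⟨o, rfl⟩
      exact hgr o
    · intro hl
      rcases Finset.mem_insert.1 hl with h | h
      · exact ⟨none, h.symm⟩
      · exact ⟨some ⟨l, h⟩, rfl⟩
  let φ : Polynomial (MvPolynomial {l // l ∈ I} k) →ₐ[k] MvPolynomial (Fin n) k :=
    (rename g).comp (optionEquivLeft k {l // l ∈ I}).symm.toAlgHom
  have hφ : ∀ q, φ q = rename g ((optionEquivLeft k {l // l ∈ I}).symm q) := fun q => rfl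
  have hinj : Function.Injective φ := by
    intro a b hab
    rw [hφ, hφ] at hab
    exact (optionEquivLeft k {l // l ∈ I}).symm.injective (rename_injective g hg hab)
  have hC : ∀ c : MvPolynomial {l // l ∈ I} k, φ (Polynomial.C c) = rename Subtype.val c := by
    intro c
    have h3 : φ.comp (IsScalarTower.toAlgHom k (MvPolynomial {l // l ∈ I} k)
        (Polynomial (MvPolynomial {l // l ∈ I} k))) = rename Subtype.val := by
      refine MvPolynomial.algHom_ext fun l => ?_
      show rename g ((optionEquivLeft k {l // l ∈ I}).symm (Polynomial.C (X l))) = _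
      rw [optionEquivLeft_symm_C_X, rename_X, rename_X]
      rfl
    exact congrArg (fun f => f c) h3
  have hvars : ∀ q, (φ q).vars ⊆ insert i I := by
    intro q
    rw [hφ]
    refine (vars_rename g _).trans fun l hl => ?_
    obtain ⟨o, _, rfl⟩ := Finset.mem_image.1 hl
    exact hgr o
  have hlift : ∀ p : MvPolynomial (Fin n) k, p.vars ⊆ insert i I → ∃ q, φ q = p := by
    intro p hp
    obtain ⟨q, hq⟩ := exists_rename_eq_of_vars_subset_range p g hg (by
      rw [hrange]
      exact_mod_cast hp)
    refine ⟨optionEquivLeft k {l // l ∈ I} q, ?_⟩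
    rw [hφ, AlgEquiv.symm_apply_apply, hq]
  obtain ⟨f, hf, hf0, hfd⟩ := dvd_all (P.comap φ) (Ideal.comap_isPrime _ _) (fun c hc => by
    rw [Ideal.mem_comap, hC] at hc
    have h3 : rename Subtype.val c = (0 : MvPolynomial (Fin n) k) := by
      refine h1 _ hc ((vars_rename _ _).trans fun l hl => ?_)
      obtain ⟨o, _, rfl⟩ := Finset.mem_image.1 hl
      exact o.2
    exact rename_injective _ Subtype.val_injective (h3.trans (map_zero _).symm)) (by
    intro hbot
    obtain ⟨p, hp, hp0, hpv⟩ := h2
    obtain ⟨q, rfl⟩ := hlift p hpv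
    have h3 : q ∈ P.comap φ := hp
    rw [hbot, Ideal.mem_bot] at h3
    rw [h3, map_zero] at hp0
    exact hp0 rfl)
  refine ⟨φ f, hf, fun h => hf0 (hinj (h.trans (map_zero φ).symm)), hvars f, fun p hp hpv => ?_⟩
  obtain ⟨q, rfl⟩ := hlift p hpv
  exact map_dvd φ (hfd q hp)

end Pool.Agent.H11.TH
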