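import Pool.Agent.H11.TH.DegDefs
import Pool.Agent.H11.TH.Sec
import Pool.Agent.H11.TH.NoeB
import Pool.Agent.H11.TH.PrB

/-!
# Module CmpB: a hypersurface of small degree containing `Z`

`R = MvPolynomial (Fin n) Ω` is noetherian: the set `𝒫` of the minimal primes of `idl Z` is finite
(`Ideal.finite_minimalPrimes_of_isNoetherianRing`), `idl Z` is radical (`f^m` vanishes on `Z` implies `f` does), so it is
the intersection of `𝒫` (`Ideal.sInf_minimalPrimes`). All `P ∈ 𝒫` are prime, `≠ ⊥` (`idl Z ≤ P`, `hbot`) and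
`ringKrullDim (R ⧸ P) = d`. For `P ∈ 𝒫` let `I_P, i_P` be given by `indep_coords` and `F_P` by `relation_principal`,
`J_P = insert i_P I_P`, `#J_P ≥ d + 1`; `D_P` = the maximum over `l` of `degreeOf l F_P`, attained at `l_P`; `D_P ≥ 1` (a
nonzero constant is not in `P`), `l_P ∈ J_P`. `G = ∏ F_P ∈ idl Z`, `G ≠ 0`, `degreeOf l G ≤ ∑ D_P =: D`
(`degreeOf_prod_le`).
Choose `f_P ∈ P'` for all `P' ∈ 𝒫`, `P' ≠ P`, `f_P ∉ P` (minimal primes are incomparable: the product over `P' ≠ P` of
elements of `P' \\ P`; `P` prime). Let `c` be at least all the degrees of all `f_P` in all variables plus all `D_P`,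
`M = m - c`. The polynomials `f_P x^b`, `P ∈ 𝒫`, `b` supported on `J_P`, `b l_P < D_P`, `b l ≤ M` for the other `l ∈ J_P`:
`D_P (M+1)^(#J_P - 1) ≥ D_P (M+1)^d` for each `P`, of degree `≤ m` in every variable. Linear independence on `Z`: if
`∑ a_(P,b) f_P x^b ∈ idl Z`, fix `P`; the terms with `P' ≠ P` are in `P`, so `f_P p ∈ P`, `p = ∑_b a_(P,b) x^b`, so `p ∈ P`,
`p.vars ⊆ J_P`, `F_P ∣ p`, and `degreeOf l_P p < D_P = degreeOf l_P F_P`, so `p = 0`. So
`D (M+1)^d ≤ finrank (secs Z m)` (`secs_finite` and `LinearIndependent.fintype_card_le_finrank`; see module `Sec` for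
the same argument).
-/

set_option autoImplicit false
set_option linter.unusedSectionVars false

open MvPolynomial

namespace Pool.Agent.H11.TH

/-- the relation of one component -/
private theorem one_component {Ω : Type} [Field Ω] {n : ℕ} (P : Ideal (MvPolynomial (Fin n) Ω))
    (hP : P.IsPrime) (hP0 : P ≠ ⊥) (d : ℕ)
    (hd : ringKrullDim (MvPolynomial (Fin n) Ω ⧸ P) = d) :
    ∃ (J : Finset (Fin n)) (F : MvPolynomial (Fin n) Ω) (l : Fin n),
      d + 1 ≤ J.card ∧ F ∈ P ∧ F ≠ 0 ∧ l ∈ J ∧ 1 ≤ F.degreeOf l ∧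
      (∀ l', F.degreeOf l' ≤ F.degreeOf l) ∧ ∀ p ∈ P, p.vars ⊆ J → F ∣ p := by
  classical
  obtain ⟨I, i, hi, hI, h1, h2⟩ := indep_coords P hP hP0 d hd
  obtain ⟨F, hFP, hF0, hFv, hF⟩ := relation_principal P hP I i hi h1 h2
  obtain ⟨l, -, hl⟩ := Finset.exists_max_image (Finset.univ : Finset (Fin n))
    (fun l => F.degreeOf l) ⟨i, Finset.mem_univ i⟩
  have hl' : ∀ l', F.degreeOf l' ≤ F.degreeOf l := fun l' => hl l' (Finset.mem_univ l')
  have hpos : 1 ≤ F.degreeOf l := by
    by_contra hc
    have h0 : ∀ l', F.degreeOf l' = 0 := fun l' => by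
      have := hl' l'
      omega
    have hv : F.vars = ∅ := by
      rw [Finset.eq_empty_iff_forall_notMem]
      intro l' hl''
      rw [mem_vars_iff_degreeOf_ne_zero] at hl''
      exact hl'' (h0 l')
    obtain ⟨c, hc'⟩ : ∃ c, F = C c := ⟨_, (vars_eq_empty_iff_eq_C.mp hv)⟩
    have hc0 : c ≠ 0 := by
      rintro rfl
      apply hF0
      rw [hc', C_0]
    apply hP.ne_top
    rw [Ideal.eq_top_iff_one]
    have h3 : C c⁻¹ * F ∈ P := P.mul_mem_left _ hFP
    rwa [hc', ← C_mul, inv_mul_cancel₀ hc0, C_1] at h3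
  refine ⟨insert i I, F, l, ?_, hFP, hF0, ?_, hpos, hl', hF⟩
  · rw [Finset.card_insert_of_notMem hi]
    omega
  · apply hFv
    rw [mem_vars_iff_degreeOf_ne_zero]
    omega

/-- the boxes of exponents -/
private def box {n : ℕ} (J : Finset (Fin n)) (l : Fin n) (D M : ℕ) : Finset (Fin n → ℕ) :=
  Fintype.piFinset (fun l' : Fin n =>
    if l' = l then Finset.range D else if l' ∈ J then Finset.range (M + 1) else {0})

private theorem box_card {n : ℕ} (J : Finset (Fin n)) (l : Fin n) (D M : ℕ) (hl : l ∈ J) :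
    (box J l D M).card = D * (M + 1) ^ (J.card - 1) := by
  classical
  unfold box
  rw [Fintype.card_piFinset]
  rw [← Finset.mul_prod_erase Finset.univ _ (Finset.mem_univ l)]
  rw [if_pos rfl, Finset.card_range]
  congr 1
  have h1 : ∏ x ∈ Finset.univ.erase l, (if x = l then Finset.range D else
      if x ∈ J then Finset.range (M + 1) else {0}).card =
      ∏ x ∈ J.erase l, (M + 1) := by
    symm
    apply Finset.prod_subset_one_on_sdiff
    · intro x hx
      rw [Finset.mem_erase] at hx ⊢
      exact ⟨hx.1, Finset.mem_univ x⟩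
    · intro x hx
      rw [Finset.mem_sdiff, Finset.mem_erase, Finset.mem_erase] at hx
      rw [if_neg hx.1.1, if_neg (fun h => hx.2 ⟨hx.1.1, h⟩), Finset.card_singleton]
    · intro x hx
      rw [Finset.mem_erase] at hx
      rw [if_neg hx.1, if_pos hx.2, Finset.card_range]
  rw [h1, Finset.prod_const, Finset.card_erase_of_mem hl]

private theorem box_l {n : ℕ} {J : Finset (Fin n)} {l : Fin n} {D M : ℕ} {b : Fin n → ℕ}
    (hb : b ∈ box J l D M) : b l < D := by
  have := Fintype.mem_piFinset.mp hb l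
  rw [if_pos rfl] at this
  exact Finset.mem_range.mp this

private theorem box_le {n : ℕ} {J : Finset (Fin n)} {l : Fin n} {D M : ℕ} {b : Fin n → ℕ}
    (hb : b ∈ box J l D M) (l' : Fin n) : b l' ≤ M + D := by
  have := Fintype.mem_piFinset.mp hb l'
  split_ifs at this with h1 h2
  · have := Finset.mem_range.mp this
    omega
  · have := Finset.mem_range.mp this
    omega
  · have := Finset.mem_singleton.mp this
    omega

private theorem box_zero {n : ℕ} {J : Finset (Fin n)} {l : Fin n} {D M : ℕ} {b : Fin n → ℕ}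
    (hl : l ∈ J) (hb : b ∈ box J l D M) (l' : Fin n) (h : l' ∉ J) : b l' = 0 := by
  have := Fintype.mem_piFinset.mp hb l'
  have hne : l' ≠ l := by
    intro hc
    rw [hc] at h
    exact h hl
  rw [if_neg hne, if_neg h] at this
  exact Finset.mem_singleton.mp this

theorem components {Ω : Type} [Field Ω] {n : ℕ} (Z : Set (Tor Ω n)) (d : ℕ) (hd : Equidim Z d)
    (hbot : idl Z ≠ ⊥) :
    ∃ (G : MvPolynomial (Fin n) Ω) (D : ℕ), G ≠ 0 ∧ G ∈ idl Z ∧ 1 ≤ D ∧
      (∀ l, G.degreeOf l ≤ D) ∧ ∃ c : ℕ, ∀ m : ℕ, c ≤ m →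
        D * (m - c + 1) ^ d ≤ Module.finrank Ω (secs Z m) := by
  classical
  obtain ⟨hZ, hdim⟩ := hd
  have hfin : (idl Z).minimalPrimes.Finite := Ideal.finite_minimalPrimes_of_isNoetherianRing _ _
  have htop : idl Z ≠ ⊤ := by
    intro h
    obtain ⟨z, hz⟩ := hZ
    have h1 : (1 : MvPolynomial (Fin n) Ω) ∈ idl Z := h ▸ Submodule.mem_top
    unfold idl at h1
    rw [mem_vanishingIdeal_iff] at h1
    have := h1 _ ⟨z, hz, rfl⟩
    simp at this
  obtain ⟨P₀, hP₀⟩ := Ideal.nonempty_minimalPrimes htop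
  -- the index type
  let ι : Type := {P : Ideal (MvPolynomial (Fin n) Ω) // P ∈ hfin.toFinset}
  have hιm : ∀ P : ι, (P : Ideal (MvPolynomial (Fin n) Ω)) ∈ (idl Z).minimalPrimes :=
    fun P => hfin.mem_toFinset.mp P.2
  have hpr : ∀ P : ι, (P : Ideal (MvPolynomial (Fin n) Ω)).IsPrime :=
    fun P => (hιm P).1.1
  have hle : ∀ P : ι, idl Z ≤ (P : Ideal (MvPolynomial (Fin n) Ω)) :=
    fun P => (hιm P).1.2
  have hne : ∀ P : ι, (P : Ideal (MvPolynomial (Fin n) Ω)) ≠ ⊥ := by
    intro P h
    apply hbot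
    rw [eq_bot_iff, ← h]
    exact hle P
  have hex := fun P : ι => one_component (P : Ideal (MvPolynomial (Fin n) Ω)) (hpr P) (hne P) d
    (hdim _ (hιm P))
  choose J F l hJ hFP hF0 hlJ hF1 hFmax hFdvd using hex
  -- the separating polynomials
  have hsep : ∀ P : ι, ∃ f : MvPolynomial (Fin n) Ω, f ∉ (P : Ideal (MvPolynomial (Fin n) Ω)) ∧
      ∀ P' : ι, P' ≠ P → f ∈ (P' : Ideal (MvPolynomial (Fin n) Ω)) := by
    intro P
    by_contra hcon
    push Not at hcon
    have h1 : (Finset.univ.erase P).inf (fun P' : ι => (P' : Ideal (MvPolynomial (Fin n) Ω))) ≤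
        (P : Ideal (MvPolynomial (Fin n) Ω)) := by
      intro f hf
      by_contra hfP
      obtain ⟨P', hP', hf'⟩ := hcon f hfP
      apply hf'
      have h2 : (Finset.univ.erase P).inf
          (fun P' : ι => (P' : Ideal (MvPolynomial (Fin n) Ω))) ≤
          (P' : Ideal (MvPolynomial (Fin n) Ω)) :=
        Finset.inf_le (Finset.mem_erase.mpr ⟨hP', Finset.mem_univ P'⟩)
      exact h2 hf
    obtain ⟨P', hP', h3⟩ := (Ideal.IsPrime.inf_le' (hpr P)).mp h1
    have h4 : (P : Ideal (MvPolynomial (Fin n) Ω)) ≤ (P' : Ideal (MvPolynomial (Fin n) Ω)) :=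
      (hιm P).2 ⟨hpr P', hle P'⟩ h3
    exact (Finset.mem_erase.mp hP').1 (Subtype.ext (le_antisymm h3 h4))
  choose f hf1 hf2 using hsep
  set D : ℕ := ∑ P : ι, (F P).degreeOf (l P) with hDdef
  set E : ℕ := ∑ P : ι, ∑ l', (f P).degreeOf l' with hEdef
  have hDP : ∀ P : ι, (F P).degreeOf (l P) ≤ D := fun P =>
    Finset.single_le_sum (f := fun P : ι => (F P).degreeOf (l P)) (fun _ _ => Nat.zero_le _)
      (Finset.mem_univ P)
  have hEP : ∀ (P : ι) (l' : Fin n), (f P).degreeOf l' ≤ E := fun P l' =>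
    (Finset.single_le_sum (f := fun l' => (f P).degreeOf l') (fun _ _ => Nat.zero_le _)
      (Finset.mem_univ l')).trans
    (Finset.single_le_sum (f := fun P : ι => ∑ l', (f P).degreeOf l') (fun _ _ => Nat.zero_le _)
      (Finset.mem_univ P))
  refine ⟨∏ P : ι, F P, D, ?_, ?_, ?_, ?_, E + D, ?_⟩
  · exact Finset.prod_ne_zero_iff.mpr fun P _ => hF0 P
  · -- the product vanishes on Z
    have h1 : (∏ P : ι, F P) ∈ (idl Z).radical := by
      rw [← Ideal.sInf_minimalPrimes, Submodule.mem_sInf]
      intro P hP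
      have hP' : P ∈ hfin.toFinset := hfin.mem_toFinset.mpr hP
      exact Ideal.mem_of_dvd _ (Finset.dvd_prod_of_mem F (Finset.mem_univ (⟨P, hP'⟩ : ι)))
        (hFP ⟨P, hP'⟩)
    obtain ⟨k, hk⟩ := h1
    unfold idl at hk ⊢
    rw [mem_vanishingIdeal_iff] at hk ⊢
    intro x hx
    have h2 := hk x hx
    rw [map_pow] at h2
    exact eq_zero_of_pow_eq_zero h2
  · exact (hF1 ⟨P₀, hfin.mem_toFinset.mpr hP₀⟩).trans (hDP _)
  · intro l'
    refine (degreeOf_prod_le _ _ _).trans ?_
    exact Finset.sum_le_sum fun P _ => hFmax P l'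
  · intro m hm
    set M : ℕ := m - (E + D) with hM
    have hMm : M + (E + D) = m := Nat.sub_add_cancel hm
    let B : ι → Finset (Fin n → ℕ) := fun P => box (J P) (l P) ((F P).degreeOf (l P)) M
    let Q : (Σ P : ι, B P) → MvPolynomial (Fin n) Ω := fun Pb =>
      f Pb.1 * monomial (Finsupp.equivFunOnFinite.symm (Pb.2 : Fin n → ℕ)) (1 : Ω)
    have hQ : ∀ Pb, Q Pb ∈ restrictDegree (Fin n) Ω m := by
      rintro ⟨P, b⟩
      rw [mem_restrictDegree]
      intro s hs l'
      have h1 : (Q ⟨P, b⟩).degreeOf l' ≤ m := by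
        refine (degreeOf_mul_le _ _ _).trans ?_
        have h2 := hEP P l'
        have h3 : (monomial (Finsupp.equivFunOnFinite.symm (b : Fin n → ℕ)) (1 : Ω)).degreeOf l'
            ≤ M + (F P).degreeOf (l P) := by
          rw [degreeOf_le_iff]
          intro t ht
          have ht' := support_monomial_subset ht
          rw [Finset.mem_singleton] at ht'
          subst ht'
          simpa using box_le b.2 l'
        have h4 := hDP P
        refine (Nat.add_le_add h2 h3).trans ?_
        omega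
      exact (degreeOf_le_iff.mp h1) s hs
    let R : MvPolynomial (Fin n) Ω →ₗ[Ω] (Z → Ω) :=
      LinearMap.pi fun z : Z => (aeval (crd (z : Tor Ω n))).toLinearMap
    have hR : ∀ p z, R p z = aeval (crd (z : Tor Ω n)) p := fun p z => rfl
    let v : (Σ P : ι, B P) → secs Z m := fun Pb => ⟨R (Q Pb), Submodule.mem_map_of_mem (hQ Pb)⟩
    have hlin : LinearIndependent Ω v := by
      rw [Fintype.linearIndependent_iff]
      intro a ha
      have ha' : R (∑ Pb, a Pb • Q Pb) = 0 := by
        have := congrArg (fun w : secs Z m => (w : Z → Ω)) ha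
        rw [map_sum]
        simpa [v] using this
      have hT : (∑ Pb, a Pb • Q Pb) ∈ idl Z := by
        unfold idl
        rw [mem_vanishingIdeal_iff]
        rintro _ ⟨z, hz, rfl⟩
        exact congrFun ha' ⟨z, hz⟩
      rw [Fintype.sum_sigma] at hT
      have hp0 : ∀ P : ι,
          (∑ b : B P, monomial (Finsupp.equivFunOnFinite.symm (b : Fin n → ℕ)) (a ⟨P, b⟩) :
            MvPolynomial (Fin n) Ω) = 0 := by
        intro P
        by_contra hne'
        set p : MvPolynomial (Fin n) Ω :=
          ∑ b : B P, monomial (Finsupp.equivFunOnFinite.symm (b : Fin n → ℕ)) (a ⟨P, b⟩) with hp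
        have hsupp : ∀ s ∈ p.support, ∃ b : B P,
            s = Finsupp.equivFunOnFinite.symm (b : Fin n → ℕ) := by
          intro s hs
          have hs1 := support_sum hs
          rw [Finset.mem_biUnion] at hs1
          obtain ⟨b, _, hb⟩ := hs1
          have hb' := support_monomial_subset hb
          rw [Finset.mem_singleton] at hb'
          exact ⟨b, hb'⟩
        -- p is in P
        have hfp : f P * p ∈ (P : Ideal (MvPolynomial (Fin n) Ω)) := by
          have h1 := hle P hT
          rw [← Finset.add_sum_erase Finset.univ _ (Finset.mem_univ P)] at h1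
          have h2 : ∑ P' ∈ Finset.univ.erase P, ∑ b : B P', a ⟨P', b⟩ • Q ⟨P', b⟩ ∈
              (P : Ideal (MvPolynomial (Fin n) Ω)) := by
            refine Ideal.sum_mem _ fun P' hP' => Ideal.sum_mem _ fun b _ => ?_
            rw [smul_eq_C_mul]
            refine Ideal.mul_mem_left _ _ ?_
            exact Ideal.mul_mem_right _ _ (hf2 P' P (Finset.mem_erase.mp hP').1.symm)
          have h3 := (Ideal.add_mem_iff_left _ h2).mp h1
          have h4 : f P * p = ∑ b : B P, a ⟨P, b⟩ • Q ⟨P, b⟩ := by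
            rw [hp, Finset.mul_sum]
            refine Finset.sum_congr rfl fun b _ => ?_
            have : (monomial (Finsupp.equivFunOnFinite.symm (b : Fin n → ℕ)) (a ⟨P, b⟩) :
                MvPolynomial (Fin n) Ω) =
                C (a ⟨P, b⟩) * monomial (Finsupp.equivFunOnFinite.symm (b : Fin n → ℕ)) (1 : Ω) := by
              rw [C_mul_monomial, mul_one]
            rw [this, smul_eq_C_mul]
            simp only [Q]
            ring
          rw [h4]
          exact h3
        have hpP : p ∈ (P : Ideal (MvPolynomial (Fin n) Ω)) :=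
          ((hpr P).mem_or_mem hfp).resolve_left (hf1 P)
        have hvars : p.vars ⊆ J P := by
          intro l' hl'
          by_contra hnot
          rw [mem_vars] at hl'
          obtain ⟨s, hs, hsl⟩ := hl'
          obtain ⟨b, rfl⟩ := hsupp s hs
          rw [Finsupp.mem_support_iff] at hsl
          apply hsl
          simpa using box_zero (hlJ P) b.2 l' hnot
        obtain ⟨q, hq⟩ := hFdvd P p hpP hvars
        have hq0 : q ≠ 0 := by
          intro h0
          rw [h0, mul_zero] at hq
          exact hne' hq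
        have hdeg := degreeOf_mul_eq (n := l P) (hF0 P) hq0
        rw [← hq] at hdeg
        have hlt : p.degreeOf (l P) < (F P).degreeOf (l P) := by
          rw [degreeOf_lt_iff (hF1 P)]
          intro s hs
          obtain ⟨b, rfl⟩ := hsupp s hs
          simpa using box_l b.2
        omega
      rintro ⟨P, b⟩
      have h1 := congrArg (coeff (Finsupp.equivFunOnFinite.symm (b : Fin n → ℕ))) (hp0 P)
      rw [coeff_sum, coeff_zero] at h1
      rw [Finset.sum_eq_single b] at h1
      · rwa [coeff_monomial, if_pos rfl] at h1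
      · intro b' _ hb'
        rw [coeff_monomial, if_neg]
        intro h
        exact hb' (Subtype.ext (Finsupp.equivFunOnFinite.symm.injective h))
      · intro h
        exact absurd (Finset.mem_univ b) h
    haveI := secs_finite Z m
    have hcard := hlin.fintype_card_le_finrank
    refine le_trans ?_ hcard
    rw [Fintype.card_sigma, hDdef, Finset.sum_mul]
    refine Finset.sum_le_sum fun P _ => ?_
    rw [Fintype.card_coe, box_card _ _ _ _ (hlJ P)]
    refine Nat.mul_le_mul_left _ (Nat.pow_le_pow_right (Nat.succ_pos _) ?_)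
    have := hJ P
    omega

end Pool.Agent.H11.TH
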