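import Pool.Agent.H11.TH.Sec
import Pool.Agent.H11.TH.Asy
import Pool.Agent.H11.TH.Dim
import Pool.Agent.H11.TH.Cnj

/-!
# Module Deg: the degree inequality `deg Z ≥ dg_L(γ) deg_l(G)` (assembly)

`k = dg L γ`, an equivalence of `Fin k` with `Orb L γ` (finite, `orb_finite`): `γ_i = σ_i γ`, `σ_i` fixing `L`, injective.
`V_i = mv σ_i '' V ⊆ Z` (`closed_mv`, `V ⊆ Z`), `idl V_i = span {σ_i* G}` (`idl_mv`), `ch e (mv σ_i x) = σ_i γ` (`ch_mv`).
If `degreeOf l G = 0` the claim is `0 ≤ δ^..`: `δ ≥ 0` as a limit of nonnegative numbers (`ge_of_tendsto'`).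
Otherwise `secs_lower` and `asy` (`d + 1 ≤ n` by `dim_lt`): `d = n - 1`, `k * degreeOf l G ≤ δ`, and
`1 / (n - d) = 1`, `δ^1 = δ`.
-/

set_option autoImplicit false
set_option linter.unusedSectionVars false

open MvPolynomial

namespace Pool.Agent.H11.TH

open Pool.Agent.H72.PB

variable {K Ω : Type} [Field K] [Field Ω] [Algebra K Ω] [Algebra.IsAlgebraic K Ω] {n : ℕ}

theorem omega_lower (L : IntermediateField K Ω) (V : Set (Tor Ω n))
    (G : MvPolynomial (Fin n) Ω) (hG : idl V = Ideal.span {G}) (Z : Set (Tor Ω n)) (d : ℕ)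
    (δ : ℝ) (hZ : ClosedOver L Z) (hne : Z ≠ Set.univ) (hd : Equidim Z d) (hdeg : HasDeg Z d δ)
    (hVZ : V ⊆ Z) (e : Fin n → ℤ) (γ : Ωˣ) (hγ : ∀ x ∈ V, ch e x = γ) (l : Fin n) :
    (dg L (γ : Ω) : ℝ) * (G.degreeOf l : ℝ) ≤ δ ^ (1 / ((n : ℝ) - d)) := by
  classical
  have hδ0 : 0 ≤ δ := ge_of_tendsto' hdeg fun m => by positivity
  by_cases hl : G.degreeOf l = 0
  · rw [hl, Nat.cast_zero, mul_zero]
    exact Real.rpow_nonneg hδ0 _
  have hfin := orb_finite L (γ : Ω)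
  have hcard : hfin.toFinset.card = dg L (γ : Ω) := by
    unfold dg
    rw [Set.ncard_eq_toFinset_card _ hfin]
  obtain ⟨k, hk⟩ : ∃ k, k = dg L (γ : Ω) := ⟨_, rfl⟩
  obtain ⟨E⟩ : Nonempty (Fin k ≃ hfin.toFinset) :=
    ⟨((Fintype.equivFinOfCardEq (by rw [Fintype.card_coe, hcard, ← hk]))).symm⟩
  have hE : ∀ i : Fin k, ∃ σ : Ω ≃ₐ[K] Ω, (∀ z ∈ L, σ z = z) ∧ σ (γ : Ω) = (E i : Ω) := by
    intro i
    have h1 := (E i).2
    rw [Set.Finite.mem_toFinset] at h1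
    exact h1
  choose σ hσL hσ using hE
  have h1 := secs_lower Z k (fun i => mv (σ i) '' V) (fun i => ?_)
    (fun i => MvPolynomial.map (σ i : Ω →+* Ω) G) (fun i => idl_mv (σ i) V G hG) e
    (fun i => sgm (σ i) γ) ?_ ?_ l (G.degreeOf l) (fun i => deg_cnj (σ i) G l)
  · obtain ⟨c, hc⟩ := h1
    have hk1 : 1 ≤ k := by
      rw [hk]
      exact dg_pos L _
    have hn := dim_lt L Z hZ hne d hd
    obtain ⟨h2, h3⟩ := asy n d k (G.degreeOf l) c hn
      (Nat.mul_pos hk1 (Nat.pos_of_ne_zero hl)) (fun m => Module.finrank Ω (secs Z m)) hc δ hdeg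
    have h4 : (n : ℝ) - d = 1 := by
      have h5 : n = d + 1 := by omega
      rw [h5]
      push_cast
      ring
    rw [h4, div_one, Real.rpow_one, ← hk]
    have h6 := h3
    push_cast at h6
    exact h6
  · exact (Set.image_mono hVZ).trans (closed_mv L Z hZ (σ i) (hσL i))
  · intro i j hij
    have h2 : σ i (γ : Ω) = σ j (γ : Ω) := congrArg (fun z : Ωˣ => (z : Ω)) hij
    rw [hσ, hσ] at h2
    exact E.injective (Subtype.ext h2)
  · rintro i _ ⟨x, hx, rfl⟩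
    rw [ch_mv, hγ x hx]

end Pool.Agent.H11.TH
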