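import Pool.Agent.H11.TH.Defs

/-!
# Definitions: equidimensional sets and degrees (as in the hand-in RankOneNotLehmer)
-/

set_option autoImplicit false

open MvPolynomial Filter Topology

namespace Pool.Agent.H11.TH

variable {Ω : Type} [Field Ω] {n : ℕ}

/-- all irreducible components of `Z` have dimension `d` -/
def Equidim (Z : Set (Tor Ω n)) (d : ℕ) : Prop :=
  Z.Nonempty ∧ ∀ P ∈ (idl Z).minimalPrimes, ringKrullDim (MvPolynomial (Fin n) Ω ⧸ P) = d

/-- the degree of `Z`, of pure dimension `d`, with respect to `O(1,...,1)` on `(P^1)^n` -/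
def HasDeg (Z : Set (Tor Ω n)) (d : ℕ) (δ : ℝ) : Prop :=
  Tendsto (fun m : ℕ => (d.factorial : ℝ) * (Module.finrank Ω (secs Z m) : ℝ) / (m : ℝ) ^ d)
    atTop (𝓝 δ)

end Pool.Agent.H11.TH
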