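import Pool.Agent.H11.TH.Defs

/-!
# Module DgF: degrees of products, powers, roots

`Orb L y` (file `H72/PB/Defs.lean`) is finite (`orb_finite`, file `H72/PB/OrbA.lean`).
* `dg_mul`: `ρ (x y) = (ρ x) (ρ y)`, so `Orb L (x y)` is contained in the image of `Orb L x ×ˢ Orb L y`.
* `dg_inv`: `ρ x⁻¹ = (ρ x)⁻¹`; an injective image.
* `dg_pow_le`: `Orb L (x^q)` is the image of `Orb L x` (`orb_pow`).
* `dg_root`: `Orb L x` is contained in the set of the `z` with `z^Q ∈ Orb L (x^Q)`, at most `Q` for each value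
  (`Polynomial.card_nthRoots`, or `card_roots'` for `X^Q - C a`, `Q ≥ 1`).
* `dg_one_add`: `ρ (1 + u) = 1 + ρ u`.
-/

set_option autoImplicit false
set_option linter.unusedSectionVars false

namespace Pool.Agent.H11.TH

open Pool.Agent.H72.PB

variable {K Ω : Type} [Field K] [Field Ω] [Algebra K Ω] [Algebra.IsAlgebraic K Ω]

theorem dg_mul (L : IntermediateField K Ω) (x y : Ω) : dg L (x * y) ≤ dg L x * dg L y := by
  have h1 : Orb L (x * y) ⊆ (fun p : Ω × Ω => p.1 * p.2) '' (Orb L x ×ˢ Orb L y) := by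
    rintro z ⟨ρ, hρ, rfl⟩
    exact ⟨(ρ x, ρ y), ⟨⟨ρ, hρ, rfl⟩, ⟨ρ, hρ, rfl⟩⟩, (map_mul ρ x y).symm⟩
  have hf : (Orb L x ×ˢ Orb L y).Finite := (orb_finite L x).prod (orb_finite L y)
  unfold dg
  calc (Orb L (x * y)).ncard ≤ ((fun p : Ω × Ω => p.1 * p.2) '' (Orb L x ×ˢ Orb L y)).ncard :=
        Set.ncard_le_ncard h1 (hf.image _)
    _ ≤ (Orb L x ×ˢ Orb L y).ncard := Set.ncard_image_le hf
    _ = (Orb L x).ncard * (Orb L y).ncard := Set.ncard_prod

theorem dg_inv (L : IntermediateField K Ω) (x : Ω) : dg L x⁻¹ = dg L x := by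
  have h1 : Orb L x⁻¹ = (fun z : Ω => z⁻¹) '' Orb L x := by
    ext z
    constructor
    · rintro ⟨ρ, hρ, rfl⟩
      exact ⟨ρ x, ⟨ρ, hρ, rfl⟩, (map_inv₀ ρ x).symm⟩
    · rintro ⟨_, ⟨ρ, hρ, rfl⟩, rfl⟩
      exact ⟨ρ, hρ, map_inv₀ ρ x⟩
  unfold dg
  rw [h1]
  exact Set.ncard_image_of_injective _ inv_injective

theorem dg_pow_le (L : IntermediateField K Ω) (x : Ω) (q : ℕ) : dg L (x ^ q) ≤ dg L x := by
  unfold dg
  rw [orb_pow]
  exact Set.ncard_image_le (orb_finite L x)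

theorem dg_root (L : IntermediateField K Ω) (x : Ω) (Q : ℕ) (hQ : 1 ≤ Q) :
    dg L x ≤ Q * dg L (x ^ Q) := by
  classical
  have hfin := orb_finite L x
  have h1 : dg L x = hfin.toFinset.card := Set.ncard_eq_toFinset_card _ hfin
  have h2 : dg L (x ^ Q) = (hfin.toFinset.image fun z => z ^ Q).card := by
    unfold dg
    rw [orb_pow, ← Set.ncard_coe_finset]
    congr 1
    ext z
    simp
  rw [h1, h2]
  refine Finset.card_le_mul_card_image _ Q fun a _ => ?_
  have h3 : (hfin.toFinset.filter fun z => z ^ Q = a) ⊆ (Polynomial.nthRoots Q a).toFinset := by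
    intro z hz
    rw [Finset.mem_filter] at hz
    rw [Multiset.mem_toFinset, Polynomial.mem_nthRoots (by omega)]
    exact hz.2
  calc (hfin.toFinset.filter fun z => z ^ Q = a).card ≤ (Polynomial.nthRoots Q a).toFinset.card :=
        Finset.card_le_card h3
    _ ≤ Multiset.card (Polynomial.nthRoots Q a) := Multiset.toFinset_card_le _
    _ ≤ Q := Polynomial.card_nthRoots Q a

theorem dg_one_add (L : IntermediateField K Ω) (u : Ω) : dg L (1 + u) = dg L u := by
  have h1 : Orb L (1 + u) = (fun z : Ω => 1 + z) '' Orb L u := by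
    ext z
    constructor
    · rintro ⟨ρ, hρ, rfl⟩
      exact ⟨ρ u, ⟨ρ, hρ, rfl⟩, by rw [map_add, map_one]⟩
    · rintro ⟨_, ⟨ρ, hρ, rfl⟩, rfl⟩
      exact ⟨ρ, hρ, by rw [map_add, map_one]⟩
  unfold dg
  rw [h1]
  exact Set.ncard_image_of_injective _ (add_right_injective 1)

end Pool.Agent.H11.TH
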