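import Pool.Agent.H11.TH.Cnj
import Pool.Agent.H72.PB.OrbB

/-!
# Module DscB: descent of the hypersurface to `L`

`W` = the set of the `p ∈ idl Z`, `p ≠ 0`, with `degreeOf l p ≤ D` for all `l`; `G ∈ W`. Choose `p ∈ W` with
`p.support.card` minimal, `b₀ ∈ p.support`; multiply `p` by a constant: `coeff b₀ p = 1`. For `σ` fixing `L` let
`σ* p = MvPolynomial.map σ p`: it vanishes on `Z`: for `x ∈ Z`, `x = mv σ y`, `y = mv σ⁻¹ x ∈ Z` (`closed_mv` for `σ⁻¹`), and
`aeval (crd (mv σ y)) (σ* p) = σ (aeval (crd y) p) = 0` (`MvPolynomial.eval₂`-computation, or `idl_mv` for the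
ideal of `Z`: not principal, so do it directly). `σ* p` has the same support, and `σ* p - p` has its support in
`p.support \\ {b₀}`, the same degree bounds, and vanishes on `Z`; by minimality it is `0`. So all coefficients of `p` are fixed
by all `σ` fixing `L`: they are in `L` (`Pool.Agent.H72.RM.mem_of_fixed L x`, used in `H72/PB/OrbB.lean`).
-/

set_option autoImplicit false
set_option linter.unusedSectionVars false

open MvPolynomial

namespace Pool.Agent.H11.TH

private theorem cnj_eval' {K Ω : Type} [Field K] [Field Ω] [Algebra K Ω] {n : ℕ} (σ : Ω ≃ₐ[K] Ω)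
    (x : Tor Ω n) (p : MvPolynomial (Fin n) Ω) :
    aeval (crd (mv σ x)) (MvPolynomial.map (σ : Ω →+* Ω) p) = σ (aeval (crd x) p) := by
  induction p using MvPolynomial.induction_on with
  | C a =>
    rw [MvPolynomial.map_C, aeval_C, aeval_C]
    rfl
  | add p q hp hq => rw [map_add, map_add, hp, hq, map_add, map_add]
  | mul_X p i hp =>
    rw [map_mul, map_mul, hp, MvPolynomial.map_X, aeval_X, map_mul, map_mul, aeval_X]
    rfl

private theorem mem_idl {Ω : Type} [Field Ω] {n : ℕ} (Z : Set (Tor Ω n)) (p : MvPolynomial (Fin n) Ω) :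
    p ∈ idl Z ↔ ∀ x ∈ Z, aeval (crd x) p = 0 := by
  unfold idl
  rw [mem_vanishingIdeal_iff]
  constructor
  · intro h x hx
    exact h (crd x) ⟨x, hx, rfl⟩
  · rintro h _ ⟨x, hx, rfl⟩
    exact h x hx

private theorem map_idl {K Ω : Type} [Field K] [Field Ω] [Algebra K Ω] {n : ℕ}
    (L : IntermediateField K Ω) (Z : Set (Tor Ω n)) (hZ : ClosedOver L Z) (σ : Ω ≃ₐ[K] Ω)
    (hσ : ∀ z ∈ L, σ z = z) (p : MvPolynomial (Fin n) Ω) (hp : p ∈ idl Z) :
    MvPolynomial.map (σ : Ω →+* Ω) p ∈ idl Z := by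
  rw [mem_idl] at hp ⊢
  intro x hx
  have h1 : ∀ z ∈ L, σ.symm z = z := by
    intro z hz
    rw [AlgEquiv.symm_apply_eq, hσ z hz]
  have h2 : mv σ.symm x ∈ Z := closed_mv L Z hZ σ.symm h1 ⟨x, hx, rfl⟩
  have h3 : mv σ (mv σ.symm x) = x := by
    funext l
    apply Units.ext
    exact σ.apply_symm_apply _
  rw [← h3, cnj_eval', hp _ h2, map_zero]

theorem descend {K Ω : Type} [Field K] [Field Ω] [Algebra K Ω] [IsGalois K Ω] {n : ℕ}
    (L : IntermediateField K Ω) (Z : Set (Tor Ω n)) (hZ : ClosedOver L Z) (D : ℕ)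
    (G : MvPolynomial (Fin n) Ω) (hG0 : G ≠ 0) (hG : G ∈ idl Z) (hD : ∀ l, G.degreeOf l ≤ D) :
    ∃ p : MvPolynomial (Fin n) Ω, p ≠ 0 ∧ p ∈ idl Z ∧ (∀ l, p.degreeOf l ≤ D) ∧
      ∀ b, p.coeff b ∈ L := by
  classical
  have hne : ∃ N : ℕ, ∃ p : MvPolynomial (Fin n) Ω, (p ≠ 0 ∧ p ∈ idl Z ∧ ∀ l, p.degreeOf l ≤ D) ∧
      p.support.card = N := ⟨_, G, ⟨hG0, hG, hD⟩, rfl⟩
  obtain ⟨p, ⟨hp0, hp, hpD⟩, hc⟩ := Nat.find_spec hne
  have hmin : ∀ q : MvPolynomial (Fin n) Ω, q ≠ 0 → q ∈ idl Z → (∀ l, q.degreeOf l ≤ D) →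
      p.support.card ≤ q.support.card := by
    intro q h1 h2 h3
    rw [hc]
    exact Nat.find_min' hne ⟨q, ⟨h1, h2, h3⟩, rfl⟩
  obtain ⟨b₀, hb₀⟩ : p.support.Nonempty := support_nonempty.2 hp0
  have hc0 : p.coeff b₀ ≠ 0 := mem_support_iff.1 hb₀
  have hco : ∀ b, (C (p.coeff b₀)⁻¹ * p).coeff b = (p.coeff b₀)⁻¹ * p.coeff b := fun b =>
    coeff_C_mul _ _ _
  have hs : (C (p.coeff b₀)⁻¹ * p).support = p.support := by
    ext b
    rw [mem_support_iff, mem_support_iff, hco]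
    exact ⟨fun h h2 => h (by rw [h2, mul_zero]), fun h => mul_ne_zero (inv_ne_zero hc0) h⟩
  have hdeg : ∀ l, ∀ b ∈ p.support, b l ≤ D := fun l b hb =>
    (degreeOf_le_iff.1 (hpD l)) b hb
  refine ⟨C (p.coeff b₀)⁻¹ * p, mul_ne_zero ?_ hp0, Ideal.mul_mem_left _ _ hp, ?_, ?_⟩
  · rw [Ne, C_eq_zero]
    exact inv_ne_zero hc0
  · intro l
    rw [degreeOf_le_iff]
    intro b hb
    rw [hs] at hb
    exact hdeg l b hb
  · intro b
    refine Pool.Agent.H72.RM.mem_of_fixed L _ fun σ hσ => ?_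
    set q := C (p.coeff b₀)⁻¹ * p with hq
    have hr : MvPolynomial.map (σ : Ω →+* Ω) q - q = 0 := by
      by_contra hne0
      have hsub : (MvPolynomial.map (σ : Ω →+* Ω) q - q).support ⊆ p.support.erase b₀ := by
        intro d hd
        rw [mem_support_iff, coeff_sub, coeff_map] at hd
        rw [Finset.mem_erase]
        refine ⟨?_, ?_⟩
        · rintro rfl
          apply hd
          rw [hco, inv_mul_cancel₀ hc0, map_one, sub_self]
        · rw [← hs, mem_support_iff]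
          intro h0
          apply hd
          rw [h0, map_zero, sub_self]
      have h1 := hmin _ hne0 (Ideal.sub_mem _ (map_idl L Z hZ σ hσ q (Ideal.mul_mem_left _ _ hp))
        (Ideal.mul_mem_left _ _ hp)) (fun l => by
          rw [degreeOf_le_iff]
          intro d hd
          exact hdeg l d (Finset.mem_of_mem_erase (hsub hd)))
      have h2 := Finset.card_le_card hsub
      rw [Finset.card_erase_of_mem hb₀] at h2
      have h3 : 0 < p.support.card := Finset.card_pos.2 ⟨b₀, hb₀⟩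
      omega
    have h4 := congrArg (fun f => coeff b f) hr
    simp only [coeff_sub, coeff_map, coeff_zero] at h4
    exact sub_eq_zero.1 h4

end Pool.Agent.H11.TH
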