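import Pool.Agent.H11.TH.FinH
import Pool.Agent.H11.TH.CmpB
import Pool.Agent.H11.TH.DscB

/-!
# Module FinB: Theorem B (assembly)
-/

set_option autoImplicit false
set_option linter.unusedSectionVars false

open NumberField MvPolynomial

namespace Pool.Agent.H11.TH

open Pool.Agent.H72.PB

variable {K Ω : Type} [Field K] [NumberField K] [Field Ω] [CharZero Ω] [IsAlgClosed Ω]
  [Algebra K Ω] [IsGalois K Ω]

theorem dg_one_of_mem (L : IntermediateField K Ω) (y : Ω) (hy : y ∈ L) : dg L y ≤ 1 := by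
  have h1 : Orb L y ⊆ {y} := by
    rintro x ⟨ρ, hρ, rfl⟩
    exact hρ y hy
  unfold dg
  exact (Set.ncard_le_ncard h1 (Set.finite_singleton y)).trans (by rw [Set.ncard_singleton])

/-- a polynomial as a sum of terms -/
theorem pol_of {Ω : Type} [Field Ω] {n : ℕ} (p : MvPolynomial (Fin n) Ω) (D : ℕ)
    (hD : ∀ l, p.degreeOf l ≤ D) :
    ∃ (I : Type) (_ : Fintype I) (m : I → Fin n → ℕ) (g : I → Ωˣ),
      Fintype.card I ≤ (D + 1) ^ n ∧ pol m g = p ∧ (∀ i l, m i l ≤ D) ∧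
      ∀ i, ∃ b, (g i : Ω) = p.coeff b := by
  classical
  refine ⟨p.support, inferInstance, fun b => (b.1 : Fin n → ℕ),
    fun b => Units.mk0 (p.coeff b.1) (mem_support_iff.1 b.2), ?_, ?_, ?_, fun i => ⟨i.1, rfl⟩⟩
  · have h1 : ∀ b : p.support, ∀ l, b.1 l < D + 1 := fun b l =>
      Nat.lt_succ_of_le ((monomial_le_degreeOf l b.2).trans (hD l))
    have h2 : Fintype.card p.support ≤ Fintype.card (Fin n → Fin (D + 1)) := by
      refine Fintype.card_le_of_injective (fun b l => ⟨b.1 l, h1 b l⟩) ?_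
      intro b b' hbb
      apply Subtype.ext
      ext l
      have := congrFun hbb l
      exact congrArg Fin.val this
    rw [Fintype.card_fun, Fintype.card_fin, Fintype.card_fin] at h2
    exact h2
  · conv_rhs => rw [← support_sum_monomial_coeff p]
    unfold pol
    rw [← Finset.sum_coe_sort p.support]
    refine Finset.sum_congr rfl fun b _ => ?_
    have h : Finsupp.equivFunOnFinite.symm (b.1 : Fin n → ℕ) = b.1 :=
      Finsupp.equivFunOnFinite_symm_coe b.1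
    unfold term
    show monomial (Finsupp.equivFunOnFinite.symm (b.1 : Fin n → ℕ)) (p.coeff b.1) =
      monomial b.1 (p.coeff b.1)
    rw [h]
  · exact fun b l => (monomial_le_degreeOf l b.2).trans (hD l)

variable (K) in
theorem thm_B (Λ : Subgroup Ωˣ) (hΛ : Λ.FG) (S : Finset ℕ) (hS : ∀ p ∈ S, p.Prime) (n : ℕ)
    (ω₀ : ℝ) :
    ∃ c : ℝ, 0 < c ∧ ∀ Γ : Subgroup (Tor Ω n),
      (∀ x : Tor Ω n, (∀ l, x l ∈ Λ) → x ∈ Γ) → (∀ x ∈ Γ, ∀ l, x l ∈ SRad Λ S) →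
      ∀ V : Set (Tor Ω n), (idl V).IsPrime → Transv K Γ V →
      (∃ (Z : Set (Tor Ω n)) (d' : ℕ) (δ : ℝ), ClosedOver (fldO K Γ) Z ∧ Z ≠ Set.univ ∧
        Equidim Z d' ∧ HasDeg Z d' δ ∧ V ⊆ Z ∧ δ ^ (1 / ((n : ℝ) - d')) ≤ ω₀) →
      ∀ θ : ℝ, idl {x | x ∈ V ∧ ht x ≤ θ} ≤ idl V → c ≤ θ := by
  classical
  obtain ⟨D, hDd⟩ : ∃ D : ℕ, D = ⌊(max 1 ω₀) ^ n⌋₊ := ⟨_, rfl⟩
  have hD1 : 1 ≤ D := by
    rw [hDd, Nat.one_le_floor_iff]
    exact one_le_pow₀ (le_max_left _ _)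
  obtain ⟨ε, Q, C, hε, hQ, hP⟩ := prop_P K Ω ((D + 1) ^ n) 1
  obtain ⟨c₁, hc₁, hbdd⟩ := bdd_lehmer (K := K) Λ hΛ S hS C
  have hQr : (0 : ℝ) < Q := by exact_mod_cast hQ
  have hDr : (0 : ℝ) < D := by exact_mod_cast hD1
  refine ⟨min (ε / D) (c₁ / (Q * D)), lt_min (div_pos hε hDr) (div_pos hc₁ (mul_pos hQr hDr)), ?_⟩
  intro Γ hΓ1 hΓ2 V hV htr hex θ hθ
  obtain ⟨Z, d', δ, hZ, hZne, hZd, hZδ, hVZ, hω⟩ := hex
  have hn : d' + 1 ≤ n := dim_lt (fldO K Γ) Z hZ hZne d' hZd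
  obtain ⟨G, D', hG0, hGZ, hD'1, hGD', c, hc⟩ := components Z d' hZd (idl_ne_bot _ Z hZ hZne)
  have hasy := asy (d' + 1) d' 1 D' c le_rfl (by rw [one_mul]; exact hD'1)
    (fun m => Module.finrank Ω (secs Z m)) (fun m hm => by
      rw [one_mul, Nat.add_sub_cancel]
      exact hc m hm) δ hZδ
  have hD'δ : (D' : ℝ) ≤ δ := by
    have h1 := hasy.2
    rw [one_mul] at h1
    exact h1
  have hδ1 : 1 ≤ δ := le_trans (by exact_mod_cast hD'1) hD'δ
  have hexp : (0 : ℝ) < (n : ℝ) - d' := by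
    have h1 : ((d' + 1 : ℕ) : ℝ) ≤ n := by exact_mod_cast hn
    push_cast at h1
    linarith
  have hδω : δ ≤ (max 1 ω₀) ^ n := by
    have h1 : δ = (δ ^ (1 / ((n : ℝ) - d'))) ^ ((n : ℝ) - d') := by
      rw [← Real.rpow_mul (by linarith), one_div_mul_cancel hexp.ne', Real.rpow_one]
    rw [h1]
    calc (δ ^ (1 / ((n : ℝ) - d'))) ^ ((n : ℝ) - d') ≤ (max 1 ω₀) ^ ((n : ℝ) - d') :=
          Real.rpow_le_rpow (Real.rpow_nonneg (by linarith) _) (hω.trans (le_max_right _ _)) hexp.le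
      _ ≤ (max 1 ω₀) ^ (n : ℝ) :=
          Real.rpow_le_rpow_of_exponent_le (le_max_left _ _) (by
            have : (0 : ℝ) ≤ d' := Nat.cast_nonneg d'
            linarith)
      _ = (max 1 ω₀) ^ n := Real.rpow_natCast _ _
  have hD'D : D' ≤ D := by
    rw [hDd]
    exact Nat.le_floor (hD'δ.trans hδω)
  obtain ⟨p, hp0, hpZ, hpD, hpL⟩ := descend (fldO K Γ) Z hZ D' G hG0 hGZ hGD'
  obtain ⟨I, hI, m, g, hcard, hpol, hm, hgc⟩ := pol_of p D (fun l => (hpD l).trans hD'D)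
  have hLN : fldO K Γ ≤ N₀ K Λ S := by
    unfold fldO N₀ fld
    rw [IntermediateField.adjoin_le_iff]
    rintro y ⟨γ, hγ, i, rfl⟩
    exact IntermediateField.subset_adjoin K _ ⟨γ i, hΓ2 γ hγ i, rfl⟩
  obtain ⟨X, hX⟩ : ∃ X : Set (Tor Ω n), X = {x | x ∈ V ∧ ht x ≤ θ} := ⟨_, rfl⟩
  rw [← hX] at hθ
  have hXV : X ⊆ V := by
    rw [hX]
    exact fun x hx => hx.1
  obtain ⟨x₁, hx₁⟩ : X.Nonempty := by
    by_contra hcon
    rw [Set.not_nonempty_iff_eq_empty] at hcon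
    apply hV.ne_top
    rw [eq_top_iff]
    refine le_trans ?_ hθ
    intro p _
    unfold idl
    rw [mem_vanishingIdeal_iff]
    rintro _ ⟨x, hx, rfl⟩
    rw [hcon] at hx
    exact absurd hx (Set.notMem_empty x)
  have hxθ : ∀ x ∈ X, ht x ≤ θ := by
    rw [hX]
    exact fun x hx => hx.2
  have hht0 : ∀ x : Tor Ω n, 0 ≤ ht x := fun x => Finset.sum_nonneg fun l _ => ht_nonneg _
  have hθ0 : 0 ≤ θ := (hht0 x₁).trans (hxθ x₁ hx₁)
  by_contra hcon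
  rw [not_le] at hcon
  have h1 : (D : ℝ) * θ ≤ ε := by
    have h2 := hcon.trans_le (min_le_left _ _)
    rw [lt_div_iff₀ hDr] at h2
    linarith
  have hpV : p ∈ idl V := by
    unfold idl at hpZ ⊢
    rw [mem_vanishingIdeal_iff] at hpZ ⊢
    rintro _ ⟨x, hx, rfl⟩
    exact hpZ _ ⟨x, hVZ hx, rfl⟩
  obtain ⟨e, γ, he0, heQ, heV, heC⟩ := hP (N₀ K Λ S) n V X hV hXV hθ I hcard m D hm
    (fun x hx => (mul_le_mul_of_nonneg_left (hxθ x hx) (Nat.cast_nonneg D)).trans h1)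
    g 1 le_rfl (fun i => by
      obtain ⟨b, hb⟩ := hgc i
      rw [pow_one, hb]
      exact dg_one_of_mem _ _ (hLN (hpL b))) (by rw [hpol]; exact hp0) (by rw [hpol]; exact hpV)
  rw [pow_one] at heC
  have hsat := not_sat (K := K) Λ Γ hΓ1 V hV htr e he0 γ heV
  have h2 := hbdd γ hsat heC
  have h3 : absLogHeight₁ (γ : Ω) ≤ (Q * D : ℝ) * θ := by
    rw [← heV x₁ (hXV hx₁)]
    refine (ht_ch (K := K) e x₁ (Q * D : ℝ) ?_).trans
      (mul_le_mul_of_nonneg_left (hxθ x₁ hx₁) (by positivity))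
    intro l
    have h4 := heQ l
    have h5 : ((|e l| : ℤ) : ℝ) ≤ (((Q : ℤ) * (D : ℤ) : ℤ) : ℝ) := by exact_mod_cast h4
    push_cast at h5
    exact h5
  have h4 := hcon.trans_le (min_le_right _ _)
  rw [lt_div_iff₀ (mul_pos hQr hDr)] at h4
  linarith

end Pool.Agent.H11.TH
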