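import Pool.Agent.H11.TH.FinB

/-!
# Module FinC: the bound for all subvarieties of a sparse hypersurface (first part of Theorem B)

`c ≤ D θ` for every transverse `V` on which some nonzero sum of `N` terms `g_j x^(m_j)` vanishes, with `m_j ≤ D` and
`g_j` of degree at most `d` over `N₀`; `c` does not depend on the dimension of the torus, nor on `D`.
-/

set_option autoImplicit false
set_option linter.unusedSectionVars false

open NumberField MvPolynomial

namespace Pool.Agent.H11.TH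

open Pool.Agent.H72.PB

variable {K Ω : Type} [Field K] [NumberField K] [Field Ω] [CharZero Ω] [IsAlgClosed Ω]
  [Algebra K Ω] [IsGalois K Ω]

variable (K) in
theorem thm_sparse (Λ : Subgroup Ωˣ) (hΛ : Λ.FG) (S : Finset ℕ) (hS : ∀ p ∈ S, p.Prime)
    (N d : ℕ) :
    ∃ c : ℝ, 0 < c ∧ ∀ (n : ℕ) (Γ : Subgroup (Tor Ω n)),
      (∀ x : Tor Ω n, (∀ l, x l ∈ Λ) → x ∈ Γ) →
      ∀ V : Set (Tor Ω n), (idl V).IsPrime → Transv K Γ V →
      ∀ (D : ℕ) (m : Fin N → Fin n → ℕ) (g : Fin N → Ω), (∀ j l, m j l ≤ D) →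
      (∀ j, dg (N₀ K Λ S) (g j) ≤ d) →
      (∑ j, term (m j) (g j)) ≠ 0 → (∑ j, term (m j) (g j)) ∈ idl V →
      ∀ θ : ℝ, idl {x | x ∈ V ∧ ht x ≤ θ} ≤ idl V → c ≤ D * θ := by
  classical
  obtain ⟨ε, Q, C, hε, hQ, hP⟩ := prop_P K Ω N d
  obtain ⟨c₁, hc₁, hbdd⟩ := bdd_lehmer (K := K) Λ hΛ S hS C
  have hQr : (0 : ℝ) < Q := by exact_mod_cast hQ
  refine ⟨min ε (c₁ / Q), lt_min hε (div_pos hc₁ hQr), ?_⟩
  intro n Γ hΓ1 V hV htr D m g hm hg hp0 hpV θ hθ
  obtain ⟨X, hX⟩ : ∃ X : Set (Tor Ω n), X = {x | x ∈ V ∧ ht x ≤ θ} := ⟨_, rfl⟩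
  rw [← hX] at hθ
  have hXV : X ⊆ V := by
    rw [hX]
    exact fun x hx => hx.1
  obtain ⟨x₁, hx₁⟩ : X.Nonempty := by
    by_contra hcon
    rw [Set.not_nonempty_iff_eq_empty] at hcon
    apply hV.ne_top
    rw [eq_top_iff]
    refine le_trans ?_ hθ
    intro p _
    unfold idl
    rw [mem_vanishingIdeal_iff]
    rintro _ ⟨x, hx, rfl⟩
    rw [hcon] at hx
    exact absurd hx (Set.notMem_empty x)
  have hxθ : ∀ x ∈ X, ht x ≤ θ := by
    rw [hX]
    exact fun x hx => hx.2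
  by_contra hcon
  rw [not_le] at hcon
  have h1 : (D : ℝ) * θ ≤ ε := (hcon.trans_le (min_le_left _ _)).le
  -- the terms with nonzero coefficients
  have hsum : pol (fun j : {j : Fin N // g j ≠ 0} => m j.1)
      (fun j : {j : Fin N // g j ≠ 0} => Units.mk0 (g j.1) j.2) = ∑ j, term (m j) (g j) := by
    unfold pol
    have h2 : ∀ j : Fin N, j ∉ Finset.univ.filter (fun j => g j ≠ 0) →
        term (m j) (g j) = (0 : MvPolynomial (Fin n) Ω) := by
      intro j hj
      have h3 : g j = 0 := by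
        by_contra h4
        exact hj (Finset.mem_filter.2 ⟨Finset.mem_univ _, h4⟩)
      unfold term
      rw [h3, map_zero]
    rw [← Finset.sum_subset (Finset.filter_subset (fun j => g j ≠ 0) Finset.univ)
      (fun j _ hj => h2 j hj)]
    exact (Finset.sum_subtype (Finset.univ.filter (fun j => g j ≠ 0))
      (fun j => by simp) (fun j => (term (m j) (g j) : MvPolynomial (Fin n) Ω))).symm
  obtain ⟨e, γ, he0, heQ, heV, heC⟩ := hP (N₀ K Λ S) n V X hV hXV hθ {j : Fin N // g j ≠ 0}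
    ((Fintype.card_subtype_le _).trans (by rw [Fintype.card_fin])) (fun j => m j.1) D
    (fun j l => hm j.1 l)
    (fun x hx => (mul_le_mul_of_nonneg_left (hxθ x hx) (Nat.cast_nonneg D)).trans h1)
    (fun j => Units.mk0 (g j.1) j.2) 1 le_rfl (fun j => by
      rw [pow_one]
      exact hg j.1) (by rw [hsum]; exact hp0) (by rw [hsum]; exact hpV)
  rw [pow_one] at heC
  have hsat := not_sat (K := K) Λ Γ hΓ1 V hV htr e he0 γ heV
  have h2 := hbdd γ hsat heC
  have h3 : absLogHeight₁ (γ : Ω) ≤ (Q * D : ℝ) * θ := by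
    rw [← heV x₁ (hXV hx₁)]
    refine (ht_ch (K := K) e x₁ (Q * D : ℝ) ?_).trans
      (mul_le_mul_of_nonneg_left (hxθ x₁ hx₁) (by positivity))
    intro l
    have h4 := heQ l
    have h5 : ((|e l| : ℤ) : ℝ) ≤ (((Q : ℤ) * (D : ℤ) : ℤ) : ℝ) := by exact_mod_cast h4
    push_cast at h5
    exact h5
  have h4 := hcon.trans_le (min_le_right _ _)
  rw [lt_div_iff₀ hQr] at h4
  nlinarith

end Pool.Agent.H11.TH
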