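import Pool.Agent.H11.TH.Step
import Pool.Agent.H11.TH.DgF

/-!
# Module Mrg: Proposition P(N) (induction on the number of terms)

Induction on `N`, for all `d`. Both `I` with `card I < N` and `card I = N` must be treated; strong form: for all index
types with at most `N` elements.
* `N = 0`: `pol m g = 0`, a contradiction to `hne`.
* `N + 1`. Let `ε₁, Q₁, C₁` be given by `step` for `N + 1`, `d`; `d' = max d (d * (Q₁ * C₁))`, `ε₂, Q₂, C₂` from the
  induction hypothesis for `d'`. `ε = min ε₁ ε₂`, `Q = Q₁ * Q₂` (or `max`: the condition is `|e_l| ≤ Q δ`),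
  `C = max C₂ (C₁ * (d ^ Q₁ * d ^ Q₁) ..)`; here `dg (x^q) ≤ dg x` gives the better `C₁ * (d * d)`.
  If `card I ≤ N` use the induction hypothesis (`d ≤ d'`). Otherwise `card I = N + 1`: an equivalence `f : I ≃ Fin (N+1)`
  transports the data. `hG`: for `x ∈ V`: `∑ g_j mon (m j) x = aeval (crd x) (pol m g) = 0` (`pol_eval`).
  `step` gives `a ≠ b`, `γ`, `τ = γ (g a / g b)^Q₁` with `dg τ ≤ C₁`.
  - `m a ≠ m b`: `e l = Q₁ (m a l - m b l)`, `e ≠ 0`, `|e l| ≤ Q₁ δ`, `ch e x = γ` on `V` (`ch_ratio`). `γ = τ (g b / g a)^Q₁`,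
    `γ^k = τ^k * ((g b)^k)^Q₁ * (((g a)^k)⁻¹)^Q₁`, `dg ≤ C₁ * (d * d)` (`dg_mul`, `dg_pow_le`, `dg_inv`).
  - `m a = m b`: `mon (m a) x / mon (m b) x = 1`, so `γ = 1` (`V ≠ ∅`), `u = g a / g b`, `dg (u^Q₁) ≤ C₁`, `dg u ≤ Q₁ C₁`
    (`dg_root`). If `g a + g b = 0` (in `Ω`): `pol m g` is the sum over `{j // j ≠ a ∧ j ≠ b}` (at most `N` elements):
    induction hypothesis. Otherwise let `g' b = g a + g b = g b (1 + u)`, `g' j = g j` for the others, on
    `{j // j ≠ a}` (`N` elements): `term (m a) (g a) + term (m b) (g b) = term (m b) (g' b)`, and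
    `dg ((g' b)^k) = dg ((g b)^k (1+u)^k) ≤ d * (Q₁ C₁)` (`dg_mul`, `dg_pow_le`, `dg_one_add`). Induction hypothesis.
-/

set_option autoImplicit false
set_option linter.unusedSectionVars false

open NumberField MvPolynomial

namespace Pool.Agent.H11.TH

open Pool.Agent.H72.PB

theorem pol_eval {Ω : Type} [Field Ω] {n : ℕ} {I : Type} [Fintype I] (m : I → Fin n → ℕ)
    (g : I → Ωˣ) (x : Tor Ω n) :
    aeval (crd x) (pol m g) = ∑ j, (g j : Ω) * (mon (m j) x : Ω) := by
  unfold pol
  rw [map_sum]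
  refine Finset.sum_congr rfl fun j _ => ?_
  unfold term mon crd
  rw [aeval_monomial, Finsupp.prod_fintype _ _ (fun i => pow_zero _), Units.coe_prod]
  congr 1

private theorem term_add {Ω : Type} [Field Ω] {n : ℕ} (m : Fin n → ℕ) (x y : Ω) :
    term m (x + y) = term m x + term m y := by
  unfold term
  exact map_add _ _ _

private theorem term_zero {Ω : Type} [Field Ω] {n : ℕ} (m : Fin n → ℕ) :
    term m (0 : Ω) = 0 := by
  unfold term
  exact map_zero _

theorem prop_P (K Ω : Type) [Field K] [NumberField K] [Field Ω] [CharZero Ω] [IsAlgClosed Ω]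
    [Algebra K Ω] [IsGalois K Ω] (N : ℕ) : ∀ d : ℕ,
    ∃ (ε : ℝ) (Q C : ℕ), 0 < ε ∧ 1 ≤ Q ∧ ∀ (L : IntermediateField K Ω) (n : ℕ)
      (V X : Set (Tor Ω n)), (idl V).IsPrime → X ⊆ V → idl X ≤ idl V →
      ∀ (I : Type) [Fintype I], Fintype.card I ≤ N →
      ∀ (m : I → Fin n → ℕ) (δ : ℕ), (∀ j l, m j l ≤ δ) → (∀ x ∈ X, (δ : ℝ) * ht x ≤ ε) →
      ∀ (g : I → Ωˣ) (k : ℕ), 1 ≤ k → (∀ j, dg L ((g j : Ω) ^ k) ≤ d) →
      pol m g ≠ 0 → pol m g ∈ idl V →
      ∃ (e : Fin n → ℤ) (γ : Ωˣ), e ≠ 0 ∧ (∀ l, |e l| ≤ (Q : ℤ) * δ) ∧ (∀ x ∈ V, ch e x = γ) ∧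
        dg L ((γ : Ω) ^ k) ≤ C := by
  classical
  haveI hAlg : Algebra.IsAlgebraic K Ω := inferInstance
  induction N with
  | zero =>
    intro d
    refine ⟨1, 1, 0, one_pos, le_refl _, ?_⟩
    intro L n V X hV hXV hI I _ hcard m δ hm hδ g k hk hg hne hmem
    exfalso
    apply hne
    haveI : IsEmpty I := Fintype.card_eq_zero_iff.1 (Nat.le_zero.1 hcard)
    unfold pol
    exact Finset.sum_of_isEmpty _
  | succ N ih =>
    intro d
    obtain ⟨ε₁, Q₁, C₁, hε₁, hQ₁, h₁⟩ := step K Ω (N + 1) (by omega) d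
    obtain ⟨ε₂, Q₂, C₂, hε₂, hQ₂, h₂⟩ := ih (max d (d * (Q₁ * C₁)))
    refine ⟨min ε₁ ε₂, max Q₁ Q₂, max C₂ (C₁ * (d * d)), lt_min hε₁ hε₂,
      le_trans hQ₁ (le_max_left _ _), ?_⟩
    intro L n V X hV hXV hI I _ hcard m δ hm hδ g k hk hg hne hmem
    have hδ1 : ∀ x ∈ X, (δ : ℝ) * ht x ≤ ε₁ := fun x hx => (hδ x hx).trans (min_le_left _ _)
    have hδ2 : ∀ x ∈ X, (δ : ℝ) * ht x ≤ ε₂ := fun x hx => (hδ x hx).trans (min_le_right _ _)
    have hQ1 : (Q₁ : ℤ) * δ ≤ ((max Q₁ Q₂ : ℕ) : ℤ) * δ := by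
      have : Q₁ ≤ max Q₁ Q₂ := le_max_left _ _
      exact mul_le_mul_of_nonneg_right (by exact_mod_cast this) (by positivity)
    have hQ2 : (Q₂ : ℤ) * δ ≤ ((max Q₁ Q₂ : ℕ) : ℤ) * δ := by
      have : Q₂ ≤ max Q₁ Q₂ := le_max_right _ _
      exact mul_le_mul_of_nonneg_right (by exact_mod_cast this) (by positivity)
    -- the use of the induction hypothesis
    have hih : ∀ (J : Type) [Fintype J], Fintype.card J ≤ N → ∀ (m' : J → Fin n → ℕ),
        (∀ j l, m' j l ≤ δ) → ∀ g' : J → Ωˣ,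
        (∀ j, dg L ((g' j : Ω) ^ k) ≤ max d (d * (Q₁ * C₁))) → pol m' g' = pol m g →
        ∃ (e : Fin n → ℤ) (γ : Ωˣ), e ≠ 0 ∧ (∀ l, |e l| ≤ ((max Q₁ Q₂ : ℕ) : ℤ) * δ) ∧
          (∀ x ∈ V, ch e x = γ) ∧ dg L ((γ : Ω) ^ k) ≤ max C₂ (C₁ * (d * d)) := by
      intro J _ hJ m' hm' g' hg' hpol
      obtain ⟨e, γ, he, hel, hch, hdg⟩ := h₂ L n V X hV hXV hI J hJ m' δ hm' hδ2 g' k hk hg'
        (by rw [hpol]; exact hne) (by rw [hpol]; exact hmem)
      exact ⟨e, γ, he, fun l => (hel l).trans hQ2, hch, hdg.trans (le_max_left _ _)⟩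
    rcases Nat.lt_or_ge N (Fintype.card I) with hc | hc
    swap
    · exact hih I hc m hm g (fun j => (hg j).trans (le_max_left _ _)) rfl
    have hcI : Fintype.card I = N + 1 := le_antisymm hcard hc
    let f : I ≃ Fin (N + 1) := Fintype.equivFinOfCardEq hcI
    have hG : ∀ x ∈ V, ∑ j : Fin (N + 1), (g (f.symm j) : Ω) * (mon (m (f.symm j)) x : Ω) = 0 := by
      intro x hx
      have e1 : aeval (crd x) (pol m g) = 0 := hmem _ ⟨x, hx, rfl⟩
      rw [pol_eval] at e1
      rw [← e1]
      exact f.symm.sum_comp fun j => (g j : Ω) * (mon (m j) x : Ω)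
    obtain ⟨a', b', hab', γ, hγ, hdg⟩ := h₁ L n V X hV hXV hI (fun j => m (f.symm j)) δ
      (fun j l => hm _ l) hδ1 (fun j => g (f.symm j)) k hk (fun j => hg _) hG
    obtain ⟨a, ha⟩ : ∃ a : I, a = f.symm a' := ⟨_, rfl⟩
    obtain ⟨b, hb⟩ : ∃ b : I, b = f.symm b' := ⟨_, rfl⟩
    have hab : a ≠ b := by
      rw [ha, hb]
      exact fun h => hab' (f.symm.injective h)
    simp only [← ha, ← hb] at hγ hdg
    by_cases hmab : m a = m b
    · -- merging
      obtain ⟨x₀, hx₀⟩ := prime_nonempty hV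
      have hγ1 : γ = 1 := by
        rw [← hγ x₀ hx₀, hmab, div_self', one_pow]
      have hu1 : dg L (((g a / g b : Ωˣ) : Ω) ^ Q₁) ≤ C₁ := by
        rw [hγ1, one_mul, Units.val_pow_eq_pow_val] at hdg
        exact hdg
      have hu : dg L ((g a / g b : Ωˣ) : Ω) ≤ Q₁ * C₁ :=
        (dg_root L _ Q₁ hQ₁).trans (Nat.mul_le_mul_left _ hu1)
      have hpol : pol m g = term (m b) ((g a : Ω) + g b) +
          ∑ j ∈ (Finset.univ.erase a).erase b, term (m j) (g j : Ω) := by
        unfold pol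
        rw [← Finset.add_sum_erase Finset.univ _ (Finset.mem_univ a),
          ← Finset.add_sum_erase (Finset.univ.erase a) _
            (Finset.mem_erase.2 ⟨hab.symm, Finset.mem_univ b⟩), ← add_assoc, term_add, hmab]
      by_cases hz : (g a : Ω) + g b = 0
      · refine hih {j : I // j ≠ b ∧ j ≠ a} ?_ (fun j => m j.1) (fun j l => hm _ l)
          (fun j => g j.1) (fun j => (hg _).trans (le_max_left _ _)) ?_
        · have := Fintype.card_subtype_lt (p := fun j : I => j ≠ b ∧ j ≠ a) (x := a)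
            (fun h => h.2 rfl)
          omega
        · rw [hpol, hz, term_zero, zero_add]
          unfold pol
          rw [Finset.sum_subtype ((Finset.univ.erase a).erase b)
            (p := fun j : I => j ≠ b ∧ j ≠ a) (fun j => by
              rw [Finset.mem_erase, Finset.mem_erase]
              simp) (fun j => term (m j) (g j : Ω))]
      · let G : I → Ωˣ := fun j => if j = b then Units.mk0 _ hz else g j
        refine hih {j : I // j ≠ a} ?_ (fun j => m j.1) (fun j l => hm _ l)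
          (fun j => G j.1) ?_ ?_
        · have := Fintype.card_subtype_lt (p := fun j : I => j ≠ a) (x := a)
            (fun h => h rfl)
          omega
        · intro j
          by_cases hj : j.1 = b
          · have e1 : G j.1 = Units.mk0 _ hz := if_pos hj
            rw [e1, Units.val_mk0]
            have e2 : ((g a : Ω) + g b) ^ k =
                ((g b : Ω) ^ k) * (1 + ((g a / g b : Ωˣ) : Ω)) ^ k := by
              rw [← mul_pow]
              congr 1
              rw [Units.val_div_eq_div_val, mul_add, mul_one, mul_div_cancel₀ _ (Units.ne_zero _),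
                add_comm]
            rw [e2]
            refine (dg_mul L _ _).trans (le_trans ?_ (le_max_right _ _))
            refine Nat.mul_le_mul (hg b) ?_
            refine (dg_pow_le L _ k).trans ?_
            rw [dg_one_add]
            exact hu
          · have e1 : G j.1 = g j.1 := if_neg hj
            rw [e1]
            exact (hg _).trans (le_max_left _ _)
        · have e0 : pol (fun j : {j : I // j ≠ a} => m j.1) (fun j => G j.1) =
              ∑ j ∈ Finset.univ.erase a, term (m j) (G j : Ω) := by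
            unfold pol
            rw [Finset.sum_subtype (Finset.univ.erase a) (p := fun j : I => j ≠ a) (fun j => by
              rw [Finset.mem_erase]
              simp) (fun j => term (m j) (G j : Ω))]
          rw [e0, hpol, ← Finset.add_sum_erase (Finset.univ.erase a) _
            (Finset.mem_erase.2 ⟨hab.symm, Finset.mem_univ b⟩)]
          have e1 : G b = Units.mk0 _ hz := if_pos rfl
          rw [e1, Units.val_mk0]
          congr 1
          refine Finset.sum_congr rfl fun j hj => ?_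
          have e2 : G j = g j := if_neg (Finset.ne_of_mem_erase hj)
          rw [e2]
    · -- different monomials
      refine ⟨fun l => (Q₁ : ℤ) * ((m a l : ℤ) - m b l), γ, ?_, ?_, ?_, ?_⟩
      · intro h0
        apply hmab
        funext l
        have h1 : (Q₁ : ℤ) * ((m a l : ℤ) - m b l) = 0 := congrFun h0 l
        have hQ0 : (Q₁ : ℤ) ≠ 0 := by
          have : Q₁ ≠ 0 := by omega
          exact_mod_cast this
        have h2 := (mul_eq_zero.1 h1).resolve_left hQ0
        omega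
      · intro l
        refine le_trans ?_ hQ1
        rw [abs_mul, Nat.abs_cast]
        apply mul_le_mul_of_nonneg_left _ (by positivity)
        have h1 := hm a l
        have h2 := hm b l
        rw [abs_le]
        constructor <;> omega
      · intro x hx
        rw [ch_ratio]
        exact hγ x hx
      · refine le_trans ?_ (le_max_right _ _)
        have e1 : ((γ : Ωˣ) : Ω) ^ k = (((γ * (g a / g b) ^ Q₁ : Ωˣ) : Ω) ^ k) *
            ((((g b : Ω) ^ k) ^ Q₁) * ((((g a : Ω) ^ k)⁻¹) ^ Q₁)) := by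
          have hga : (g a : Ω) ≠ 0 := Units.ne_zero _
          have hgb : (g b : Ω) ≠ 0 := Units.ne_zero _
          have hA : (g a : Ω) ^ (Q₁ * k) ≠ 0 := pow_ne_zero _ hga
          have hB : (g b : Ω) ^ (Q₁ * k) ≠ 0 := pow_ne_zero _ hgb
          rw [Units.val_mul, Units.val_pow_eq_pow_val, Units.val_div_eq_div_val, mul_pow,
            ← pow_mul, ← pow_mul, inv_pow, ← pow_mul, div_pow, mul_comm k Q₁]
          generalize (g a : Ω) ^ (Q₁ * k) = A at hA
          generalize (g b : Ω) ^ (Q₁ * k) = B at hB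
          field_simp
        rw [e1]
        refine (dg_mul L _ _).trans (Nat.mul_le_mul ((dg_pow_le L _ k).trans hdg) ?_)
        refine (dg_mul L _ _).trans (Nat.mul_le_mul ((dg_pow_le L _ Q₁).trans (hg b)) ?_)
        refine (dg_pow_le L _ Q₁).trans ?_
        rw [dg_inv]
        exact hg a

end Pool.Agent.H11.TH
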