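import Pool.Agent.H11.TH.KerP

/-!
# Module Tran: a coset of small type is a torsion coset

`e = k * e₀`, `k ≥ 1`, `e₀` with `∑ e₀_l f_l = 1` (`k = gcd` of the `e_l`, `Finset.gcd`/`Finset.extract_gcd` and Bezout
`Finset.exists_sum_eq_gcd`.. or by hand; `e ≠ 0`). For `x ∈ V`: `(ch e₀ x)^k = ch e x = γ`. The finitely many `k`-th roots
`c` of `γ` in `Ωˣ` (a finset `s`) and `irr_cover` with `X = V`, `e i = e₀`: `ch e₀ x = γ₁` for all `x ∈ V`, `γ₁^k = γ`.
`x₀ l = γ₁^(f l)`: `ch e₀ x₀ = γ₁^(∑ e₀_l f_l) = γ₁`; `γ₁^(k m) = γ^m ∈ E`, so `(x₀ l)^(k m) ∈ E`.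
`B = {x | ch e₀ x = 1}` (a subgroup: the kernel of the homomorphism `ch e₀`), `x ∈ V` is `(x x₀⁻¹) x₀`,
`ch e₀ (x x₀⁻¹) = 1`. `B x₀ ≠ univ`: some `e₀ l ≠ 0`; there is `t ∈ Ωˣ` with `t^(e₀ l) ≠ γ₁` (infinitely many values of
`t ↦ t^(e₀ l)`, or: the point `x₀ * y` with `ch e₀ y ≠ 1`, `y = Pi.mulSingle l t`, `t = 2` or not a root of unity..,
`ch e₀ y = 2^(e₀ l) ≠ 1` in characteristic zero).
-/

set_option autoImplicit false
set_option linter.unusedSectionVars false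

open MvPolynomial

namespace Pool.Agent.H11.TH

private theorem primitive {n : ℕ} (e : Fin n → ℤ) (he : e ≠ 0) : ∃ (k : ℕ) (e₀ f : Fin n → ℤ),
    1 ≤ k ∧ (∀ l, e l = k * e₀ l) ∧ ∑ l, e₀ l * f l = 1 := by
  classical
  obtain ⟨l₀, hl₀⟩ : ∃ l, e l ≠ 0 := by
    by_contra hcon
    push Not at hcon
    exact he (funext hcon)
  obtain ⟨g, hg1, hg2⟩ := Finset.extract_gcd e (s := Finset.univ) ⟨l₀, Finset.mem_univ _⟩
  obtain ⟨f, hf⟩ := Finset.gcd_eq_sum_mul Finset.univ g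
  have h0 : Finset.univ.gcd e ≠ 0 := by
    intro h
    exact hl₀ (Finset.gcd_eq_zero_iff.1 h l₀ (Finset.mem_univ _))
  have hn : 0 ≤ Finset.univ.gcd e := Int.nonneg_of_normalize_eq_self Finset.normalize_gcd
  refine ⟨(Finset.univ.gcd e).toNat, g, f, ?_, fun l => ?_, ?_⟩
  · omega
  · rw [Int.toNat_of_nonneg hn]
    exact hg1 l (Finset.mem_univ _)
  · rw [← hg2, hf]

theorem tran {K Ω : Type} [Field K] [Field Ω] [CharZero Ω] [IsAlgClosed Ω] [Algebra K Ω]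
    {n : ℕ} (V : Set (Tor Ω n)) (hV : (idl V).IsPrime) (E : Subgroup Ωˣ) (e : Fin n → ℤ)
    (he : e ≠ 0) (γ : Ωˣ) (hγ : ∀ x ∈ V, ch e x = γ) (hE : ∃ m : ℕ, 1 ≤ m ∧ γ ^ m ∈ E) :
    ∃ (B : Subgroup (Tor Ω n)) (x₀ : Tor Ω n),
      ClosedOver (⊤ : IntermediateField K Ω) (B : Set (Tor Ω n)) ∧
      (idl (B : Set (Tor Ω n))).IsPrime ∧ (∃ m : ℕ, 1 ≤ m ∧ ∀ l, x₀ l ^ m ∈ E) ∧
      (fun b => b * x₀) '' (B : Set (Tor Ω n)) ≠ Set.univ ∧
      V ⊆ (fun b => b * x₀) '' (B : Set (Tor Ω n)) := by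
  classical
  obtain ⟨k, e₀, f, hk, hek, hef⟩ := primitive e he
  obtain ⟨m, hm, hmE⟩ := hE
  have hmul : ∀ (a : Fin n → ℤ) (x y : Tor Ω n), ch a (x * y) = ch a x * ch a y := by
    intro a x y
    unfold ch
    rw [← Finset.prod_mul_distrib]
    exact Finset.prod_congr rfl fun l _ => mul_zpow _ _ _
  have hchk : ∀ x : Tor Ω n, ch e x = ch e₀ x ^ k := by
    intro x
    unfold ch
    rw [← Finset.prod_pow]
    refine Finset.prod_congr rfl fun l _ => ?_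
    rw [hek l, mul_comm, zpow_mul, zpow_natCast]
  -- the k-th roots
  have hfin : {c : Ωˣ | c ^ k = γ}.Finite := by
    have h1 : {c : Ω | c ^ k = (γ : Ω)}.Finite := by
      refine Set.Finite.subset (Polynomial.nthRoots k (γ : Ω)).toFinset.finite_toSet ?_
      intro c hc
      rw [Finset.mem_coe, Multiset.mem_toFinset, Polynomial.mem_nthRoots (by omega)]
      exact hc
    refine Set.Finite.of_finite_image (f := fun c : Ωˣ => (c : Ω)) (h1.subset ?_)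
      (fun a _ b _ hab => Units.ext hab)
    rintro _ ⟨c, hc, rfl⟩
    have h2 : c ^ k = γ := hc
    show (c : Ω) ^ k = γ
    rw [← h2]
    push_cast
    rfl
  obtain ⟨γ₁, hγ₁, hV₁⟩ := irr_cover hV (le_refl (idl V)) hfin.toFinset (fun _ => e₀) (fun c => c)
    (fun x hx => ⟨ch e₀ x, by
      rw [Set.Finite.mem_toFinset]
      show ch e₀ x ^ k = γ
      rw [← hchk, hγ x hx], rfl⟩)
  rw [Set.Finite.mem_toFinset] at hγ₁
  have hγk : γ₁ ^ k = γ := hγ₁
  -- the subgroup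
  let B : Subgroup (Tor Ω n) :=
    { carrier := {x | ch e₀ x = 1}
      one_mem' := by
        show ch e₀ 1 = 1
        unfold ch
        simp
      mul_mem' := by
        intro a b ha hb
        show ch e₀ (a * b) = 1
        rw [hmul, show ch e₀ a = 1 from ha, show ch e₀ b = 1 from hb, mul_one]
      inv_mem' := by
        intro a ha
        have h1 := hmul e₀ a a⁻¹
        rw [mul_inv_cancel, show ch e₀ a = 1 from ha, one_mul] at h1
        show ch e₀ a⁻¹ = 1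
        rw [← h1]
        unfold ch
        simp }
  have hB : (B : Set (Tor Ω n)) = {x | ch e₀ x = 1} := rfl
  have hx₀ : ch e₀ (fun l => γ₁ ^ f l) = γ₁ := by
    unfold ch
    have h1 : ∀ l, (γ₁ ^ f l) ^ e₀ l = γ₁ ^ (e₀ l * f l) := by
      intro l
      rw [← zpow_mul, mul_comm]
    have h2 : ∀ s : Finset (Fin n), ∏ l ∈ s, γ₁ ^ (e₀ l * f l) = γ₁ ^ (∑ l ∈ s, e₀ l * f l) := by
      intro s
      induction s using Finset.induction_on with
      | empty => simp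
      | insert a s ha ih => rw [Finset.prod_insert ha, Finset.sum_insert ha, ih, zpow_add]
    rw [Finset.prod_congr rfl fun l _ => h1 l, h2, hef, zpow_one]
  refine ⟨B, fun l => γ₁ ^ f l, ?_, ?_, ⟨k * m, Nat.mul_pos (by omega) (by omega), ?_⟩, ?_, ?_⟩
  · rw [hB]
    exact ker_closed _ e₀
  · rw [hB]
    exact ker_prime e₀ f hef
  · intro l
    have h1 : (γ₁ ^ f l) ^ (k * m) = (γ ^ m) ^ f l := by
      rw [← hγk, ← pow_mul, ← zpow_natCast, ← zpow_natCast, ← zpow_mul, ← zpow_mul, mul_comm]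
    rw [h1]
    exact Subgroup.zpow_mem _ hmE _
  · intro hU
    obtain ⟨l₀, hl₀⟩ : ∃ l, e₀ l ≠ 0 := by
      by_contra hcon
      push Not at hcon
      rw [Finset.sum_eq_zero fun l _ => by rw [hcon l, zero_mul]] at hef
      exact zero_ne_one hef
    have h2 : (2 : Ω) ≠ 0 := two_ne_zero
    obtain ⟨y, hy⟩ : ∃ y : Tor Ω n, y = Pi.mulSingle l₀ (Units.mk0 (2 : Ω) h2) := ⟨_, rfl⟩
    have hchy : ch e₀ y = (Units.mk0 (2 : Ω) h2) ^ e₀ l₀ := by
      unfold ch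
      rw [Finset.prod_eq_single l₀]
      · rw [hy, Pi.mulSingle_eq_same]
      · intro l _ hl
        rw [hy, Pi.mulSingle_eq_of_ne hl, one_zpow]
      · intro h
        exact absurd (Finset.mem_univ _) h
    have hmem : y * (fun l => γ₁ ^ f l) ∈ (fun b => b * (fun l => γ₁ ^ f l)) '' (B : Set (Tor Ω n)) := by
      rw [hU]
      exact Set.mem_univ _
    obtain ⟨b, hb, hby⟩ := hmem
    have hby' : b * (fun l => γ₁ ^ f l) = y * (fun l => γ₁ ^ f l) := hby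
    have hb1 : b = y := mul_right_cancel hby'
    rw [hb1, hB] at hb
    have hb2 : ch e₀ y = 1 := hb
    rw [hchy] at hb2
    have h3 : ((2 : Ω)) ^ e₀ l₀ = 1 := by
      have h4 := congrArg (fun u : Ωˣ => (u : Ω)) hb2
      simpa using h4
    have h5 : ((2 : ℚ)) ^ e₀ l₀ = 1 := by
      have h6 : (((2 : ℚ) ^ e₀ l₀ : ℚ) : Ω) = ((1 : ℚ) : Ω) := by
        push_cast
        exact h3
      exact_mod_cast h6
    have h7 := zpow_eq_one_iff_right₀ (a := (2 : ℚ)) (by norm_num) (by norm_num) (n := e₀ l₀)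
    exact hl₀ (h7.1 h5)
  · intro x hx
    refine ⟨x * (fun l => γ₁ ^ f l)⁻¹, ?_, ?_⟩
    · rw [hB]
      show ch e₀ (x * (fun l => γ₁ ^ f l)⁻¹) = 1
      have h1 := hmul e₀ (x * (fun l => γ₁ ^ f l)⁻¹) (fun l => γ₁ ^ f l)
      rw [inv_mul_cancel_right, hx₀, hV₁ x hx] at h1
      exact mul_right_cancel (b := γ₁) (by rw [one_mul]; exact h1.symm)
    · show x * (fun l => γ₁ ^ f l)⁻¹ * (fun l => γ₁ ^ f l) = x
      rw [inv_mul_cancel_right]

end Pool.Agent.H11.TH
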