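import Pool.Agent.H11.TH.IfaceK
import Pool.Agent.H11.TH.Mrg
import Pool.Agent.H11.TH.Tran
import Pool.Agent.H11.TH.Deg
import Pool.Agent.H72.RM.BaseB
import Pool.Agent.H72.PB.HNonneg
import Pool.Agent.H72.PB.OrbB

/-!
# Module FinH: Theorem H (assembly)
-/

set_option autoImplicit false
set_option linter.unusedSectionVars false

open NumberField MvPolynomial

namespace Pool.Agent.H11.TH

open Pool.Agent.H72.PB

section

variable {Ω : Type} [Field Ω] {n : ℕ}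

/-- the saturation of `Γ` -/
def SatS (Γ : Subgroup (Tor Ω n)) : Set (Tor Ω n) := {x | ∃ m : ℕ, 1 ≤ m ∧ x ^ m ∈ Γ}

/-- `V` is not contained in a proper torsion coset -/
def Transv (K : Type) [Field K] [Algebra K Ω] (Γ : Subgroup (Tor Ω n)) (V : Set (Tor Ω n)) :
    Prop :=
  ∀ (B : Subgroup (Tor Ω n)) (γ : Tor Ω n),
    ClosedOver (⊤ : IntermediateField K Ω) (B : Set (Tor Ω n)) →
    (idl (B : Set (Tor Ω n))).IsPrime → γ ∈ SatS Γ →
    (fun b => b * γ) '' (B : Set (Tor Ω n)) ≠ Set.univ →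
    ¬ V ⊆ (fun b => b * γ) '' (B : Set (Tor Ω n))

/-- the field generated by the coordinates -/
noncomputable def fldO (K : Type) [Field K] [Algebra K Ω] (Γ : Subgroup (Tor Ω n)) :
    IntermediateField K Ω :=
  IntermediateField.adjoin K {y | ∃ γ ∈ Γ, ∃ i, y = crd γ i}

end

variable {K Ω : Type} [Field K] [NumberField K] [Field Ω] [CharZero Ω] [IsAlgClosed Ω]
  [Algebra K Ω] [IsGalois K Ω]

/-- transversality excludes constants in the saturation -/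
theorem not_sat {n : ℕ} (Λ : Subgroup Ωˣ) (Γ : Subgroup (Tor Ω n))
    (h1 : ∀ x : Tor Ω n, (∀ l, x l ∈ Λ) → x ∈ Γ) (V : Set (Tor Ω n)) (hV : (idl V).IsPrime)
    (ht : Transv K Γ V) (e : Fin n → ℤ) (he : e ≠ 0) (γ : Ωˣ) (hγ : ∀ x ∈ V, ch e x = γ) :
    ∀ m : ℕ, 1 ≤ m → γ ^ m ∉ Λ := by
  intro m hm hmem
  obtain ⟨B, x₀, hB1, hB2, ⟨k, hk, hx₀⟩, hne, hsub⟩ :=
    tran (K := K) V hV Λ e he γ hγ ⟨m, hm, hmem⟩
  exact ht B x₀ hB1 hB2 ⟨k, hk, h1 _ fun l => hx₀ l⟩ hne hsub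

include K in
/-- heights of values of characters -/
theorem ht_ch {n : ℕ} (e : Fin n → ℤ) (x : Tor Ω n) (A : ℝ) (hA : ∀ l, |(e l : ℝ)| ≤ A) :
    absLogHeight₁ ((ch e x : Ωˣ) : Ω) ≤ A * ht x := by
  classical
  have hint : ∀ z : Ω, IsIntegral ℚ z := fun z => int_all K z
  have hzp : ∀ l, absLogHeight₁ ((x l ^ e l : Ωˣ) : Ω) = |(e l : ℝ)| * absLogHeight₁ (crd x l) := by
    intro l
    rw [Units.val_zpow_eq_zpow_val, Pool.Agent.H72.RM.absLogHeight_zpow]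
    rfl
  have hmul : ∀ s : Finset (Fin n), absLogHeight₁ ((∏ l ∈ s, x l ^ e l : Ωˣ) : Ω) ≤
      ∑ l ∈ s, |(e l : ℝ)| * absLogHeight₁ (crd x l) := by
    intro s
    induction s using Finset.induction_on with
    | empty =>
      rw [Finset.prod_empty, Finset.sum_empty]
      have h := Pool.Agent.H72.RM.absLogHeight_zpow (1 : Ω) 0
      rw [zpow_zero] at h
      simp only [Int.cast_zero, abs_zero, zero_mul] at h
      rw [Units.val_one, h]
    | insert a s ha ih =>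
      rw [Finset.prod_insert ha, Finset.sum_insert ha, Units.val_mul]
      refine (Pool.Agent.H4.RR.absLogHeight_mul_le Ω _ _ (hint _) (hint _)).trans ?_
      exact add_le_add (hzp a).le ih
  unfold ch ht
  refine (hmul Finset.univ).trans ?_
  rw [Finset.mul_sum]
  refine Finset.sum_le_sum fun l _ => ?_
  exact mul_le_mul_of_nonneg_right (hA l) (ht_nonneg _)

omit [CharZero Ω] [IsAlgClosed Ω] [IsGalois K Ω] [NumberField K] in
theorem fldO_eq {n : ℕ} (Γ : Subgroup (Tor Ω n)) :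
    fldO K Γ = fld K ((Subgroup.closure {y : Ωˣ | ∃ γ ∈ Γ, ∃ i, y = γ i} : Subgroup Ωˣ) : Set Ωˣ) := by
  unfold fldO fld
  apply le_antisymm
  · rw [IntermediateField.adjoin_le_iff]
    rintro y ⟨γ, hγ, i, rfl⟩
    exact IntermediateField.subset_adjoin K _ ⟨γ i, Subgroup.subset_closure ⟨γ, hγ, i, rfl⟩, rfl⟩
  · rw [IntermediateField.adjoin_le_iff]
    rintro y ⟨x, hx, rfl⟩
    refine Subgroup.closure_induction (p := fun (x : Ωˣ) _ => (x : Ω) ∈ IntermediateField.adjoin K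
      {y | ∃ γ ∈ Γ, ∃ i, y = crd γ i}) ?_ ?_ ?_ ?_ hx
    · rintro x ⟨γ, hγ, i, rfl⟩
      exact IntermediateField.subset_adjoin K _ ⟨γ, hγ, i, rfl⟩
    · simp
    · intro x y _ _ hx hy
      rw [Units.val_mul]
      exact mul_mem hx hy
    · intro x _ hx
      rw [Units.val_inv_eq_inv_val]
      exact inv_mem hx

omit [NumberField K] [CharZero Ω] [IsAlgClosed Ω] [IsGalois K Ω] in
/-- a proper closed subset is contained in a hypersurface -/
theorem idl_ne_bot {n : ℕ} (L : IntermediateField K Ω) (Z : Set (Tor Ω n))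
    (hZ : ClosedOver L Z) (hne : Z ≠ Set.univ) : idl Z ≠ ⊥ := by
  obtain ⟨J, hJ⟩ := hZ
  obtain ⟨y, hy⟩ := (Set.ne_univ_iff_exists_notMem _).1 hne
  rw [hJ] at hy
  simp only [Set.mem_ofPred_eq, mem_zeroLocus_iff, not_forall] at hy
  obtain ⟨f, hf, hfy⟩ := hy
  intro hbot
  have hgx : ∀ x : Tor Ω n, aeval (crd x) (map (algebraMap L Ω) f) = aeval (crd x) f := by
    intro x
    rw [aeval_map_algebraMap]
  have h1 : map (algebraMap L Ω) f ∈ idl Z := by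
    unfold idl
    rw [mem_vanishingIdeal_iff]
    rintro _ ⟨x, hx, rfl⟩
    rw [hgx]
    rw [hJ] at hx
    exact hx f hf
  rw [hbot, Ideal.mem_bot] at h1
  apply hfy
  rw [← hgx, h1, map_zero]

omit [NumberField K] [CharZero Ω] [IsAlgClosed Ω] [IsGalois K Ω] in
/-- a zero-free selection of the terms -/
theorem term_coeff {n : ℕ} (a : Fin n → ℕ) (c : Ω) (b : Fin n →₀ ℕ) :
    (term a c).coeff b = if Finsupp.equivFunOnFinite.symm a = b then c else 0 := by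
  unfold term
  rw [coeff_monomial]

theorem select {Ω : Type} [Field Ω] {n N : ℕ} (m : Fin N → Fin n → ℕ) (g : Fin N → Ω)
    (G : MvPolynomial (Fin n) Ω) (hG : G = ∑ j, term (m j) (g j)) :
    ∃ (I : Type) (_ : Fintype I) (f : I → Fin N) (g' : I → Ωˣ), Fintype.card I ≤ N ∧
      (∀ i, (g' i : Ω) = g (f i)) ∧ pol (fun i => m (f i)) g' = G ∧
      ∀ i l, m (f i) l ≤ G.degreeOf l := by
  classical
  refine ⟨{j : Fin N // g j ≠ 0 ∧ G.coeff (Finsupp.equivFunOnFinite.symm (m j)) ≠ 0},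
    inferInstance, fun i => i.1, fun i => Units.mk0 (g i.1) i.2.1, ?_, fun i => rfl, ?_, ?_⟩
  · exact (Fintype.card_subtype_le _).trans (by rw [Fintype.card_fin])
  · ext b
    unfold pol
    have h1 : ∀ (s : Finset (Fin N)), (∑ j ∈ s, term (m j) (g j)).coeff b =
        ∑ j ∈ s, if Finsupp.equivFunOnFinite.symm (m j) = b then g j else 0 := by
      intro s
      rw [coeff_sum]
      exact Finset.sum_congr rfl fun j _ => term_coeff _ _ _
    have h2 : ∑ j ∈ Finset.univ.filter (fun j : Fin N => g j ≠ 0 ∧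
          G.coeff (Finsupp.equivFunOnFinite.symm (m j)) ≠ 0), term (m j) (g j) =
        ∑ i : {j : Fin N // g j ≠ 0 ∧
          G.coeff (Finsupp.equivFunOnFinite.symm (m j)) ≠ 0}, term (m i.1) (g i.1) :=
      Finset.sum_subtype _ (by intro x; simp) _
    have h3 : (∑ i : {j : Fin N // g j ≠ 0 ∧
        G.coeff (Finsupp.equivFunOnFinite.symm (m j)) ≠ 0},
        term (m i.1) ((Units.mk0 (g i.1) i.2.1 : Ωˣ) : Ω)) =
        ∑ i : {j : Fin N // g j ≠ 0 ∧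
        G.coeff (Finsupp.equivFunOnFinite.symm (m j)) ≠ 0}, term (m i.1) (g i.1) := rfl
    rw [h3, ← h2, h1]
    have h4 : G.coeff b = ∑ j, if Finsupp.equivFunOnFinite.symm (m j) = b then g j else 0 := by
      rw [← h1, ← hG]
    by_cases hb : G.coeff b = 0
    · rw [hb]
      refine Finset.sum_eq_zero fun j hj => ?_
      rw [Finset.mem_filter] at hj
      rw [if_neg]
      intro h5
      apply hj.2.2
      rw [h5, hb]
    · rw [h4, Finset.sum_filter]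
      refine Finset.sum_congr rfl fun j _ => ?_
      by_cases h5 : Finsupp.equivFunOnFinite.symm (m j) = b
      · rw [if_pos h5]
        by_cases h6 : g j = 0
        · rw [h6]
          split_ifs <;> rfl
        · rw [if_pos ⟨h6, by rw [h5]; exact hb⟩]
      · rw [if_neg h5]
        split_ifs <;> rfl
  · intro i l
    have h1 : Finsupp.equivFunOnFinite.symm (m i.1) ∈ G.support := by
      rw [mem_support_iff]
      exact i.2.2
    have h2 := monomial_le_degreeOf l h1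
    exact h2

variable (K) in
theorem thm_H (Λ : Subgroup Ωˣ) (hΛ : Λ.FG) (S : Finset ℕ) (hS : ∀ p ∈ S, p.Prime) (N d : ℕ) :
    ∃ c : ℝ, 0 < c ∧ ∀ (n : ℕ) (Γ : Subgroup (Tor Ω n)),
      (∀ x : Tor Ω n, (∀ l, x l ∈ Λ) → x ∈ Γ) →
      (∀ x ∈ Γ, ∀ l, ∃ m : ℕ, 1 ≤ m ∧ x l ^ m ∈ Λ) →
      ∀ V : Set (Tor Ω n), ClosedOver (⊤ : IntermediateField K Ω) V → V ≠ Set.univ →
      (idl V).IsPrime → Transv K Γ V →
      ∀ (m : Fin N → Fin n → ℕ) (g : Fin N → Ω),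
      (∀ j, ∃ k : ℕ, 1 ≤ k ∧ dg (N₀ K Λ S) (g j ^ k) ≤ d) →
      idl V = Ideal.span {∑ j, term (m j) (g j)} →
      ∀ θ : ℝ, idl {x | x ∈ V ∧ ht x ≤ θ} ≤ idl V →
      ∀ (Z : Set (Tor Ω n)) (d' : ℕ) (δ : ℝ), ClosedOver (fldO K Γ) Z → Z ≠ Set.univ →
        Equidim Z d' → HasDeg Z d' δ → V ⊆ Z → c ≤ δ ^ (1 / ((n : ℝ) - d')) * θ := by
  classical
  obtain ⟨ε, Q, C, hε, hQ, hP⟩ := prop_P K Ω N d
  obtain ⟨c₁, hc₁, hrad⟩ := rad_lehmer (K := K) Λ hΛ S hS C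
  have hQr : (0 : ℝ) < Q := by exact_mod_cast hQ
  refine ⟨min ε (c₁ / Q), lt_min hε (div_pos hc₁ hQr), ?_⟩
  intro n Γ hΓ1 hΓ2 V hVc hVne hV htr m g hg hid θ hθ Z d' δ hZ hZne hZd hZδ hVZ
  obtain ⟨G, hGd⟩ : ∃ G, G = ∑ j, term (m j) (g j) := ⟨_, rfl⟩
  rw [← hGd] at hid
  have hG0 : G ≠ 0 := by
    intro h0
    apply idl_ne_bot _ V hVc hVne
    rw [hid, h0, Ideal.span_singleton_eq_bot]
  obtain ⟨I, hI, f, g', hcard, hg', hpol, hdeg⟩ := select m g G hGd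
  have hn : d' + 1 ≤ n := dim_lt (fldO K Γ) Z hZ hZne d' hZd
  -- the degree
  obtain ⟨D, hD⟩ : ∃ D, D = Finset.univ.sup (fun l : Fin n => G.degreeOf l) := ⟨_, rfl⟩
  have hDl : ∀ l, G.degreeOf l ≤ D := fun l => by
    rw [hD]
    exact Finset.le_sup (f := fun l : Fin n => G.degreeOf l) (Finset.mem_univ l)
  have hne : Nonempty (Fin n) := ⟨⟨0, by omega⟩⟩
  obtain ⟨l₀, -, hl₀⟩ := Finset.exists_mem_eq_sup Finset.univ Finset.univ_nonempty
    (fun l : Fin n => G.degreeOf l)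
  rw [← hD] at hl₀
  obtain ⟨X, hX⟩ : ∃ X : Set (Tor Ω n), X = {x | x ∈ V ∧ ht x ≤ θ} := ⟨_, rfl⟩
  rw [← hX] at hθ
  have hXV : X ⊆ V := by
    rw [hX]
    exact fun x hx => hx.1
  obtain ⟨x₁, hx₁⟩ : X.Nonempty := by
    by_contra hcon
    rw [Set.not_nonempty_iff_eq_empty] at hcon
    apply hV.ne_top
    rw [eq_top_iff]
    refine le_trans ?_ hθ
    intro p _
    unfold idl
    rw [mem_vanishingIdeal_iff]
    rintro _ ⟨x, hx, rfl⟩
    rw [hcon] at hx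
    exact absurd hx (Set.notMem_empty x)
  have hxθ : ∀ x ∈ X, ht x ≤ θ := by
    rw [hX]
    exact fun x hx => hx.2
  have hht0 : ∀ x : Tor Ω n, 0 ≤ ht x := fun x => Finset.sum_nonneg fun l _ => ht_nonneg _
  have hθ0 : 0 ≤ θ := (hht0 x₁).trans (hxθ x₁ hx₁)
  have hom : ∀ (e : Fin n → ℤ) (γ : Ωˣ), (∀ x ∈ V, ch e x = γ) →
      (dg (fldO K Γ) (γ : Ω) : ℝ) * (D : ℝ) ≤ δ ^ (1 / ((n : ℝ) - d')) := by
    intro e γ hγ
    have h1 := omega_lower (fldO K Γ) V G hid Z d' δ hZ hZne hZd hZδ hVZ e γ hγ l₀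
    rw [← hl₀] at h1
    exact h1
  rcases lt_or_ge ε ((D : ℝ) * θ) with hbig | hsmall
  · -- large height
    refine (min_le_left _ _).trans ?_
    have h1 := hom 0 1 (fun x _ => by unfold ch; simp)
    have h2 : (1 : ℝ) ≤ dg (fldO K Γ) ((1 : Ωˣ) : Ω) := by
      exact_mod_cast dg_pos (fldO K Γ) ((1 : Ωˣ) : Ω)
    have h3 : (D : ℝ) ≤ δ ^ (1 / ((n : ℝ) - d')) := by
      refine le_trans ?_ h1
      exact le_mul_of_one_le_left (Nat.cast_nonneg D) h2
    exact hbig.le.trans (mul_le_mul_of_nonneg_right h3 hθ0)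
  · -- small height
    refine (min_le_right _ _).trans ?_
    choose k hk hkd using hg
    obtain ⟨kk, hkk⟩ : ∃ kk, kk = ∏ j, k j := ⟨_, rfl⟩
    have hkk1 : 1 ≤ kk := by
      rw [hkk]
      exact Nat.one_le_iff_ne_zero.2 (Finset.prod_ne_zero_iff.2 fun j _ => by have := hk j; omega)
    have hgk : ∀ i, dg (N₀ K Λ S) ((g' i : Ω) ^ kk) ≤ d := by
      intro i
      rw [hg' i]
      obtain ⟨q, hq⟩ : k (f i) ∣ kk := by
        rw [hkk]
        exact Finset.dvd_prod_of_mem _ (Finset.mem_univ _)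
      rw [hq, pow_mul]
      exact (dg_pow_le _ _ _).trans (hkd (f i))
    have hGV : pol (fun i => m (f i)) g' ∈ idl V := by
      rw [hpol, hid]
      exact Ideal.mem_span_singleton_self G
    obtain ⟨e, γ, he0, heQ, heV, heC⟩ := hP (N₀ K Λ S) n V X hV hXV hθ I hcard
      (fun i => m (f i)) D (fun i l => (hdeg i l).trans (hDl l))
      (fun x hx => (mul_le_mul_of_nonneg_left (hxθ x hx) (Nat.cast_nonneg D)).trans hsmall)
      g' kk hkk1 hgk (by rw [hpol]; exact hG0) hGV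
    have hsat := not_sat (K := K) Λ Γ hΓ1 V hV htr e he0 γ heV
    obtain ⟨E, hE⟩ : ∃ E : Subgroup Ωˣ, E = Subgroup.closure {y : Ωˣ | ∃ γ ∈ Γ, ∃ i, y = γ i} :=
      ⟨_, rfl⟩
    have hΛE : Λ ≤ E := by
      intro x hx
      rw [hE]
      exact Subgroup.subset_closure ⟨fun _ => x, hΓ1 _ fun _ => hx, l₀, rfl⟩
    have hEΛ : ∀ x ∈ E, ∃ m : ℕ, 1 ≤ m ∧ x ^ m ∈ Λ := by
      intro x hx
      rw [hE] at hx
      refine Subgroup.closure_induction (p := fun (x : Ωˣ) _ => ∃ m : ℕ, 1 ≤ m ∧ x ^ m ∈ Λ)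
        ?_ ?_ ?_ ?_ hx
      · rintro x ⟨γ, hγ, i, rfl⟩
        exact hΓ2 γ hγ i
      · exact ⟨1, le_rfl, by rw [one_pow]; exact one_mem Λ⟩
      · rintro x y _ _ ⟨a, ha, hxa⟩ ⟨b, hb, hyb⟩
        refine ⟨a * b, Nat.mul_pos ha hb, ?_⟩
        rw [mul_pow, pow_mul, mul_comm a b, pow_mul]
        exact mul_mem (pow_mem hxa b) (pow_mem hyb a)
      · rintro x _ ⟨a, ha, hxa⟩
        exact ⟨a, ha, by rw [inv_pow]; exact inv_mem hxa⟩
    have h1 := hrad E hΛE hEΛ γ hsat kk hkk1 heC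
    rw [hE, ← fldO_eq] at h1
    have h2 := hom e γ heV
    have h3 : absLogHeight₁ (γ : Ω) ≤ (Q * D : ℝ) * θ := by
      rw [← heV x₁ (hXV hx₁)]
      refine (ht_ch (K := K) e x₁ (Q * D : ℝ) ?_).trans
        (mul_le_mul_of_nonneg_left (hxθ x₁ hx₁) (by positivity))
      intro l
      have h4 := heQ l
      have h5 : ((|e l| : ℤ) : ℝ) ≤ (((Q : ℤ) * (D : ℤ) : ℤ) : ℝ) := by exact_mod_cast h4
      push_cast at h5
      exact h5
    rw [div_le_iff₀ hQr]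
    calc c₁ ≤ (dg (fldO K Γ) (γ : Ω) : ℝ) * absLogHeight₁ (γ : Ω) := h1
      _ ≤ (dg (fldO K Γ) (γ : Ω) : ℝ) * ((Q * D : ℝ) * θ) :=
          mul_le_mul_of_nonneg_left h3 (Nat.cast_nonneg _)
      _ = ((dg (fldO K Γ) (γ : Ω) : ℝ) * (D : ℝ)) * θ * Q := by ring
      _ ≤ δ ^ (1 / ((n : ℝ) - d')) * θ * Q := by
          refine mul_le_mul_of_nonneg_right (mul_le_mul_of_nonneg_right h2 hθ0) hQr.le

end Pool.Agent.H11.TH
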