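import Mathlib

/-!
# Module Free: a maximal free tuple of rows (Mathlib only)

Call a tuple `ρ : Fin r → Fin N → M` with values in `R` free if `(∏ i, ρ i (a i))^Q ≠ (∏ i, ρ i (b i))^Q` for all
`a ≠ b : Fin r → Fin N`. The empty tuple (`r = 0`) is free (there is only one function `Fin 0 → Fin N`), no tuple with
`r = N` is (`hR`). So there is `r < N` with a free tuple `ρ` of length `r` and no free tuple of length `r + 1`
(`Nat.find`, or induction). `F` = the image of `(Fin r → Fin N) × (Fin r → Fin N)` under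
`(a, b) ↦ (∏ ρ i (b i))^Q / (∏ ρ i (a i))^Q`, at most `N^r * N^r = N^(2r) ≤ N^(2N)` elements (`N ≥ 1`).
Let `ρ' ∈ R`: `Fin.snoc ρ ρ'` is not free: `a ≠ b : Fin (r+1) → Fin N` with equality (`Fin.prod_univ_castSucc`).
If `a (Fin.last r) = b (Fin.last r)` then the restrictions `a ∘ castSucc ≠ b ∘ castSucc` give equality for `ρ`
(cancel the last factor), a contradiction. So the last values are different and
`(ρ' (a last) / ρ' (b last))^Q = (∏ ρ i (b i))^Q / (∏ ρ i (a i))^Q ∈ F`.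
-/

set_option autoImplicit false

namespace Pool.Agent.H11.TH

theorem free_rows {M : Type} [CommGroup M] (N Q : ℕ) (hN : 1 ≤ N) (R : Set (Fin N → M))
    (hR : ∀ ρ : Fin N → Fin N → M, (∀ i, ρ i ∈ R) → ∃ a b : Fin N → Fin N, a ≠ b ∧
      (∏ i, ρ i (a i)) ^ Q = (∏ i, ρ i (b i)) ^ Q) :
    ∃ F : Finset M, F.card ≤ N ^ (2 * N) ∧
      ∀ ρ ∈ R, ∃ a b : Fin N, a ≠ b ∧ (ρ a / ρ b) ^ Q ∈ F := by
  classical
  obtain ⟨Fr, hFr⟩ : ∃ Fr : ℕ → Prop, ∀ r, Fr r ↔ ∃ ρ : Fin r → Fin N → M, (∀ i, ρ i ∈ R) ∧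
      ∀ a b : Fin r → Fin N, a ≠ b → (∏ i, ρ i (a i)) ^ Q ≠ (∏ i, ρ i (b i)) ^ Q :=
    ⟨_, fun _ => Iff.rfl⟩
  have h0 : Fr 0 := (hFr 0).2 ⟨fun i => i.elim0, fun i => i.elim0, fun a b hab =>
    absurd (Subsingleton.elim a b) hab⟩
  have hN' : ¬ Fr N := by
    rw [hFr]
    rintro ⟨ρ, h1, h2⟩
    obtain ⟨a, b, hab, h3⟩ := hR ρ h1
    exact h2 a b hab h3
  obtain ⟨r, hr, h1, h2⟩ : ∃ r, r < N ∧ Fr r ∧ ¬ Fr (r + 1) := by
    have hex : ∃ n, ¬ Fr n := ⟨N, hN'⟩
    have h3 := Nat.find_spec hex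
    have h4 := Nat.find_min' hex hN'
    rcases Nat.eq_zero_or_pos (Nat.find hex) with h5 | h5
    · rw [h5] at h3
      exact absurd h0 h3
    · refine ⟨Nat.find hex - 1, by omega, ?_, ?_⟩
      · have := Nat.find_min hex (m := Nat.find hex - 1) (by omega)
        exact not_not.1 this
      · rw [Nat.sub_add_cancel h5]
        exact h3
  obtain ⟨ρ, hρR, hρ⟩ := (hFr r).1 h1
  refine ⟨Finset.univ.image (fun p : (Fin r → Fin N) × (Fin r → Fin N) =>
    (∏ i, ρ i (p.2 i)) ^ Q / (∏ i, ρ i (p.1 i)) ^ Q), ?_, ?_⟩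
  · refine Finset.card_image_le.trans ?_
    rw [Finset.card_univ, Fintype.card_prod, Fintype.card_fun, Fintype.card_fin, Fintype.card_fin,
      ← pow_add]
    exact Nat.pow_le_pow_right hN (by omega)
  · intro ρ' hρ'
    rw [hFr] at h2
    push Not at h2
    obtain ⟨a, b, hab, h3⟩ := h2 (Fin.snoc (α := fun _ => Fin N → M) ρ ρ') (by
      intro i
      refine Fin.lastCases ?_ (fun j => ?_) i
      · rw [Fin.snoc_last]
        exact hρ'
      · rw [Fin.snoc_castSucc]
        exact hρR j)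
    rw [Fin.prod_univ_castSucc, Fin.prod_univ_castSucc] at h3
    simp only [Fin.snoc_castSucc, Fin.snoc_last] at h3
    have hne : a (Fin.last r) ≠ b (Fin.last r) := by
      intro he
      rw [he, mul_pow, mul_pow] at h3
      have h4 := mul_right_cancel h3
      refine hρ (fun i => a i.castSucc) (fun i => b i.castSucc) ?_ h4
      intro h5
      apply hab
      funext i
      refine Fin.lastCases he (fun j => ?_) i
      exact congrFun h5 j
    refine ⟨a (Fin.last r), b (Fin.last r), hne, ?_⟩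
    rw [Finset.mem_image]
    refine ⟨(fun i => a i.castSucc, fun i => b i.castSucc), Finset.mem_univ _, ?_⟩
    simp only
    rw [div_pow, div_eq_div_iff_mul_eq_mul, ← mul_pow, ← mul_pow, mul_comm (ρ' (a (Fin.last r)))]
    exact h3.symm

end Pool.Agent.H11.TH
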