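import Pool.Agent.H11.TH.Defs
import Pool.Agent.H92.SR.ZnVan

/-!
# Module IfaceL: Lemma L (helper92, think 1057)

Vanishing sums `∑ c_i m_i`, `c_i = ±1`, of at most `T` numbers `m_i = (root of unity) ∏_k y_k^(e_ik)` of small total
height: two of the `m_i` have the same `Q`-th power, `Q` depends on `T` only.
Proof. WLOG `T ≥ 2` (replace `T` by `T + 2`). `Q = T !`, `n_l = 1 + Q l` for `l < T`: every prime dividing `n_l` is `> T`.
`ε = log ((T+1)/T) / (2 T (1 + Q T))`. Apply `zn_van` (file `H92/SR/ZnVan.lean`) with `ζ i = u i`, `J = I`, `k = id` and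
`y i := ∏_k y_k^(e_ik)` (in `Ω`): its height is at most `∑_k δ_k h(y_k)` (`absLogHeight_mul_le` and `absLogHeight_pow`, file
`H4/RR/AbsHeight.lean`, heights are `≥ 0`: `ht_nonneg`, file `H72/PB/HNonneg.lean`), so
`n_l ∑_i h ≤ n_l T ε < log ((T+1)/T)`. So with `m_i = u_i y_i`: `∑_i c_i m_i (m_i^Q)^l = 0` for all `l < T`. If the `m_i^Q` were
pairwise different, then (`Matrix.det_vandermonde_ne_zero_iff`, or `Matrix.eq_zero_of_forall_pow_sum_mul_pow_eq_zero`
after a numbering of `I`; at most `T` nodes) all `c_i m_i = 0`, but `c_i = ±1`, `m_i ≠ 0` and `I` is not empty.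
-/

set_option autoImplicit false
set_option linter.unusedSectionVars false

open NumberField

namespace Pool.Agent.H11.TH

/-- the height of a product of powers -/
private theorem ht_prod {Ω : Type} [Field Ω] [CharZero Ω] {J : Type} (s : Finset J) (y : J → Ω)
    (hy : ∀ k, IsIntegral ℚ (y k)) (e δ : J → ℕ) (he : ∀ k, e k ≤ δ k) :
    IsIntegral ℚ (∏ k ∈ s, y k ^ e k) ∧
      absLogHeight₁ (∏ k ∈ s, y k ^ e k) ≤ ∑ k ∈ s, (δ k : ℝ) * absLogHeight₁ (y k) := by
  classical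
  induction s using Finset.induction_on with
  | empty =>
    rw [Finset.prod_empty, Finset.sum_empty]
    refine ⟨isIntegral_one, ?_⟩
    have h1 := Pool.Agent.H4.RR.absLogHeight_pow Ω (1 : Ω) isIntegral_one 0
    rw [pow_zero, Nat.cast_zero, zero_mul] at h1
    exact h1.le
  | insert a s ha ih =>
    rw [Finset.prod_insert ha, Finset.sum_insert ha]
    refine ⟨((hy a).pow _).mul ih.1, ?_⟩
    refine (Pool.Agent.H4.RR.absLogHeight_mul_le Ω _ _ ((hy a).pow _) ih.1).trans ?_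
    refine add_le_add ?_ ih.2
    rw [Pool.Agent.H4.RR.absLogHeight_pow Ω _ (hy a)]
    exact mul_le_mul_of_nonneg_right (by exact_mod_cast he a) (Pool.Agent.H72.PB.ht_nonneg _)

theorem lemma_L (K Ω : Type) [Field K] [NumberField K] [Field Ω] [CharZero Ω] [IsAlgClosed Ω]
    [Algebra K Ω] [IsGalois K Ω] (T : ℕ) :
    ∃ (ε : ℝ) (Q : ℕ), 0 < ε ∧ 1 ≤ Q ∧ ∀ (I J : Type) [Fintype I] [Fintype J],
      Fintype.card I ≤ T → Nonempty I → ∀ (c : I → ℤ), (∀ i, c i = 1 ∨ c i = -1) →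
      ∀ (u : I → Ωˣ), (∀ i, ∃ k : ℕ, 1 ≤ k ∧ u i ^ k = 1) → ∀ (y : J → Ωˣ) (δ : J → ℕ)
        (e : I → J → ℕ), (∀ i k, e i k ≤ δ k) →
      (∑ k, (δ k : ℝ) * absLogHeight₁ ((y k : Ωˣ) : Ω) ≤ ε) →
      (∑ i, (c i : Ω) * ((u i * ∏ k, y k ^ e i k : Ωˣ) : Ω) = 0) →
      ∃ i j, i ≠ j ∧ (u i * ∏ k, y k ^ e i k) ^ Q = (u j * ∏ k, y k ^ e j k) ^ Q := by
  classical
  obtain ⟨S, hS⟩ : ∃ S : ℕ, S = T + 2 := ⟨_, rfl⟩
  obtain ⟨Q, hQ⟩ : ∃ Q : ℕ, Q = Nat.factorial S := ⟨_, rfl⟩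
  have hQ1 : 1 ≤ Q := by
    rw [hQ]
    exact Nat.factorial_pos S
  have hS0 : (0 : ℝ) < S := by
    rw [hS]
    positivity
  have hL : 0 < Real.log ((S + 1 : ℝ) / S) := by
    apply Real.log_pos
    rw [lt_div_iff₀ hS0]
    linarith
  have hden : (0 : ℝ) < 2 * S * (1 + Q * S) := by positivity
  refine ⟨Real.log ((S + 1 : ℝ) / S) / (2 * S * (1 + Q * S)), Q, div_pos hL hden, hQ1, ?_⟩
  intro I J _ _ hIT hI c hc u hu y δ e he hsum h0
  by_contra hcon
  push Not at hcon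
  have hyint : ∀ k, IsIntegral ℚ ((y k : Ωˣ) : Ω) := by
    intro k
    have h1 : IsAlgebraic K ((y k : Ωˣ) : Ω) := Algebra.IsAlgebraic.isAlgebraic _
    have h2 : IsIntegral K ((y k : Ωˣ) : Ω) := h1.isIntegral
    exact isIntegral_trans (R := ℚ) (A := K) _ h2
  have hP := fun i => ht_prod Finset.univ (fun k => ((y k : Ωˣ) : Ω)) hyint (e i) δ (he i)
  have hcard : Fintype.card I ≤ S := by omega
  have key : ∀ l : ℕ, l < S →
      ∑ i, (c i : Ω) * (((u i : Ωˣ) : Ω) * ∏ k, ((y k : Ωˣ) : Ω) ^ e i k) ^ (1 + Q * l) = 0 := by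
    intro l hl
    refine Pool.Agent.H92.SR.zn_van S (by omega) hcard c (fun i => Or.inr (hc i))
      (fun i => ((u i : Ωˣ) : Ω)) (fun i => ?_) (fun i => ∏ k, ((y k : Ωˣ) : Ω) ^ e i k)
      (fun i => (hP i).1) id ?_ (1 + Q * l) (by omega) (fun q hq hqn => ?_) ?_
    · obtain ⟨k, hk, h1⟩ := hu i
      refine ⟨k, hk, ?_⟩
      rw [← Units.val_pow_eq_pow_val, h1, Units.val_one]
    · rw [← h0]
      refine Finset.sum_congr rfl fun i _ => ?_
      push_cast
      rfl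
    · by_contra hle
      push Not at hle
      have h1 : q ∣ Q := by
        rw [hQ]
        exact Nat.dvd_factorial hq.pos hle
      have h2 : q ∣ 1 := (Nat.dvd_add_left (h1.mul_right l)).1 hqn
      exact hq.one_lt.ne' (Nat.dvd_one.1 h2)
    · have h1 : ∑ i, absLogHeight₁ (∏ k, ((y k : Ωˣ) : Ω) ^ e i k) ≤
          S * (Real.log ((S + 1 : ℝ) / S) / (2 * S * (1 + Q * S))) := by
        calc ∑ i, absLogHeight₁ (∏ k, ((y k : Ωˣ) : Ω) ^ e i k)
            ≤ ∑ _i : I, Real.log ((S + 1 : ℝ) / S) / (2 * S * (1 + Q * S)) :=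
              Finset.sum_le_sum fun i _ => ((hP i).2).trans hsum
          _ = (Fintype.card I : ℝ) * (Real.log ((S + 1 : ℝ) / S) / (2 * S * (1 + Q * S))) := by
              rw [Finset.sum_const, Finset.card_univ, nsmul_eq_mul]
          _ ≤ _ := mul_le_mul_of_nonneg_right (by exact_mod_cast hcard)
              (div_pos hL hden).le
      have h2 : ((1 + Q * l : ℕ) : ℝ) ≤ 1 + Q * S := by
        push_cast
        have h3 : (l : ℝ) ≤ S := by exact_mod_cast hl.le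
        have h4 : (0 : ℝ) ≤ Q := Nat.cast_nonneg _
        nlinarith
      have h3 : (0 : ℝ) ≤ ((1 + Q * l : ℕ) : ℝ) := Nat.cast_nonneg _
      have h4 : (0 : ℝ) < 1 + Q * S := by positivity
      calc ((1 + Q * l : ℕ) : ℝ) * ∑ i, absLogHeight₁ (∏ k, ((y k : Ωˣ) : Ω) ^ e i k)
          ≤ (1 + Q * S) * (S * (Real.log ((S + 1 : ℝ) / S) / (2 * S * (1 + Q * S)))) :=
            mul_le_mul h2 h1 (Finset.sum_nonneg fun i _ => Pool.Agent.H72.PB.ht_nonneg _) h4.le
        _ = Real.log ((S + 1 : ℝ) / S) / 2 := by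
            field_simp
        _ < Real.log ((S + 1 : ℝ) / S) := by linarith
  -- Vandermonde
  obtain ⟨φ⟩ : Nonempty (Fin (Fintype.card I) ≃ I) := ⟨(Fintype.equivFin I).symm⟩
  obtain ⟨mm, hmm⟩ : ∃ mm : I → Ωˣ, ∀ i, mm i = u i * ∏ k, y k ^ e i k := ⟨_, fun _ => rfl⟩
  have hinj : Function.Injective (fun j : Fin (Fintype.card I) => ((mm (φ j) ^ Q : Ωˣ) : Ω)) := by
    intro a b hab
    by_contra hne
    apply hcon (φ a) (φ b) (fun h => hne (φ.injective h))
    rw [← hmm, ← hmm]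
    exact Units.ext hab
  have hz := Matrix.eq_zero_of_forall_pow_sum_mul_pow_eq_zero
    (v := fun j : Fin (Fintype.card I) => (c (φ j) : Ω) * (mm (φ j) : Ω)) hinj (fun l => by
      have h1 := key l (lt_of_lt_of_le l.2 hcard)
      rw [← h1]
      rw [← Equiv.sum_comp φ]
      refine Finset.sum_congr rfl fun j _ => ?_
      rw [hmm]
      push_cast
      ring)
  obtain ⟨i⟩ := hI
  have h1 := congrFun hz (φ.symm i)
  simp only [Equiv.apply_symm_apply, Pi.zero_apply] at h1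
  rcases mul_eq_zero.1 h1 with h2 | h2
  · rcases hc i with h3 | h3
    · rw [h3] at h2
      norm_num at h2
    · rw [h3] at h2
      norm_num at h2
  · exact (mm i).ne_zero h2

end Pool.Agent.H11.TH
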