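import Pool.Agent.H11.TH.Defs

/-!
# Module Irr: irreducible sets and finitely many cosets

Let `f_i = ∏_l X_l^(e_l⁺) - C (c_i) * ∏_l X_l^(e_l⁻)` (`e⁺ = (e i l).toNat`, `e⁻ = (- e i l).toNat`). For a point `x` of
the torus `aeval (crd x) f_i = 0` iff `ch (e i) x = c_i` (`x_l^(e⁺) = x_l^e x_l^(e⁻)` in `Ωˣ`, `x_l ≠ 0`).
By `h` the product `∏_(i ∈ s) f_i` vanishes on `X`, so it is in `idl X ≤ idl V`; `idl V` is prime, so one
factor `f_i`, `i ∈ s`, is in `idl V` (`Ideal.IsPrime.prod_mem_iff`), i.e. `ch (e i) x = c_i` for all `x ∈ V`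
(`mem_vanishingIdeal_iff`). Also `prime_nonempty`: `idl ∅ = ⊤` is not prime.
-/

set_option autoImplicit false
set_option linter.unusedSectionVars false

open MvPolynomial

namespace Pool.Agent.H11.TH

variable {Ω : Type} [Field Ω] {n : ℕ}

/-- the binomial `x^(e⁺) - c x^(e⁻)` -/
noncomputable def bin (e : Fin n → ℤ) (c : Ω) : MvPolynomial (Fin n) Ω :=
  ∏ l, X l ^ (e l).toNat - C c * ∏ l, X l ^ (-e l).toNat

theorem bin_zero_iff (e : Fin n → ℤ) (c : Ωˣ) (x : Tor Ω n) :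
    aeval (crd x) (bin e (c : Ω)) = 0 ↔ ch e x = c := by
  have h1 : aeval (crd x) (bin e (c : Ω)) =
      ((∏ l, x l ^ (e l).toNat : Ωˣ) : Ω) - ((c * ∏ l, x l ^ (-e l).toNat : Ωˣ) : Ω) := by
    unfold bin crd
    rw [map_sub, map_mul, map_prod, map_prod, aeval_C, Units.val_mul, Units.coe_prod,
      Units.coe_prod]
    simp only [map_pow, aeval_X, Units.val_pow_eq_pow_val]
    rfl
  have h2 : ch e x * ∏ l, x l ^ (-e l).toNat = ∏ l, x l ^ (e l).toNat := by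
    unfold ch
    rw [← Finset.prod_mul_distrib]
    refine Finset.prod_congr rfl fun l _ => ?_
    rw [← zpow_natCast (x l) (-e l).toNat, ← zpow_natCast (x l) (e l).toNat, ← zpow_add]
    congr 1
    omega
  rw [h1, sub_eq_zero, Units.val_inj, ← h2]
  exact mul_left_inj _

theorem prime_nonempty {V : Set (Tor Ω n)} (hV : (idl V).IsPrime) : V.Nonempty := by
  rw [Set.nonempty_iff_ne_empty]
  intro h
  apply hV.ne_top
  unfold idl
  rw [h, Set.image_empty, vanishingIdeal_empty]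

theorem irr_cover {V X : Set (Tor Ω n)} (hV : (idl V).IsPrime)
    (hX : idl X ≤ idl V) {I : Type} (s : Finset I) (e : I → Fin n → ℤ) (c : I → Ωˣ)
    (h : ∀ x ∈ X, ∃ i ∈ s, ch (e i) x = c i) : ∃ i ∈ s, ∀ x ∈ V, ch (e i) x = c i := by
  have h1 : ∏ i ∈ s, bin (e i) (c i : Ω) ∈ idl X := by
    unfold idl
    rw [mem_vanishingIdeal_iff]
    rintro _ ⟨x, hx, rfl⟩
    obtain ⟨i, hi, hx2⟩ := h x hx
    rw [map_prod]
    exact Finset.prod_eq_zero hi ((bin_zero_iff (e i) (c i) x).2 hx2)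
  obtain ⟨i, hi, h2⟩ := (Ideal.IsPrime.prod_mem_iff (hp := hV)).1 (hX h1)
  refine ⟨i, hi, fun x hx => ?_⟩
  unfold idl at h2
  rw [mem_vanishingIdeal_iff] at h2
  exact (bin_zero_iff (e i) (c i) x).1 (h2 _ ⟨x, hx, rfl⟩)

end Pool.Agent.H11.TH
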