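import Pool.Agent.H11.TH.Irr

/-!
# Module KerP: the kernel of a primitive character is irreducible

`B = {x | ch e x = 1}`, `∑ e_l f_l = 1`. The map `φ : Tor Ω n → Tor Ω n`, `φ(t)_l = t_l * (ch e t)^(- f_l)` has values in `B`
(`ch e (φ t) = ch e t * (ch e t)^(-∑ e_l f_l) = 1`) and `φ x = x` for `x ∈ B`. So a polynomial `p` is in `idl B` iff
`aeval (crd (φ t)) p = 0` for all `t`. There are a polynomial `p'` and an exponent vector `c : Fin n → ℕ` with
`aeval (crd t) p' = mon c t * aeval (crd (φ t)) p` for all `t` (for a monomial `x^a`: `mon a (φ t) = ∏_l t_l^(E_l)` with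
integers `E_l = a_l - e_l ∑_i a_i f_i`; `c_l ≥ -E_l` for all `a` in the support of `p`; sum up). If `p q ∈ idl B`:
`p' q'` vanishes on the whole torus, so it is `0` (`MvPolynomial` over an infinite field: multiply by the product
of the variables to have zeros everywhere, `MvPolynomial.funext`; or
`MvPolynomial.funext_set`), so `p' = 0` or `q' = 0`, i.e. `p ∈ idl B` or `q ∈ idl B` (`mon c t ≠ 0`).
`idl B ≠ ⊤` as `1 ∈ B`. `ker_closed`: `B` is the set of zeros of `bin e 1` (`bin_zero_iff`), the ideal
`Ideal.span {..}` over `L`, the polynomial has coefficients in `L`.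
-/

set_option autoImplicit false
set_option linter.unusedSectionVars false

open MvPolynomial

namespace Pool.Agent.H11.TH

theorem ker_closed {K Ω : Type} [Field K] [Field Ω] [Algebra K Ω] (L : IntermediateField K Ω)
    {n : ℕ} (e : Fin n → ℤ) : ClosedOver L {x : Tor Ω n | ch e x = 1} := by
  refine ⟨Ideal.span {∏ l, X l ^ (e l).toNat - ∏ l, X l ^ (-e l).toNat}, ?_⟩
  ext x
  rw [zeroLocus_span]
  simp only [Set.mem_setOf_eq, Set.mem_singleton_iff, forall_eq]
  have h := bin_zero_iff e 1 x
  rw [← h]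
  have h1 : aeval (crd x) (bin e ((1 : Ωˣ) : Ω)) =
      aeval (crd x) (∏ l, X l ^ (e l).toNat - ∏ l, X l ^ (-e l).toNat :
        MvPolynomial (Fin n) L) := by
    unfold bin
    simp only [Units.val_one, map_one, one_mul, map_sub, map_prod, map_pow, aeval_X]
  rw [h1]

/-- the retraction of the torus onto the kernel -/
private def phi {Ω : Type} [Field Ω] {n : ℕ} (e f : Fin n → ℤ) (t : Tor Ω n) : Tor Ω n :=
  fun l => t l * (ch e t) ^ (-(f l))

private theorem ch_phi {Ω : Type} [Field Ω] {n : ℕ} (e f : Fin n → ℤ)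
    (hef : ∑ l, e l * f l = 1) (t : Tor Ω n) : ch e (phi e f t) = 1 := by
  have h1 : ch e (phi e f t) = ch e t * ∏ l, (ch e t) ^ (-(f l) * e l) := by
    unfold phi
    conv_lhs => unfold ch
    rw [show ch e t * ∏ l, (ch e t) ^ (-(f l) * e l) =
      (∏ l, t l ^ e l) * ∏ l, (ch e t) ^ (-(f l) * e l) from rfl, ← Finset.prod_mul_distrib]
    refine Finset.prod_congr rfl fun l _ => ?_
    rw [mul_zpow, zpow_mul]
    rfl
  have h2 : ∏ l, (ch e t) ^ (-(f l) * e l) = (ch e t) ^ (∑ l, -(f l) * e l) := by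
    induction (Finset.univ : Finset (Fin n)) using Finset.induction_on with
    | empty => simp
    | insert a s ha ih => rw [Finset.prod_insert ha, Finset.sum_insert ha, ih, zpow_add]
  have h3 : ∑ l, -(f l) * e l = -1 := by
    rw [← hef, ← Finset.sum_neg_distrib]
    exact Finset.sum_congr rfl fun l _ => by ring
  rw [h1, h2, h3, zpow_neg_one, mul_inv_cancel]

private theorem phi_self {Ω : Type} [Field Ω] {n : ℕ} (e f : Fin n → ℤ) (x : Tor Ω n)
    (hx : ch e x = 1) : phi e f x = x := by
  funext l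
  unfold phi
  rw [hx, one_zpow, mul_one]

private theorem unit_id {Ω : Type} [Field Ω] {n : ℕ} (e f : Fin n → ℤ) (t : Tor Ω n) (l : Fin n) :
    ∏ i, t i ^ (|e i * f l| - e i * f l).toNat =
      mon (fun i => (e i * f l).natAbs) t * (ch e t) ^ (-(f l)) := by
  unfold mon ch
  rw [← Finset.prod_zpow, ← Finset.prod_mul_distrib]
  refine Finset.prod_congr rfl fun i _ => ?_
  rw [← zpow_mul, ← zpow_natCast, ← zpow_natCast, ← zpow_add]
  congr 1
  have h1 : e i * f l ≤ |e i * f l| := le_abs_self _
  rw [Int.toNat_of_nonneg (by linarith), Int.natCast_natAbs]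
  ring

private theorem mon_mul {Ω : Type} [Field Ω] {n : ℕ} (c c' : Fin n → ℕ) (t : Tor Ω n) :
    mon (fun i => c i + c' i) t = mon c t * mon c' t := by
  unfold mon
  rw [← Finset.prod_mul_distrib]
  exact Finset.prod_congr rfl fun i _ => pow_add _ _ _

private theorem aeval_mon {Ω : Type} [Field Ω] {n : ℕ} (c : Fin n → ℕ) (t : Tor Ω n) :
    aeval (crd t) (∏ i, X i ^ c i : MvPolynomial (Fin n) Ω) = ((mon c t : Ωˣ) : Ω) := by
  unfold mon crd
  simp only [map_prod, map_pow, aeval_X]
  rw [Units.coe_prod]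
  exact Finset.prod_congr rfl fun i _ => (Units.val_pow_eq_pow_val _ _).symm

private theorem key {Ω : Type} [Field Ω] {n : ℕ} (e f : Fin n → ℤ)
    (p : MvPolynomial (Fin n) Ω) : ∃ (p' : MvPolynomial (Fin n) Ω) (c : Fin n → ℕ),
      ∀ t : Tor Ω n, aeval (crd t) p' = ((mon c t : Ωˣ) : Ω) * aeval (crd (phi e f t)) p := by
  induction p using MvPolynomial.induction_on with
  | C a =>
    refine ⟨C a, fun _ => 0, fun t => ?_⟩
    have : mon (fun _ => 0) t = 1 := by
      unfold mon
      exact Finset.prod_eq_one fun i _ => pow_zero _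
    rw [this, aeval_C, aeval_C, Units.val_one, one_mul]
  | add p q hp hq =>
    obtain ⟨p', c, h⟩ := hp
    obtain ⟨q', c', h'⟩ := hq
    refine ⟨(∏ i, X i ^ c' i) * p' + (∏ i, X i ^ c i) * q', fun i => c i + c' i, fun t => ?_⟩
    rw [map_add, map_mul, map_mul, aeval_mon, aeval_mon, h, h', mon_mul, map_add,
      Units.val_mul]
    ring
  | mul_X p l hp =>
    obtain ⟨p', c, h⟩ := hp
    refine ⟨p' * (X l * ∏ i, X i ^ (|e i * f l| - e i * f l).toNat),
      fun i => c i + (e i * f l).natAbs, fun t => ?_⟩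
    rw [map_mul, map_mul, aeval_X, aeval_mon, h, map_mul, aeval_X, mon_mul, Units.val_mul]
    have h1 : ((mon (fun i => (|e i * f l| - e i * f l).toNat) t : Ωˣ) : Ω) =
        ((mon (fun i => (e i * f l).natAbs) t : Ωˣ) : Ω) *
          (((ch e t) ^ (-(f l)) : Ωˣ) : Ω) := by
      rw [← Units.val_mul, ← unit_id]
      rfl
    have h2 : crd (phi e f t) l = crd t l * (((ch e t) ^ (-(f l)) : Ωˣ) : Ω) := by
      unfold crd phi
      rw [Units.val_mul]
    rw [h1, h2]
    ring

theorem ker_prime {Ω : Type} [Field Ω] [IsAlgClosed Ω] {n : ℕ} (e f : Fin n → ℤ)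
    (hef : ∑ l, e l * f l = 1) : (idl {x : Tor Ω n | ch e x = 1}).IsPrime := by
  have hmem : ∀ p : MvPolynomial (Fin n) Ω, p ∈ idl {x : Tor Ω n | ch e x = 1} ↔
      ∀ x : Tor Ω n, ch e x = 1 → aeval (crd x) p = 0 := by
    intro p
    unfold idl
    rw [mem_vanishingIdeal_iff]
    constructor
    · intro h x hx
      exact h _ ⟨x, hx, rfl⟩
    · rintro h _ ⟨x, hx, rfl⟩
      exact h x hx
  have hphi : ∀ p : MvPolynomial (Fin n) Ω, p ∈ idl {x : Tor Ω n | ch e x = 1} ↔
      ∀ t : Tor Ω n, aeval (crd (phi e f t)) p = 0 := by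
    intro p
    rw [hmem]
    constructor
    · intro h t
      exact h _ (ch_phi e f hef t)
    · intro h x hx
      have := h x
      rw [phi_self e f x hx] at this
      exact this
  haveI : Infinite Ω := IsAlgClosed.instInfinite
  have hzero : ∀ p : MvPolynomial (Fin n) Ω, (∀ t : Tor Ω n, aeval (crd t) p = 0) → p = 0 := by
    intro p hp
    have hX : (∏ l : Fin n, (X l : MvPolynomial (Fin n) Ω)) ≠ 0 :=
      Finset.prod_ne_zero_iff.2 fun l _ => X_ne_zero l
    have h : p * ∏ l : Fin n, (X l : MvPolynomial (Fin n) Ω) = 0 := by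
      apply MvPolynomial.funext
      intro x
      rw [map_zero, map_mul, map_prod]
      by_cases hx : ∃ l, x l = 0
      · obtain ⟨l, hl⟩ := hx
        rw [Finset.prod_eq_zero (Finset.mem_univ l) (by rw [eval_X, hl]), mul_zero]
      · push Not at hx
        have h1 := hp (fun l => Units.mk0 (x l) (hx l))
        have h2 : crd (fun l => Units.mk0 (x l) (hx l)) = x := rfl
        rw [h2, aeval_eq_eval] at h1
        rw [show eval x p = 0 from h1, zero_mul]
    rcases mul_eq_zero.1 h with h | h
    · exact h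
    · exact absurd h hX
  refine ⟨?_, ?_⟩
  · intro htop
    have h1 : (1 : MvPolynomial (Fin n) Ω) ∈ idl {x : Tor Ω n | ch e x = 1} := by
      rw [htop]
      exact Submodule.mem_top
    have h2 := (hphi 1).1 h1 1
    rw [map_one] at h2
    exact one_ne_zero h2
  · intro p q hpq
    rw [hphi] at hpq
    obtain ⟨p', c, hp'⟩ := key e f p
    obtain ⟨q', c', hq'⟩ := key e f q
    have h0 : p' * q' = 0 := by
      apply hzero
      intro t
      have := hpq t
      rw [map_mul] at this
      rw [map_mul, hp', hq']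
      calc _ = ((mon c t : Ωˣ) : Ω) * ((mon c' t : Ωˣ) : Ω) *
          (aeval (crd (phi e f t)) p * aeval (crd (phi e f t)) q) := by ring
        _ = 0 := by rw [this, mul_zero]
    rcases mul_eq_zero.1 h0 with h | h
    · left
      rw [hphi]
      intro t
      have := hp' t
      rw [h, map_zero] at this
      rcases mul_eq_zero.1 this.symm with h' | h'
      · exact absurd h' (Units.ne_zero _)
      · exact h'
    · right
      rw [hphi]
      intro t
      have := hq' t
      rw [h, map_zero] at this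
      rcases mul_eq_zero.1 this.symm with h' | h'
      · exact absurd h' (Units.ne_zero _)
      · exact h'

end Pool.Agent.H11.TH
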