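import Pool.Agent.H11.TH.Defs

/-!
# Module Neu: B. H. Neumann's lemma for conjugates

`G` = the subgroup of `Ω ≃ₐ[K] Ω` of the automorphisms fixing `L`. The set `W` of the tuples `(σ (w j))_j`, `σ ∈ G`, is
finite with at most `∏ dg L (w j) ≤ d^N` elements (it is contained in `Set.pi univ (fun j => Orb L (w j))`,
`orb_finite`). For `t ∈ W` choose `ρ_t ∈ G` with `ρ_t (w j) = t_j`. For `σ ∈ G` with tuple `t`: `ρ_t⁻¹ σ` fixes `L`
and the `w j`, so by `h` there is `i ∈ s` with `P i` and `(ρ_t⁻¹ σ) (τ i) = c i`, i.e. `σ (τ i) = ρ_t (c i)`. So `G` is the union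
over the pairs `(t, i)` in `W × s` with `P i` of the sets `{σ ∈ G | σ (τ i) = ρ_t (c i)}`; the nonempty ones are left cosets
`g • stabilizer G (τ i)`. `Subgroup.exists_index_le_card_of_leftCoset_cover` (applied to the group `G`, or to the family
of the pairs for which the set is nonempty, with `g` an element of it): for some such pair the index of the stabilizer
`{σ ∈ G | σ (τ i) = τ i}` is positive and at most `d^N * s.card`, and this index is the number of elements of the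
orbit `Orb L (τ i)` (`MulAction.index_stabilizer`, or: `σ ↦ σ (τ i)` induces an injection of `Orb L (τ i)` into the
quotient). `s` may be assumed to consist of `i` with `P i`.
-/

set_option autoImplicit false
set_option linter.unusedSectionVars false

namespace Pool.Agent.H11.TH

open Pool.Agent.H72.PB
open scoped Pointwise

variable {K Ω : Type} [Field K] [Field Ω] [Algebra K Ω] [Algebra.IsAlgebraic K Ω]

theorem neumann_dg (L : IntermediateField K Ω) (N d : ℕ) (w : Fin N → Ω)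
    (hw : ∀ j, dg L (w j) ≤ d) {I : Type} (s : Finset I) (P : I → Prop) (τ c : I → Ω)
    (h : ∀ σ : Ω ≃ₐ[K] Ω, (∀ z ∈ L, σ z = z) → (∀ j, σ (w j) = w j) →
      ∃ i ∈ s, P i ∧ σ (τ i) = c i) :
    ∃ i ∈ s, P i ∧ dg L (τ i) ≤ d ^ N * s.card := by
  classical
  set G : Subgroup (Ω ≃ₐ[K] Ω) := L.fixingSubgroup with hG
  have hmem : ∀ σ : Ω ≃ₐ[K] Ω, σ ∈ G ↔ ∀ z ∈ L, σ z = z := fun σ =>
    IntermediateField.mem_fixingSubgroup_iff L σ
  have horb : ∀ y : Ω, Orb L y = MulAction.orbit G y := by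
    intro y
    ext z
    constructor
    · rintro ⟨ρ, hρ, rfl⟩
      exact ⟨⟨ρ, (hmem ρ).2 hρ⟩, rfl⟩
    · rintro ⟨⟨ρ, hρ⟩, rfl⟩
      exact ⟨ρ, (hmem ρ).1 hρ, rfl⟩
  -- tuples
  let T : G → Fin N → Ω := fun σ j => (σ : Ω ≃ₐ[K] Ω) (w j)
  let O : Fin N → Finset Ω := fun j => (orb_finite L (w j)).toFinset
  let W : Finset (Fin N → Ω) := Fintype.piFinset O
  have hWcard : W.card ≤ d ^ N := by
    rw [Fintype.card_piFinset]
    calc ∏ j, (O j).card ≤ ∏ _j : Fin N, d := by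
          refine Finset.prod_le_prod' fun j _ => ?_
          have h1 : (O j).card = dg L (w j) := (Set.ncard_eq_toFinset_card _ _).symm
          rw [h1]
          exact hw j
      _ = d ^ N := by rw [Finset.prod_const, Finset.card_univ, Fintype.card_fin]
  have hTW : ∀ σ : G, T σ ∈ W := by
    intro σ
    rw [Fintype.mem_piFinset]
    intro j
    rw [Set.Finite.mem_toFinset]
    exact ⟨σ, (hmem σ).1 σ.2, rfl⟩
  let ρ : (Fin N → Ω) → G := fun t => if h : ∃ σ : G, T σ = t then h.choose else 1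
  have hρ : ∀ σ : G, T (ρ (T σ)) = T σ := by
    intro σ
    have h1 : ∃ σ' : G, T σ' = T σ := ⟨σ, rfl⟩
    have h2 : ρ (T σ) = h1.choose := dif_pos h1
    rw [h2]
    exact h1.choose_spec
  let S : Finset ((Fin N → Ω) × I) := (W ×ˢ (s.filter P)).filter
    fun p => ∃ σ : G, (σ : Ω ≃ₐ[K] Ω) (τ p.2) = (ρ p.1 : Ω ≃ₐ[K] Ω) (c p.2)
  let g : ((Fin N → Ω) × I) → G := fun p =>
    if h : ∃ σ : G, (σ : Ω ≃ₐ[K] Ω) (τ p.2) = (ρ p.1 : Ω ≃ₐ[K] Ω) (c p.2) then h.choose else 1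
  have hg : ∀ p : (Fin N → Ω) × I,
      (∃ σ : G, (σ : Ω ≃ₐ[K] Ω) (τ p.2) = (ρ p.1 : Ω ≃ₐ[K] Ω) (c p.2)) →
      (g p : Ω ≃ₐ[K] Ω) (τ p.2) = (ρ p.1 : Ω ≃ₐ[K] Ω) (c p.2) := by
    intro p h1
    have h2 : g p = h1.choose := dif_pos h1
    rw [h2]
    exact h1.choose_spec
  let H : ((Fin N → Ω) × I) → Subgroup G := fun p => MulAction.stabilizer G (τ p.2)
  have hcov : ⋃ p ∈ S, g p • (H p : Set G) = Set.univ := by
    rw [Set.eq_univ_iff_forall]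
    intro σ
    have hfix : ∀ z ∈ L, (((ρ (T σ))⁻¹ * σ : G) : Ω ≃ₐ[K] Ω) z = z :=
      (hmem _).1 ((ρ (T σ))⁻¹ * σ).2
    have hwj : ∀ j, (((ρ (T σ))⁻¹ * σ : G) : Ω ≃ₐ[K] Ω) (w j) = w j := by
      intro j
      have h1 : (σ : Ω ≃ₐ[K] Ω) (w j) = (ρ (T σ) : Ω ≃ₐ[K] Ω) (w j) := (congrFun (hρ σ) j).symm
      change ((ρ (T σ) : Ω ≃ₐ[K] Ω)⁻¹ : Ω ≃ₐ[K] Ω) ((σ : Ω ≃ₐ[K] Ω) (w j)) = w j
      rw [h1]
      exact (ρ (T σ) : Ω ≃ₐ[K] Ω).symm_apply_apply (w j)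
    obtain ⟨i, hi, hPi, hτ⟩ := h _ hfix hwj
    have h2 : (σ : Ω ≃ₐ[K] Ω) (τ i) = (ρ (T σ) : Ω ≃ₐ[K] Ω) (c i) := by
      rw [← hτ]
      change _ = (ρ (T σ) : Ω ≃ₐ[K] Ω) (((ρ (T σ) : Ω ≃ₐ[K] Ω)⁻¹ : Ω ≃ₐ[K] Ω)
        ((σ : Ω ≃ₐ[K] Ω) (τ i)))
      exact ((ρ (T σ) : Ω ≃ₐ[K] Ω).apply_symm_apply _).symm
    have hS : (T σ, i) ∈ S := by
      rw [Finset.mem_filter, Finset.mem_product, Finset.mem_filter]
      exact ⟨⟨hTW σ, hi, hPi⟩, σ, h2⟩
    rw [Set.mem_iUnion₂]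
    refine ⟨(T σ, i), hS, ?_⟩
    rw [mem_leftCoset_iff]
    change (g (T σ, i))⁻¹ * σ ∈ MulAction.stabilizer G (τ i)
    rw [MulAction.mem_stabilizer_iff]
    have h3 := hg (T σ, i) ⟨σ, h2⟩
    change ((g (T σ, i) : Ω ≃ₐ[K] Ω)⁻¹ : Ω ≃ₐ[K] Ω) ((σ : Ω ≃ₐ[K] Ω) (τ i)) = τ i
    rw [h2]
    have h4 : (ρ (T σ) : Ω ≃ₐ[K] Ω) (c i) = (g (T σ, i) : Ω ≃ₐ[K] Ω) (τ i) := h3.symm
    rw [h4]
    exact (g (T σ, i) : Ω ≃ₐ[K] Ω).symm_apply_apply (τ i)
  obtain ⟨p, hp, -, hidx⟩ := Subgroup.exists_index_le_card_of_leftCoset_cover hcov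
  rw [Finset.mem_filter, Finset.mem_product, Finset.mem_filter] at hp
  refine ⟨p.2, hp.1.2.1, hp.1.2.2, ?_⟩
  have h5 : dg L (τ p.2) = (H p).index := by
    unfold dg
    rw [horb, ← MulAction.index_stabilizer]
  rw [h5]
  calc (H p).index ≤ S.card := hidx
    _ ≤ (W ×ˢ (s.filter P)).card := Finset.card_filter_le _ _
    _ = W.card * (s.filter P).card := Finset.card_product _ _
    _ ≤ d ^ N * s.card := Nat.mul_le_mul hWcard (Finset.card_filter_le _ _)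

end Pool.Agent.H11.TH
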