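import Pool.Agent.H11.TH.IfaceL

/-!
# Module Rows: `N` rows satisfy a multiplicative relation

`ρ_i(j) = u_ij * mon (m j) (s i)` (`i, j : Fin N`). By `hrow` the matrix `M = (ρ_i(j))` kills the nonzero vector `g`
(`Matrix.exists_mulVec_eq_zero_iff`), so `det M = 0`, i.e. (`Matrix.det_apply`)
`∑_π sign(π) ∏_i ρ_(π i)(i) = 0` (use `Matrix.det_transpose` to have the permutation on the column index:
`∑_π sign(π) ∏_i ρ_i(π i) = 0`). Apply `lemma_L` with `T = N!`, `I = Equiv.Perm (Fin N)` (`Fintype.card_perm`),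
`J = Fin N × Fin n`, `c π = sign π`, `u π = ∏_i u_i(π i)` (a root of unity: the product of the orders),
`y (i, l) = s i l`, `δ (i, l) = δ`, `e π (i, l) = m (π i) l`. Height: `∑_(i,l) δ h(s_i l) = ∑_i δ * ht (s i)
≤ N ε' ≤ ε` for `ε' = ε / N`. It gives `π ≠ π'`; `a = π`, `b = π'` as functions, `a ≠ b` (`Equiv.coe_inj`).
`u π * ∏_(i,l) .. = ∏_i (u_i(π i) * mon (m (π i)) (s i))`: `Fintype.prod_prod_type`, `Finset.prod_mul_distrib`.
-/

set_option autoImplicit false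
set_option linter.unusedSectionVars false

open NumberField

namespace Pool.Agent.H11.TH

theorem rows_rel (K Ω : Type) [Field K] [NumberField K] [Field Ω] [CharZero Ω] [IsAlgClosed Ω]
    [Algebra K Ω] [IsGalois K Ω] (N : ℕ) (hN : 1 ≤ N) :
    ∃ (ε : ℝ) (Q : ℕ), 0 < ε ∧ 1 ≤ Q ∧ ∀ (n : ℕ) (u : Fin N → Fin N → Ωˣ),
      (∀ i j, ∃ k : ℕ, 1 ≤ k ∧ u i j ^ k = 1) → ∀ (s : Fin N → Tor Ω n) (m : Fin N → Fin n → ℕ)
      (δ : ℕ), (∀ j l, m j l ≤ δ) → (∀ i, (δ : ℝ) * ht (s i) ≤ ε) → ∀ (g : Fin N → Ωˣ),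
      (∀ i, ∑ j, ((u i j * mon (m j) (s i) : Ωˣ) : Ω) * (g j : Ω) = 0) →
      ∃ a b : Fin N → Fin N, a ≠ b ∧
        (∏ i, (u i (a i) * mon (m (a i)) (s i))) ^ Q =
          (∏ i, (u i (b i) * mon (m (b i)) (s i))) ^ Q := by
  classical
  obtain ⟨ε, Q, hε, hQ, hL⟩ := lemma_L K Ω (N.factorial)
  have hN0 : (0 : ℝ) < N := by
    have : 0 < N := hN
    exact_mod_cast this
  refine ⟨ε / N, Q, div_pos hε hN0, hQ, ?_⟩
  intro n u hu s m δ hm hs g hrow
  have hNe : Nonempty (Equiv.Perm (Fin N)) := ⟨1⟩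
  -- the determinant
  set M : Matrix (Fin N) (Fin N) Ω := Matrix.of fun i j => ((u i j * mon (m j) (s i) : Ωˣ) : Ω)
    with hM
  have hdet : M.det = 0 := by
    rw [← Matrix.exists_mulVec_eq_zero_iff]
    refine ⟨fun j => (g j : Ω), ?_, ?_⟩
    · intro h
      have h1 := congrFun h ⟨0, hN⟩
      exact (g ⟨0, hN⟩).ne_zero h1
    · funext i
      have h1 := hrow i
      simp only [Matrix.mulVec, dotProduct, hM, Matrix.of_apply, Pi.zero_apply]
      exact h1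
  have hterm : ∀ π : Equiv.Perm (Fin N),
      (∏ i, u i (π i)) * ∏ k : Fin N × Fin n, s k.1 k.2 ^ m (π k.1) k.2 =
        ∏ i, (u i (π i) * mon (m (π i)) (s i)) := by
    intro π
    rw [Finset.prod_mul_distrib, Fintype.prod_prod_type]
    rfl
  have hsum : ∑ π : Equiv.Perm (Fin N), (((Equiv.Perm.sign π : ℤˣ) : ℤ) : Ω) *
      (((∏ i, u i (π i)) * ∏ k : Fin N × Fin n, s k.1 k.2 ^ m (π k.1) k.2 : Ωˣ) : Ω) = 0 := by
    rw [← hdet, ← Matrix.det_transpose, Matrix.det_apply']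
    refine Finset.sum_congr rfl fun π _ => ?_
    rw [hterm π, Units.coe_prod]
    rfl
  have hroot : ∀ π : Equiv.Perm (Fin N), ∃ k : ℕ, 1 ≤ k ∧ (∏ i, u i (π i)) ^ k = 1 := by
    intro π
    choose k hk1 hk2 using hu
    refine ⟨∏ i, ∏ j, k i j, ?_, ?_⟩
    · exact Finset.one_le_prod' fun i _ => Finset.one_le_prod' fun j _ => hk1 i j
    · rw [← Finset.prod_pow]
      refine Finset.prod_eq_one fun i _ => ?_
      have h1 : k i (π i) ∣ ∏ i, ∏ j, k i j :=
        dvd_trans (Finset.dvd_prod_of_mem (fun j => k i j) (Finset.mem_univ (π i)))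
          (Finset.dvd_prod_of_mem (fun i => ∏ j, k i j) (Finset.mem_univ i))
      obtain ⟨q, hq⟩ := h1
      rw [hq, pow_mul, hk2, one_pow]
  have hht : ∑ k : Fin N × Fin n, ((δ : ℕ) : ℝ) * absLogHeight₁ ((s k.1 k.2 : Ωˣ) : Ω) ≤ ε := by
    rw [Fintype.sum_prod_type]
    have h1 : ∀ i ∈ (Finset.univ : Finset (Fin N)),
        ∑ l : Fin n, ((δ : ℕ) : ℝ) * absLogHeight₁ ((s i l : Ωˣ) : Ω) ≤ ε / N := by
      intro i _
      rw [← Finset.mul_sum]
      exact hs i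
    have h2 := Finset.sum_le_card_nsmul _ _ _ h1
    rw [Finset.card_univ, Fintype.card_fin, nsmul_eq_mul] at h2
    have h3 : (N : ℝ) * (ε / N) = ε := by field_simp
    rw [h3] at h2
    exact h2
  obtain ⟨π, π', hne, heq⟩ := hL (Equiv.Perm (Fin N)) (Fin N × Fin n)
    (by rw [Fintype.card_perm, Fintype.card_fin]) hNe
    (fun π => ((Equiv.Perm.sign π : ℤˣ) : ℤ))
    (fun π => by
      rcases Int.units_eq_one_or (Equiv.Perm.sign π) with h | h
      · left; rw [h]; rfl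
      · right; rw [h]; rfl)
    (fun π => ∏ i, u i (π i)) hroot (fun k => s k.1 k.2) (fun _ => δ)
    (fun π k => m (π k.1) k.2) (fun π k => hm _ _) hht hsum
  refine ⟨fun i => π i, fun i => π' i, ?_, ?_⟩
  · intro h
    apply hne
    exact Equiv.ext fun i => congrFun h i
  · rw [hterm π, hterm π'] at heq
    exact heq

end Pool.Agent.H11.TH
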