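import Pool.Agent.H11.TH.Rows
import Pool.Agent.H11.TH.Free
import Pool.Agent.H11.TH.Irr
import Pool.Agent.H11.TH.Neu

/-!
# Module Step: one step (a ratio of two terms has bounded degree)

`ε, Q` from `rows_rel`; `C = d^N * (N^2 * N^(2N))`. Given the data; call `σ` good if it fixes `L` and all `g_j^k`. For a
good `σ`: `(sgm σ (g j) / g j)^k = 1`. Let `R` = the set of the rows
`ρ = fun j => sgm σ (g j) / g j * mon (m j) (mv σ x)`, `σ` good, `x ∈ X`. `hR` of `free_rows`: for rows `ρ i` given by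
`σ_i, x_i` use `rows_rel` with `u i j = sgm σ_i (g j) / g j`, `s i = mv σ_i x_i`, the vector `g`:
`∑_j (sgm σ (g j) / g j) mon (m j) (mv σ x) g_j = ∑_j σ(g_j) σ(mon (m j) x) = σ (∑_j g_j mon (m j) x) = 0` by `hG`
(`x ∈ X ⊆ V`); `ht (mv σ x) = ht x` (`height_map`, file `H72/PB/HTwist.lean`).
`free_rows` gives `F`. Choose `x₀ ∈ V` (`prime_nonempty`), `γ a b = (mon (m a) x₀ / mon (m b) x₀)^Q`.
`neumann_dg` with `w j = (g j)^k`, `I = Fin N × Fin N × Ωˣ`, `s = univ ×ˢ univ ×ˢ F` (`card = N * (N * card F)`),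
`P (a, b, φ) := a ≠ b ∧ ∀ x ∈ V, (mon (m a) x / mon (m b) x)^Q = γ a b`, `τ (a, b, φ) = γ a b * (g a / g b)^Q`,
`c (a, b, φ) = φ * (g a / g b)^Q`. Its hypothesis: let `σ` be good. For every `x ∈ X` there are `a ≠ b` with
`φ = (ρ a / ρ b)^Q ∈ F`, `ρ` the row of `σ, x`; i.e. `sgm σ ((mon (m a) x / mon (m b) x)^Q) = φ * ω`,
`ω = ((g a / g b) / sgm σ (g a / g b))^Q`, so `ch e x = (sgm σ)⁻¹ (φ ω)`, `e l = Q * (m a l - m b l)` (`ch e x =
(mon (m a) x / mon (m b) x)^Q`, `ch_ratio`). By `irr_cover` (index set: the triples with `a ≠ b`) one triple works for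
all `x ∈ V`; the constant is `γ a b` (evaluate at `x₀`), and `σ (γ a b) = φ ω`, so `σ (τ) = φ ω σ((g a/g b)^Q) = c`.
-/

set_option autoImplicit false
set_option linter.unusedSectionVars false

open NumberField

namespace Pool.Agent.H11.TH

open Pool.Agent.H72.PB

theorem ch_ratio {Ω : Type} [Field Ω] {n : ℕ} (a b : Fin n → ℕ) (Q : ℕ) (x : Tor Ω n) :
    ch (fun l => (Q : ℤ) * ((a l : ℤ) - b l)) x = (mon a x / mon b x) ^ Q := by
  unfold ch mon
  rw [← Finset.prod_div_distrib, ← Finset.prod_pow]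
  refine Finset.prod_congr rfl fun l _ => ?_
  show x l ^ ((Q : ℤ) * ((a l : ℤ) - b l)) = _
  rw [mul_comm, zpow_mul, zpow_natCast, zpow_sub, zpow_natCast, zpow_natCast, div_eq_mul_inv]

theorem step (K Ω : Type) [Field K] [NumberField K] [Field Ω] [CharZero Ω] [IsAlgClosed Ω]
    [Algebra K Ω] [IsGalois K Ω] (N : ℕ) (hN : 1 ≤ N) (d : ℕ) :
    ∃ (ε : ℝ) (Q C : ℕ), 0 < ε ∧ 1 ≤ Q ∧ ∀ (L : IntermediateField K Ω) (n : ℕ)
      (V X : Set (Tor Ω n)), (idl V).IsPrime → X ⊆ V → idl X ≤ idl V →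
      ∀ (m : Fin N → Fin n → ℕ) (δ : ℕ), (∀ j l, m j l ≤ δ) → (∀ x ∈ X, (δ : ℝ) * ht x ≤ ε) →
      ∀ (g : Fin N → Ωˣ) (k : ℕ), 1 ≤ k → (∀ j, dg L ((g j : Ω) ^ k) ≤ d) →
      (∀ x ∈ V, ∑ j, (g j : Ω) * (mon (m j) x : Ω) = 0) →
      ∃ a b : Fin N, a ≠ b ∧ ∃ γ : Ωˣ, (∀ x ∈ V, (mon (m a) x / mon (m b) x) ^ Q = γ) ∧
        dg L ((γ * (g a / g b) ^ Q : Ωˣ) : Ω) ≤ C := by
  classical
  obtain ⟨ε, Q, hε, hQ, hrows⟩ := rows_rel K Ω N hN
  refine ⟨ε, Q, d ^ N * (N * (N * N ^ (2 * N))), hε, hQ, ?_⟩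
  intro L n V X hV hXV hX m δ hm hht g k hk hg hG
  -- the rows
  have htors : ∀ σ : Ω ≃ₐ[K] Ω, (∀ j, σ ((g j : Ω) ^ k) = (g j : Ω) ^ k) → ∀ j,
      (sgm σ (g j) / g j) ^ k = 1 := by
    intro σ hσ j
    rw [div_pow, div_eq_one]
    ext
    rw [Units.val_pow_eq_pow_val, Units.val_pow_eq_pow_val, sgm_val, ← map_pow]
    exact hσ j
  set R : Set (Fin N → Ωˣ) := {ρ | ∃ (σ : Ω ≃ₐ[K] Ω) (x : Tor Ω n),
    (∀ j, σ ((g j : Ω) ^ k) = (g j : Ω) ^ k) ∧ x ∈ X ∧
      ρ = fun j => sgm σ (g j) / g j * mon (m j) (mv σ x)} with hR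
  have hRrel : ∀ ρ : Fin N → Fin N → Ωˣ, (∀ i, ρ i ∈ R) → ∃ a b : Fin N → Fin N, a ≠ b ∧
      (∏ i, ρ i (a i)) ^ Q = (∏ i, ρ i (b i)) ^ Q := by
    intro ρ hρ
    choose σ x hσ hx hρe using hρ
    obtain ⟨a, b, hab, he⟩ := hrows n (fun i j => sgm (σ i) (g j) / g j)
      (fun i j => ⟨k, hk, htors (σ i) (hσ i) j⟩) (fun i => mv (σ i) (x i)) m δ hm
      (fun i => by
        have e : ht (mv (σ i) (x i)) = ht (x i) := by
          unfold ht
          refine Finset.sum_congr rfl fun l _ => ?_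
          exact height_map (σ i) _
        rw [e]
        exact hht _ (hx i)) g
      (fun i => by
        have h1 := hG (x i) (hXV (hx i))
        have h2 : ∀ j, ((sgm (σ i) (g j) / g j * mon (m j) (mv (σ i) (x i)) : Ωˣ) : Ω) *
            (g j : Ω) = σ i ((g j : Ω) * (mon (m j) (x i) : Ω)) := by
          intro j
          rw [mon_mv, ← Units.val_mul]
          have e : sgm (σ i) (g j) / g j * sgm (σ i) (mon (m j) (x i)) * g j =
              sgm (σ i) (g j * mon (m j) (x i)) := by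
            rw [map_mul, div_mul_eq_mul_div, div_mul_cancel]
          rw [e, sgm_val, Units.val_mul]
        rw [Finset.sum_congr rfl fun j _ => h2 j, ← map_sum, h1, map_zero])
    refine ⟨a, b, hab, ?_⟩
    have e1 : ∀ c : Fin N → Fin N, ∏ i, ρ i (c i) =
        ∏ i, (sgm (σ i) (g (c i)) / g (c i) * mon (m (c i)) (mv (σ i) (x i))) := by
      intro c
      refine Finset.prod_congr rfl fun i _ => ?_
      exact congrFun (hρe i) (c i)
    rw [e1, e1]
    exact he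
  obtain ⟨F, hFc, hF⟩ := free_rows N Q hN R hRrel
  obtain ⟨x₀, hx₀⟩ := prime_nonempty hV
  set γ : Fin N → Fin N → Ωˣ := fun a b => (mon (m a) x₀ / mon (m b) x₀) ^ Q with hγ
  obtain ⟨t, hts, ⟨hab, hP⟩, hdg⟩ := neumann_dg L N d (fun j => (g j : Ω) ^ k) hg
    ((Finset.univ : Finset (Fin N)) ×ˢ ((Finset.univ : Finset (Fin N)) ×ˢ F))
    (fun t => t.1 ≠ t.2.1 ∧ ∀ x ∈ V, (mon (m t.1) x / mon (m t.2.1) x) ^ Q = γ t.1 t.2.1)
    (fun t => ((γ t.1 t.2.1 * (g t.1 / g t.2.1) ^ Q : Ωˣ) : Ω))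
    (fun t => ((t.2.2 * (g t.1 / g t.2.1) ^ Q : Ωˣ) : Ω)) (by
      intro σ _ hσ
      set ω : Fin N → Fin N → Ωˣ := fun a b => ((g a / g b) / sgm σ (g a / g b)) ^ Q with hω
      have key : ∀ x ∈ X, ∃ t ∈ ((Finset.univ : Finset (Fin N)) ×ˢ
          ((Finset.univ : Finset (Fin N)) ×ˢ F)).filter (fun t => t.1 ≠ t.2.1),
          ch (fun l => (Q : ℤ) * ((m t.1 l : ℤ) - m t.2.1 l)) x =
            sgm σ.symm (t.2.2 * ω t.1 t.2.1) := by
        intro x hx
        obtain ⟨a, b, hab, hφ⟩ := hF (fun j => sgm σ (g j) / g j * mon (m j) (mv σ x))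
          ⟨σ, x, hσ, hx, rfl⟩
        refine ⟨(a, b, _), Finset.mem_filter.mpr ⟨Finset.mem_product.mpr ⟨Finset.mem_univ _,
          Finset.mem_product.mpr ⟨Finset.mem_univ _, hφ⟩⟩, hab⟩, ?_⟩
        simp only
        rw [ch_ratio]
        have hinj : ∀ y : Ωˣ, sgm σ.symm (sgm σ y) = y := by
          intro y
          ext
          rw [sgm_val, sgm_val, AlgEquiv.symm_apply_apply]
        rw [← hinj ((mon (m a) x / mon (m b) x) ^ Q)]
        congr 1
        simp only [hω, mon_mv]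
        rw [map_pow, map_div, map_div, ← mul_pow]
        congr 1
        have h3 : ∀ A B C D E G : Ωˣ, A / B = C / D * A / (E / G * B) * (D / G / (C / E)) := by
          intro A B C D E G
          ext
          simp only [Units.val_mul, Units.val_div_eq_div_val]
          have h1 := A.ne_zero
          have h2 := B.ne_zero
          have h3 := C.ne_zero
          have h4 := D.ne_zero
          have h5 := E.ne_zero
          have h6 := G.ne_zero
          field_simp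
        exact h3 _ _ _ _ _ _
      obtain ⟨t, ht, hc⟩ := irr_cover hV hX _
        (fun t : Fin N × Fin N × Ωˣ => fun l => (Q : ℤ) * ((m t.1 l : ℤ) - m t.2.1 l))
        (fun t => sgm σ.symm (t.2.2 * ω t.1 t.2.1)) key
      rw [Finset.mem_filter] at ht
      have hc' : ∀ x ∈ V, (mon (m t.1) x / mon (m t.2.1) x) ^ Q =
          sgm σ.symm (t.2.2 * ω t.1 t.2.1) := by
        intro x hx
        rw [← ch_ratio]
        exact hc x hx
      have hγt : γ t.1 t.2.1 = sgm σ.symm (t.2.2 * ω t.1 t.2.1) := hc' x₀ hx₀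
      refine ⟨t, ht.1, ⟨ht.2, fun x hx => by rw [hc' x hx, hγt]⟩, ?_⟩
      rw [← sgm_val, map_mul, hγt]
      have hinj' : ∀ y : Ωˣ, sgm σ (sgm σ.symm y) = y := by
        intro y
        ext
        rw [sgm_val, sgm_val, AlgEquiv.apply_symm_apply]
      rw [hinj', map_pow]
      congr 1
      simp only [hω]
      rw [mul_assoc, ← mul_pow, div_mul_cancel])
  refine ⟨t.1, t.2.1, hab, γ t.1 t.2.1, hP, le_trans hdg ?_⟩
  refine Nat.mul_le_mul_left _ ?_
  rw [Finset.card_product, Finset.card_product, Finset.card_univ, Fintype.card_fin]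
  exact Nat.mul_le_mul_left _ (Nat.mul_le_mul_left _ hFc)

end Pool.Agent.H11.TH
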